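import Pool.Agent.Helper31.KTLambda

/-!
# The lambda polynomial of a projection over `C(X)`
-/

set_option linter.unusedSectionVars false
set_option linter.unusedVariables false

namespace Pool.Agent.Helper75.KT
open Matrix Polynomial

variable {X Y : Type*} [TopologicalSpace X] [CompactSpace X] [TopologicalSpace Y] [CompactSpace Y]
variable {ι κ : Type*} [Fintype ι] [Fintype κ] [DecidableEq ι] [DecidableEq κ]

/-- the lambda polynomial `∑ [Λ^n p] T^n` -/
noncomputable def lamP (p : Matrix ι ι C(X, ℂ)) : (K0 C(X, ℂ))[X] :=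
  ∑ n ∈ Finset.range (Fintype.card ι + 1), C (kcl (Lam n p)) * Polynomial.X ^ n

/-- Exterior powers above the size of the matrix vanish. -/
theorem Lam_eq_zero_of_card_lt {n : ℕ} (h : Fintype.card ι < n) (p : Matrix ι ι C(X, ℂ)) :
    Lam n p = 0 := by
  ext1 f g
  rw [Lam_apply]
  have hf : ¬ Function.Injective f := by
    intro hi
    have := Fintype.card_le_of_injective f hi
    rw [Fintype.card_fin] at this
    omega
  rw [Function.Injective] at hf
  push Not at hf
  obtain ⟨i, j, hij, hne⟩ := hf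
  have : (p.submatrix f g).det = 0 := by
    refine Matrix.det_zero_of_row_eq hne ?_
    funext k
    simp [hij]
  rw [this, smul_zero]
  rfl

theorem lamP_coeff {p : Matrix ι ι C(X, ℂ)} (hp : IsPr p) (n : ℕ) :
    (lamP p).coeff n = kcl (Lam n p) := by
  unfold lamP
  rw [Polynomial.finsetSum_coeff]
  simp only [Polynomial.coeff_C_mul_X_pow]
  rw [Finset.sum_ite_eq (Finset.range (Fintype.card ι + 1)) n (fun k => kcl (Lam k p))]
  split_ifs with h
  · rfl
  · rw [Lam_eq_zero_of_card_lt (by simpa [Finset.mem_range] using h) p, kcl_zero]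

theorem lamP_fromBlocks {p : Matrix ι ι C(X, ℂ)} {q : Matrix κ κ C(X, ℂ)} (hp : IsPr p)
    (hq : IsPr q) : lamP (Matrix.fromBlocks p 0 0 q) = lamP p * lamP q := by
  ext n
  rw [lamP_coeff (hp.fromBlocks hq), kcl_Lam_add n hp hq, Polynomial.coeff_mul,
    Finset.Nat.sum_antidiagonal_eq_sum_range_succ_mk]
  refine Finset.sum_congr rfl fun i _ => ?_
  rw [lamP_coeff hp, lamP_coeff hq]

theorem lamP_eqv {p : Matrix ι ι C(X, ℂ)} {q : Matrix κ κ C(X, ℂ)} (h : Eqv p q) :
    lamP p = lamP q := by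
  ext n
  rw [lamP_coeff h.isPr_left, lamP_coeff h.isPr_right, (Lam_eqv n h).kcl_eq]

theorem lamP_line {p : Matrix ι ι C(X, ℂ)} (hp : IsPr p) (htr : ∀ x, (evM x p).trace = 1) :
    lamP p = 1 + C (kcl p) * Polynomial.X := by
  ext n
  rw [lamP_coeff hp, Polynomial.coeff_add]
  rcases n with _ | _ | n
  · rw [kcl_Lam_zero hp]
    simp
  · rw [kcl_Lam_one hp, Polynomial.coeff_one, Polynomial.coeff_C_mul, Polynomial.coeff_X]
    simp
  · rw [Lam_rank (n + 1 + 1) 1 (by omega) hp (by intro x; rw [htr x]; simp), kcl_zero,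
      Polynomial.coeff_one, Polynomial.coeff_C_mul, Polynomial.coeff_X]
    simp

theorem lamP_one (n : ℕ) : lamP (1 : Matrix (Fin n) (Fin n) C(X, ℂ)) = (1 + Polynomial.X) ^ n := by
  induction n with
  | zero =>
    unfold lamP
    rw [Fintype.card_fin, Finset.sum_range_one, kcl_Lam_zero IsPr.one]
    simp
  | succ n ih =>
    have h1 : Eqv (Matrix.fromBlocks (1 : Matrix (Fin n) (Fin n) C(X, ℂ)) 0 0
        (1 : Matrix (Fin 1) (Fin 1) C(X, ℂ))) (1 : Matrix (Fin (n + 1)) (Fin (n + 1)) C(X, ℂ)) := by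
      rw [Matrix.fromBlocks_one]
      refine Eqv.of_submatrix IsPr.one finSumFinEquiv.symm ?_
      rw [Matrix.submatrix_one_equiv]
    have h2 : lamP (1 : Matrix (Fin 1) (Fin 1) C(X, ℂ)) = 1 + Polynomial.X := by
      rw [lamP_line IsPr.one (by intro x; rw [evM_one]; simp), ← one_eq_kcl]
      simp
    rw [← lamP_eqv h1, lamP_fromBlocks IsPr.one IsPr.one, ih, h2, pow_succ]

theorem lamP_of_kcl_eq {p : Matrix ι ι C(X, ℂ)} {q : Matrix κ κ C(X, ℂ)} (hp : IsPr p)
    (hq : IsPr q) (h : kcl p = kcl q) : lamP p = lamP q := by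
  obtain ⟨n, hn⟩ := (kcl_eq_iff hp hq).1 h
  have h1 := lamP_eqv hn
  rw [lamP_fromBlocks hp IsPr.one, lamP_fromBlocks hq IsPr.one, lamP_one] at h1
  have hm : ((1 + Polynomial.X : (K0 C(X, ℂ))[X]) ^ n).Monic := by
    have : (1 + Polynomial.X : (K0 C(X, ℂ))[X]).Monic := by
      rw [add_comm]
      exact Polynomial.monic_X_add_C (1 : K0 C(X, ℂ))
    exact this.pow n
  exact hm.isRegular.right h1

theorem lamP_map {p : Matrix ι ι C(X, ℂ)} (hp : IsPr p) (f : C(Y, X)) :
    lamP (p.map (pbA f)) = (lamP p).map (pb f) := by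
  ext n
  rw [lamP_coeff (hp.map _), Polynomial.coeff_map, lamP_coeff hp, pb_kcl _ (Lam_isPr n hp),
    Lam_map]

end Pool.Agent.Helper75.KT
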