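import Mathlib

set_option autoImplicit false

namespace Pool.Agent.Helper97

open Finset

/-- Central binomial upper bound. -/
lemma centralBinom_sq_le (n : ℕ) : (n.centralBinom) ^ 2 * (2 * n + 1) ≤ 16 ^ n := by
  induction n with
  | zero => simp
  | succ n ih =>
    have h := Nat.succ_mul_centralBinom_succ n
    have h1 : (n + 1) ^ 2 * ((n + 1).centralBinom ^ 2 * (2 * (n + 1) + 1))
        = 4 * (2 * n + 1) * (2 * n + 3) * (n.centralBinom ^ 2 * (2 * n + 1)) := by
      have : (n + 1) ^ 2 * ((n + 1).centralBinom ^ 2 * (2 * (n + 1) + 1))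
        = ((n + 1) * (n + 1).centralBinom) ^ 2 * (2 * (n + 1) + 1) := by ring
      rw [this, h]; ring
    have h2 : 4 * (2 * n + 1) * (2 * n + 3) ≤ 16 * (n + 1) ^ 2 := by nlinarith
    have h3 : (n + 1) ^ 2 * ((n + 1).centralBinom ^ 2 * (2 * (n + 1) + 1))
        ≤ (n + 1) ^ 2 * 16 ^ (n + 1) := by
      rw [h1]
      calc 4 * (2 * n + 1) * (2 * n + 3) * (n.centralBinom ^ 2 * (2 * n + 1))
          ≤ (16 * (n + 1) ^ 2) * 16 ^ n := Nat.mul_le_mul h2 ih
        _ = (n + 1) ^ 2 * 16 ^ (n + 1) := by ring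
    exact Nat.le_of_mul_le_mul_left h3 (by positivity)

lemma choose_sq_le (m k : ℕ) : (m.choose k) ^ 2 * (m + 1) ≤ 4 ^ m := by
  rcases Nat.even_or_odd' m with ⟨n, rfl | rfl⟩
  · have h := Nat.choose_le_centralBinom k n
    have h2 := centralBinom_sq_le n
    calc ((2 * n).choose k) ^ 2 * (2 * n + 1) ≤ n.centralBinom ^ 2 * (2 * n + 1) := by gcongr
      _ ≤ 16 ^ n := h2
      _ = 4 ^ (2 * n) := by rw [pow_mul]; norm_num
  · have h : (2 * n + 1).choose k ≤ (2 * n + 1).choose n := by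
      have := Nat.choose_le_middle k (2 * n + 1)
      have e : (2 * n + 1) / 2 = n := by omega
      rwa [e] at this
    have h2 : 2 * (2 * n + 1).choose n = (n + 1).centralBinom := by
      rw [Nat.centralBinom_eq_two_mul_choose]
      have : 2 * (n + 1) = (2 * n + 1) + 1 := by ring
      rw [this, Nat.choose_succ_succ', Nat.choose_symm_half]
      ring
    have h3 := centralBinom_sq_le (n + 1)
    have h4 : 4 * (((2 * n + 1).choose k) ^ 2 * (2 * n + 1 + 1)) ≤ 4 * 4 ^ (2 * n + 1) := by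
      calc 4 * (((2 * n + 1).choose k) ^ 2 * (2 * n + 1 + 1))
          ≤ 4 * (((2 * n + 1).choose n) ^ 2 * (2 * n + 1 + 1)) := by gcongr
        _ = (2 * (2 * n + 1).choose n) ^ 2 * (2 * n + 1 + 1) := by ring
        _ ≤ (n + 1).centralBinom ^ 2 * (2 * (n + 1) + 1) := by rw [h2]; gcongr; omega
        _ ≤ 16 ^ (n + 1) := h3
        _ = 4 * 4 ^ (2 * n + 1) := by
          have : (16 : ℕ) = 4 ^ 2 := by norm_num
          rw [this, ← pow_mul]; ring
    omega

/-- `choose` with an integer lower index. -/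
noncomputable def bc (m : ℕ) (k : ℤ) : ℝ := if 0 ≤ k then (m.choose k.toNat : ℝ) else 0

lemma bc_natCast (m k : ℕ) : bc m (k : ℤ) = (m.choose k : ℝ) := by
  simp [bc]

lemma bc_nonneg (m : ℕ) (k : ℤ) : 0 ≤ bc m k := by
  unfold bc; split_ifs <;> positivity

lemma bc_le_two_pow (m : ℕ) (k : ℤ) : bc m k ≤ 2 ^ m := by
  unfold bc; split_ifs
  · exact_mod_cast Nat.choose_le_two_pow m k.toNat
  · positivity

lemma bc_sq_le (m : ℕ) (k : ℤ) : (bc m k) ^ 2 * (m + 1) ≤ 4 ^ m := by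
  unfold bc; split_ifs
  · exact_mod_cast choose_sq_le m k.toNat
  · simp

/-- if `c² ≤ m + 1` then `c * bc m k ≤ 2 ^ m`. -/
lemma mul_bc_le (m : ℕ) (k : ℤ) (c : ℝ) (hc : c ^ 2 ≤ m + 1) : c * bc m k ≤ 2 ^ m := by
  have h1 := bc_sq_le m k
  have h2 : (c * bc m k) ^ 2 ≤ (2 ^ m) ^ 2 := by
    calc (c * bc m k) ^ 2 = (bc m k) ^ 2 * c ^ 2 := by ring
      _ ≤ (bc m k) ^ 2 * (m + 1) := by gcongr
      _ ≤ 4 ^ m := h1
      _ = (2 ^ m) ^ 2 := by rw [← pow_mul, mul_comm m 2, pow_mul]; norm_num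
  exact (le_abs_self _).trans (abs_le_of_sq_le_sq h2 (by positivity))

/-- Second moment of the fair binomial. -/
lemma sum_choose_sq (m : ℕ) :
    ∑ k ∈ range (m + 1), (m.choose k : ℝ) * ((k : ℝ) - (m : ℝ) / 2) ^ 2 = (2 : ℝ) ^ m * ((m : ℝ) / 4) := by
  have h := congrArg (Polynomial.eval (1 / 2 : ℝ)) (bernsteinPolynomial.variance ℝ m)
  simp only [bernsteinPolynomial, Polynomial.eval_finsetSum, Polynomial.eval_mul,
    Polynomial.eval_pow, Polynomial.eval_sub, Polynomial.eval_X,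
    Polynomial.eval_natCast, Polynomial.eval_one, nsmul_eq_mul] at h
  have h2 : ∀ k ∈ range (m + 1), (m.choose k : ℝ) * ((k : ℝ) - m / 2) ^ 2
      = 2 ^ m * (((m : ℝ) * (1 / 2) - k) ^ 2 *
        ((m.choose k : ℝ) * (1 / 2) ^ k * (1 - 1 / 2) ^ (m - k))) := by
    intro k hk
    have hk' : k ≤ m := by simpa [Nat.lt_succ_iff] using hk
    have e : (1 / 2 : ℝ) ^ k * (1 - 1 / 2) ^ (m - k) = (2 ^ m)⁻¹ := by
      have : (1 - 1 / 2 : ℝ) = 1 / 2 := by norm_num
      rw [this, ← pow_add, Nat.add_sub_cancel' hk']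
      simp
    rw [mul_assoc (m.choose k : ℝ), e]
    have : (2 : ℝ) ^ m ≠ 0 := by positivity
    field_simp
    ring
  rw [sum_congr rfl h2, ← mul_sum]
  congr 1
  convert h using 1
  ring

/-- Second moment of the binomial with parameter 1/9. -/
lemma sum_choose_ninth (m : ℕ) :
    ∑ k ∈ range (m + 1), (m.choose k : ℝ) * 8 ^ (m - k) * ((k : ℝ) - (m : ℝ) / 9) ^ 2
      = (9 : ℝ) ^ m * (8 * (m : ℝ) / 81) := by
  have h := congrArg (Polynomial.eval (1 / 9 : ℝ)) (bernsteinPolynomial.variance ℝ m)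
  simp only [bernsteinPolynomial, Polynomial.eval_finsetSum, Polynomial.eval_mul,
    Polynomial.eval_pow, Polynomial.eval_sub, Polynomial.eval_X,
    Polynomial.eval_natCast, Polynomial.eval_one, nsmul_eq_mul] at h
  have h2 : ∀ k ∈ range (m + 1), (m.choose k : ℝ) * 8 ^ (m - k) * ((k : ℝ) - m / 9) ^ 2
      = 9 ^ m * (((m : ℝ) * (1 / 9) - k) ^ 2 *
        ((m.choose k : ℝ) * (1 / 9) ^ k * (1 - 1 / 9) ^ (m - k))) := by
    intro k hk
    have hk' : k ≤ m := by simpa [Nat.lt_succ_iff] using hk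
    have e : (1 / 9 : ℝ) ^ k * (1 - 1 / 9) ^ (m - k) = (9 ^ m)⁻¹ * 8 ^ (m - k) := by
      have : (1 - 1 / 9 : ℝ) = 8 * (1 / 9) := by norm_num
      rw [this, mul_pow, mul_left_comm, ← pow_add, Nat.add_sub_cancel' hk']
      simp [mul_comm]
    rw [mul_assoc (m.choose k : ℝ) ((1 / 9) ^ k), e]
    have : (9 : ℝ) ^ m ≠ 0 := by positivity
    field_simp
    ring
  rw [sum_congr rfl h2, ← mul_sum]
  congr 1
  rw [h]
  ring

lemma sum_choose_eight (m : ℕ) :
    ∑ k ∈ range (m + 1), (m.choose k : ℝ) * 8 ^ (m - k) = 9 ^ m := by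
  have := add_pow (1 : ℝ) 8 m
  norm_num at this
  rw [this]
  exact sum_congr rfl fun k _ => by ring

lemma sum_choose_real (m : ℕ) : ∑ k ∈ range (m + 1), (m.choose k : ℝ) = 2 ^ m := by
  exact_mod_cast Nat.sum_range_choose m

lemma choose_anti (m i k : ℕ) (h1 : m ≤ 2 * i) (h2 : i ≤ k) : m.choose k ≤ m.choose i := by
  induction k, h2 using Nat.le_induction with
  | base => exact le_rfl
  | succ k hk ih =>
    refine le_trans ?_ ih
    have h := Nat.choose_succ_right_eq m k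
    have h3 : m - k ≤ k + 1 := by omega
    have : m.choose (k + 1) * (k + 1) ≤ m.choose k * (k + 1) := by
      rw [h]; exact Nat.mul_le_mul_left _ h3
    exact Nat.le_of_mul_le_mul_right this (by omega)

/-- Far tail, upper side, natural version. -/
lemma choose_far (m k : ℕ) (D : ℝ) (hD : 0 ≤ D) (h : m / 2 + D ≤ (k : ℝ)) :
    (m.choose k : ℝ) * D ^ 3 ≤ 2 * m * 2 ^ m := by
  -- sum over i in [k - t, k], t = floor (D/2)
  by_cases hkm : m < k
  · rw [Nat.choose_eq_zero_of_lt hkm]; simp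
  push Not at hkm
  set t := ⌊D / 2⌋₊ with ht
  have ht1 : (t : ℝ) ≤ D / 2 := Nat.floor_le (by positivity)
  have ht2 : D / 2 < t + 1 := Nat.lt_floor_add_one _
  have hm0 : (0 : ℝ) ≤ m := Nat.cast_nonneg m
  have htk : t ≤ k := by
    have : (t : ℝ) ≤ k := by linarith
    exact_mod_cast this
  have hsub : Icc (k - t) k ⊆ range (m + 1) := by
    intro i hi
    simp only [mem_Icc] at hi
    simp only [mem_range]; omega
  have key : ∑ i ∈ Icc (k - t) k, (m.choose k : ℝ) * (D / 2) ^ 2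
      ≤ ∑ i ∈ range (m + 1), (m.choose i : ℝ) * ((i : ℝ) - m / 2) ^ 2 := by
    calc ∑ i ∈ Icc (k - t) k, (m.choose k : ℝ) * (D / 2) ^ 2
        ≤ ∑ i ∈ Icc (k - t) k, (m.choose i : ℝ) * ((i : ℝ) - m / 2) ^ 2 := by
          apply sum_le_sum
          intro i hi
          simp only [mem_Icc] at hi
          have hi1 : (k : ℝ) - t ≤ i := by
            have : ((k - t : ℕ) : ℝ) ≤ i := by exact_mod_cast hi.1
            rwa [Nat.cast_sub htk] at this
          have hi2 : D / 2 ≤ (i : ℝ) - m / 2 := by linarith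
          have hi3 : m ≤ 2 * i := by
            have : (m : ℝ) ≤ 2 * i := by linarith
            exact_mod_cast this
          have := choose_anti m i k hi3 hi.2
          have h4 : (m.choose k : ℝ) ≤ m.choose i := by exact_mod_cast this
          gcongr
      _ ≤ _ := by
          apply sum_le_sum_of_subset_of_nonneg hsub
          intros; positivity
  rw [sum_const, sum_choose_sq, Nat.card_Icc, nsmul_eq_mul] at key
  have hcard : ((k + 1 - (k - t) : ℕ) : ℝ) = t + 1 := by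
    have : k + 1 - (k - t) = t + 1 := by omega
    rw [this]; push_cast; ring
  rw [hcard] at key
  have h5 : (D / 2) * ((m.choose k : ℝ) * (D / 2) ^ 2) ≤ (t + 1) * ((m.choose k : ℝ) * (D / 2) ^ 2) := by
    gcongr
  nlinarith [h5, key]

/-- Far tail, two-sided integer version. -/
lemma bc_far (m : ℕ) (k : ℤ) (D : ℝ) (hD : 0 ≤ D) (h : D ≤ |(k : ℝ) - m / 2|) :
    bc m k * D ^ 3 ≤ 2 * m * 2 ^ m := by
  have hpos : (0 : ℝ) ≤ 2 * m * 2 ^ m := by positivity
  unfold bc
  split_ifs with hk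
  · obtain ⟨k, rfl⟩ := Int.eq_ofNat_of_zero_le hk
    simp only [Int.toNat_natCast, Int.cast_natCast] at h ⊢
    rcases le_or_gt (m : ℝ) (2 * (k : ℝ)) with h1 | h1
    · rw [abs_of_nonneg (by linarith)] at h
      exact choose_far m k D hD (by linarith)
    · rw [abs_of_neg (by linarith)] at h
      have hkm : k ≤ m := by
        have : (k : ℝ) ≤ m := by
          have : (0 : ℝ) ≤ k := Nat.cast_nonneg k
          linarith
        exact_mod_cast this
      rw [← Nat.choose_symm hkm]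
      refine choose_far m (m - k) D hD ?_
      rw [Nat.cast_sub hkm]
      linarith
  · simp

end Pool.Agent.Helper97
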