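import Pool.Agent.Helper97.Numeric

set_option autoImplicit false

namespace Pool.Agent.Helper97

open Finset

lemma PP_pos (s j : ℕ) (hj : j ≤ 9 * s ^ 2) : 0 < PP s j := by
  unfold PP
  have := Nat.choose_pos hj
  positivity

/-- a finite set of naturals contained in an interval of length `2 L` has at most `2 L + 1` elements. -/
lemma card_le_of_interval (R : Finset ℕ) (x L : ℝ) (hL : 0 ≤ L)
    (hR : ∀ r ∈ R, |(r : ℝ) - x| < L) : (R.card : ℝ) ≤ 2 * L + 1 := by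
  rcases R.eq_empty_or_nonempty with rfl | hne
  · simp; positivity
  · have hsub : R ⊆ Icc (R.min' hne) (R.max' hne) := by
      intro r hr
      exact mem_Icc.2 ⟨R.min'_le r hr, R.le_max' r hr⟩
    have h1 := card_le_card hsub
    rw [Nat.card_Icc] at h1
    have h2 := hR _ (R.min'_mem hne)
    have h3 := hR _ (R.max'_mem hne)
    have h4 : R.min' hne ≤ R.max' hne := R.min'_le _ (R.max'_mem hne)
    have h5 : (R.card : ℝ) ≤ (R.max' hne : ℝ) + 1 - (R.min' hne : ℝ) := by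
      have : R.card + R.min' hne ≤ R.max' hne + 1 := by omega
      have : (R.card : ℝ) + (R.min' hne : ℝ) ≤ (R.max' hne : ℝ) + 1 := by exact_mod_cast this
      linarith
    rw [abs_lt] at h2 h3
    linarith [h2.1, h3.2]

lemma sum_bc_ge (m a : ℕ) (R : Finset ℕ) (x L : ℝ) (hL : 0 < L)
    (hR : ∀ r : ℕ, |(r : ℝ) - x| < L → r ∈ R) :
    (2 : ℝ) ^ m - (∑ k ∈ range (m + 1), (m.choose k : ℝ) * (((a + k : ℕ) : ℝ) - x) ^ 2) / L ^ 2
      ≤ ∑ r ∈ R, bc m ((r : ℤ) - a) := by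
  classical
  set K := (range (m + 1)).filter (fun k => |(((a + k : ℕ) : ℝ)) - x| < L) with hK
  have h1 : ∑ k ∈ K, (m.choose k : ℝ) ≤ ∑ r ∈ R, bc m ((r : ℤ) - a) := by
    have e : ∑ k ∈ K, (m.choose k : ℝ) = ∑ r ∈ K.image (fun k => a + k), bc m ((r : ℤ) - a) := by
      rw [sum_image (by intro x _ y _ h; simpa using h)]
      apply sum_congr rfl
      intro k _
      have : (((a + k : ℕ) : ℤ) - a) = (k : ℤ) := by push_cast; ring
      rw [this, bc_natCast]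
    rw [e]
    apply sum_le_sum_of_subset_of_nonneg
    · intro r hr
      obtain ⟨k, hk, rfl⟩ := mem_image.1 hr
      exact hR _ (mem_filter.1 hk).2
    · intro r _ _; exact bc_nonneg _ _
  have h2 : ∑ k ∈ (range (m + 1)).filter (fun k => ¬ |(((a + k : ℕ) : ℝ)) - x| < L), (m.choose k : ℝ)
      ≤ (∑ k ∈ range (m + 1), (m.choose k : ℝ) * (((a + k : ℕ) : ℝ) - x) ^ 2) / L ^ 2 := by
    rw [le_div_iff₀ (by positivity), sum_mul]
    calc _ ≤ ∑ k ∈ (range (m + 1)).filter (fun k => ¬ |(((a + k : ℕ) : ℝ)) - x| < L),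
          (m.choose k : ℝ) * (((a + k : ℕ) : ℝ) - x) ^ 2 := by
          apply sum_le_sum
          intro k hk
          have h3 := (mem_filter.1 hk).2
          push Not at h3
          have h4 : L ^ 2 ≤ |(((a + k : ℕ) : ℝ)) - x| ^ 2 := by gcongr
          rw [sq_abs] at h4
          exact mul_le_mul_of_nonneg_left h4 (by positivity)
      _ ≤ _ := by
          apply sum_le_sum_of_subset_of_nonneg (filter_subset _ _)
          intros; positivity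
  have h3 := sum_filter_add_sum_filter_not (range (m + 1))
    (fun k => |(((a + k : ℕ) : ℝ)) - x| < L) (fun k => (m.choose k : ℝ))
  rw [sum_choose_real] at h3
  rw [← hK] at h3
  linarith

lemma block_lower {ι : Type} (s : ℕ) (hs : 0 < s) (W : Finset ι) (hW : W.Nonempty) (h : ι → ℕ)
    (ρ V : ℝ) (hV0 : 0 ≤ V)
    (hV : ∑ A ∈ W, ((h A : ℝ) - ρ) ^ 2 ≤ V * s ^ 2 * W.card)
    (B : Finset ℕ) (hB : B ⊆ range (9 * s ^ 2 + 1)) (hBne : B.Nonempty) (jc b : ℝ)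
    (hb : ∀ j ∈ B, |(j : ℝ) - jc| ≤ b * s) (v : ℝ) (hv : v = 3 * (V + 27 / 4 + b ^ 2 / 4) + 1) :
    ∃ r : ℕ, |(r : ℝ) - (ρ + jc + 3 * (9 * (s : ℝ) ^ 2 - jc) / 2)| < v * s ∧
      W.card * ∑ j ∈ B, PP s j ≤ 2 * (2 * v + 1) * s * ∑ j ∈ B, nn s W h j r := by
  classical
  set x := ρ + jc + 3 * (9 * (s : ℝ) ^ 2 - jc) / 2 with hx
  have hs0 : (0 : ℝ) < s := by exact_mod_cast hs
  have hs1 : (1 : ℝ) ≤ s := by exact_mod_cast hs
  have hb2 : 0 ≤ b ^ 2 := sq_nonneg b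
  have hv1 : 1 ≤ v := by rw [hv]; linarith
  have hvs : 0 < v * s := by positivity
  set R := (range (⌈x + v * s⌉₊ + 1)).filter (fun r : ℕ => |(r : ℝ) - x| < v * s) with hR
  have hRmem : ∀ r : ℕ, |(r : ℝ) - x| < v * s → r ∈ R := by
    intro r hr
    rw [hR, mem_filter, mem_range]
    refine ⟨?_, hr⟩
    have h1 : (r : ℝ) < x + v * s := by
      have := (abs_lt.1 hr).2; linarith
    have h2 : (r : ℝ) < ⌈x + v * s⌉₊ := lt_of_lt_of_le h1 (Nat.le_ceil _)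
    have : r < ⌈x + v * s⌉₊ := by exact_mod_cast h2
    omega
  have hcard : (R.card : ℝ) ≤ 2 * (v * s) + 1 :=
    card_le_of_interval R x (v * s) hvs.le fun r hr => (mem_filter.1 hr).2
  -- mass in R for each j
  have hj : ∀ j ∈ B, (W.card : ℝ) * PP s j / 2 ≤ ∑ r ∈ R, nn s W h j r := by
    intro j hjB
    have hj9 : j ≤ 9 * s ^ 2 := by
      have := mem_range.1 (hB hjB); omega
    set m := 3 * (9 * s ^ 2 - j) with hm
    have hmr : (m : ℝ) = 3 * (9 * (s : ℝ) ^ 2 - j) := by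
      rw [hm]; push_cast [Nat.cast_sub hj9]; ring
    have hm27 : (m : ℝ) ≤ 27 * (s : ℝ) ^ 2 := by
      rw [hmr]
      have : (0 : ℝ) ≤ j := Nat.cast_nonneg j
      linarith
    have hbj : ((j : ℝ) - jc) ^ 2 ≤ b ^ 2 * (s : ℝ) ^ 2 := by
      have h1 := hb j hjB
      have : |(j : ℝ) - jc| ^ 2 ≤ (b * s) ^ 2 := by gcongr
      rw [sq_abs] at this
      linarith [mul_pow b (s : ℝ) 2]
    have hA : ∀ A ∈ W, (2 : ℝ) ^ m - 2 ^ m * (3 * (((h A : ℝ) - ρ) ^ 2 + 27 / 4 * (s : ℝ) ^ 2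
        + b ^ 2 / 4 * (s : ℝ) ^ 2)) / (v * s) ^ 2
        ≤ ∑ r ∈ R, bc m ((r : ℤ) - j - h A) := by
      intro A _
      have h1 := sum_bc_ge m (j + h A) R x (v * s) hvs hRmem
      have e : ∑ r ∈ R, bc m ((r : ℤ) - j - h A) = ∑ r ∈ R, bc m ((r : ℤ) - (j + h A : ℕ)) := by
        apply sum_congr rfl
        intro r _
        congr 1
        push_cast; ring
      rw [e]
      refine le_trans ?_ h1
      have h2 : ∑ k ∈ range (m + 1), (m.choose k : ℝ) * (((j + h A + k : ℕ) : ℝ) - x) ^ 2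
          ≤ 2 ^ m * (3 * (((h A : ℝ) - ρ) ^ 2 + 27 / 4 * (s : ℝ) ^ 2 + b ^ 2 / 4 * (s : ℝ) ^ 2)) := by
        have h3 : ∀ k ∈ range (m + 1), (m.choose k : ℝ) * (((j + h A + k : ℕ) : ℝ) - x) ^ 2
            ≤ 3 * (((h A : ℝ) - ρ) ^ 2 + b ^ 2 / 4 * (s : ℝ) ^ 2) * (m.choose k : ℝ)
              + 3 * ((m.choose k : ℝ) * ((k : ℝ) - (m : ℝ) / 2) ^ 2) := by
          intro k _
          have e2 : (((j + h A + k : ℕ) : ℝ) - x)
              = ((h A : ℝ) - ρ) + ((k : ℝ) - (m : ℝ) / 2) - ((j : ℝ) - jc) / 2 := by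
            rw [hx, hmr]; push_cast; ring
          rw [e2]
          have h4 : (((h A : ℝ) - ρ) + ((k : ℝ) - (m : ℝ) / 2) - ((j : ℝ) - jc) / 2) ^ 2
              ≤ 3 * (((h A : ℝ) - ρ) ^ 2 + ((k : ℝ) - (m : ℝ) / 2) ^ 2 + ((j : ℝ) - jc) ^ 2 / 4) := by
            nlinarith [sq_nonneg (((h A : ℝ) - ρ) - ((k : ℝ) - (m : ℝ) / 2)),
              sq_nonneg (((h A : ℝ) - ρ) + ((j : ℝ) - jc) / 2),
              sq_nonneg (((k : ℝ) - (m : ℝ) / 2) + ((j : ℝ) - jc) / 2)]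
          have h5 : (0 : ℝ) ≤ (m.choose k : ℝ) := by positivity
          have h6 : (((h A : ℝ) - ρ) + ((k : ℝ) - (m : ℝ) / 2) - ((j : ℝ) - jc) / 2) ^ 2
              ≤ 3 * (((h A : ℝ) - ρ) ^ 2 + b ^ 2 / 4 * (s : ℝ) ^ 2)
                + 3 * ((k : ℝ) - (m : ℝ) / 2) ^ 2 := by linarith
          calc _ ≤ (m.choose k : ℝ) * (3 * (((h A : ℝ) - ρ) ^ 2 + b ^ 2 / 4 * (s : ℝ) ^ 2)
                + 3 * ((k : ℝ) - (m : ℝ) / 2) ^ 2) := mul_le_mul_of_nonneg_left h6 h5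
            _ = _ := by ring
        have h7 := sum_le_sum h3
        rw [sum_add_distrib, ← mul_sum, ← mul_sum, sum_choose_real, sum_choose_sq] at h7
        have h8 : (2 : ℝ) ^ m * ((m : ℝ) / 4) ≤ 2 ^ m * (27 / 4 * (s : ℝ) ^ 2) := by
          apply mul_le_mul_of_nonneg_left _ (by positivity)
          linarith
        nlinarith [h7, h8]
      have h9 : (∑ k ∈ range (m + 1), (m.choose k : ℝ) * (((j + h A + k : ℕ) : ℝ) - x) ^ 2) / (v * s) ^ 2
          ≤ 2 ^ m * (3 * (((h A : ℝ) - ρ) ^ 2 + 27 / 4 * (s : ℝ) ^ 2 + b ^ 2 / 4 * (s : ℝ) ^ 2))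
            / (v * s) ^ 2 := by
        gcongr
      linarith
    have h1 := sum_le_sum hA
    rw [sum_sub_distrib, sum_const, nsmul_eq_mul, ← sum_div, ← mul_sum, ← mul_sum,
      sum_add_distrib, sum_add_distrib, sum_const, sum_const, nsmul_eq_mul, nsmul_eq_mul] at h1
    have h2 : (2 : ℝ) ^ m * (3 * (∑ A ∈ W, ((h A : ℝ) - ρ) ^ 2 + (W.card : ℝ) * (27 / 4 * (s : ℝ) ^ 2)
        + (W.card : ℝ) * (b ^ 2 / 4 * (s : ℝ) ^ 2))) / (v * s) ^ 2 ≤ (W.card : ℝ) * 2 ^ m / 2 := by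
      rw [div_le_iff₀ (by positivity)]
      have h3 : 3 * (∑ A ∈ W, ((h A : ℝ) - ρ) ^ 2 + (W.card : ℝ) * (27 / 4 * (s : ℝ) ^ 2)
        + (W.card : ℝ) * (b ^ 2 / 4 * (s : ℝ) ^ 2)) ≤ (v - 1) * s ^ 2 * W.card := by
        rw [hv]; linarith
      have h4 : (v - 1) * (s : ℝ) ^ 2 * W.card ≤ v ^ 2 / 2 * s ^ 2 * W.card := by
        have : v - 1 ≤ v ^ 2 / 2 := by nlinarith [sq_nonneg (v - 1)]
        gcongr
      calc _ ≤ (2 : ℝ) ^ m * (v ^ 2 / 2 * s ^ 2 * W.card) :=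
            mul_le_mul_of_nonneg_left (h3.trans h4) (by positivity)
        _ = _ := by ring
    have h5 : (W.card : ℝ) * 2 ^ m / 2 ≤ ∑ A ∈ W, ∑ r ∈ R, bc m ((r : ℤ) - j - h A) := by
      linarith
    rw [sum_comm] at h5
    have h6 : ∑ r ∈ R, nn s W h j r = ((9 * s ^ 2).choose j : ℝ) *
        ∑ r ∈ R, ∑ A ∈ W, bc m ((r : ℤ) - j - h A) := by
      rw [mul_sum]; rfl
    have h10 : (0 : ℝ) ≤ ((9 * s ^ 2).choose j : ℝ) := by positivity
    have h11 := mul_le_mul_of_nonneg_left h5 h10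
    have h12 : (W.card : ℝ) * PP s j / 2
        = ((9 * s ^ 2).choose j : ℝ) * ((W.card : ℝ) * 2 ^ m / 2) := by
      unfold PP
      rw [← two_pow_three, ← hm]
      ring
    rw [h6, h12]
    exact h11
  have htot : (W.card : ℝ) * (∑ j ∈ B, PP s j) / 2 ≤ ∑ r ∈ R, ∑ j ∈ B, nn s W h j r := by
    rw [sum_comm]
    calc (W.card : ℝ) * (∑ j ∈ B, PP s j) / 2 = ∑ j ∈ B, (W.card : ℝ) * PP s j / 2 := by
          rw [mul_sum, sum_div]
      _ ≤ _ := sum_le_sum hj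
  have hpos : 0 < (W.card : ℝ) * (∑ j ∈ B, PP s j) := by
    have h1 : (0 : ℝ) < W.card := by exact_mod_cast hW.card_pos
    have h2 : 0 < ∑ j ∈ B, PP s j := by
      apply sum_pos _ hBne
      intro j hj
      apply PP_pos
      have := mem_range.1 (hB hj); omega
    positivity
  by_contra hcon
  push Not at hcon
  have hlt : ∀ r ∈ R, 2 * (2 * v + 1) * s * ∑ j ∈ B, nn s W h j r
      ≤ (W.card : ℝ) * ∑ j ∈ B, PP s j := by
    intro r hr
    exact (hcon r (mem_filter.1 hr).2).le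
  have hRne : R.Nonempty := by
    rw [nonempty_iff_ne_empty]
    intro hempty
    rw [hempty, sum_empty] at htot
    linarith
  have hlt2 : ∑ r ∈ R, 2 * (2 * v + 1) * s * ∑ j ∈ B, nn s W h j r
      < ∑ r ∈ R, (W.card : ℝ) * ∑ j ∈ B, PP s j := by
    apply sum_lt_sum_of_nonempty hRne
    intro r hr
    exact hcon r (mem_filter.1 hr).2
  rw [← mul_sum, sum_const, nsmul_eq_mul] at hlt2
  have h7 : (R.card : ℝ) * ((W.card : ℝ) * ∑ j ∈ B, PP s j)
      ≤ (2 * (v * s) + 1) * ((W.card : ℝ) * ∑ j ∈ B, PP s j) := by gcongr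
  have h8 : 2 * (2 * v + 1) * s * ((W.card : ℝ) * (∑ j ∈ B, PP s j) / 2)
      ≤ 2 * (2 * v + 1) * s * ∑ r ∈ R, ∑ j ∈ B, nn s W h j r := by gcongr
  have h9 : (2 * (v * s) + 1) * ((W.card : ℝ) * ∑ j ∈ B, PP s j)
      ≤ 2 * (2 * v + 1) * s * ((W.card : ℝ) * (∑ j ∈ B, PP s j) / 2) := by
    have : 2 * (v * s) + 1 ≤ (2 * v + 1) * s := by nlinarith
    calc _ ≤ ((2 * v + 1) * s) * ((W.card : ℝ) * ∑ j ∈ B, PP s j) := by gcongr
      _ = _ := by ring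
  linarith

end Pool.Agent.Helper97
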