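import Pool.Agent.Helper97.Variance

set_option autoImplicit false

namespace Pool.Agent.Helper97

open Finset

open scoped Classical

lemma isIndep_iff {n : ℕ} {G : SimpleGraph (Fin n)} (A : Finset (Fin n)) :
    G.IsIndepSet (↑A : Set (Fin n)) ↔ A ∈ ind G := by
  rw [mem_ind, SimpleGraph.isIndepSet_iff]
  constructor
  · intro h x hx y hy hadj
    exact h (by exact_mod_cast hx) (by exact_mod_cast hy) hadj.ne hadj
  · intro h x hx y hy _
    exact h x (by exact_mod_cast hx) y (by exact_mod_cast hy)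

lemma layer_ncard {n : ℕ} {G : SimpleGraph (Fin n)} (r : ℕ) :
    {A : Finset (Fin n) | G.IsIndepSet (↑A : Set (Fin n)) ∧ A.card = r}.ncard
      = ((ind G).filter (fun X => X.card = r)).card := by
  rw [← Set.ncard_coe_finset]
  congr 1
  ext A
  simp [isIndep_iff]

theorem det (γ K : ℝ) (hγ : 0 < γ) (hK : 0 ≤ K) : ∃ ε : ℝ, 0 < ε ∧ ∃ n0 : ℕ, ∀ n : ℕ, n0 ≤ n →
    ∀ G : SimpleGraph (Fin n), γ * n ≤ (ctr G).card → ((conn G).card : ℝ) ≤ K * n →
    ∃ F : Finset (Finset (Fin n)), (∀ A ∈ F, G.IsIndepSet (↑A : Set (Fin n))) ∧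
      IsAntichain (fun A B : Finset (Fin n) => A ⊆ B) (↑F : Set (Finset (Fin n))) ∧
      (1 + ε) * ((((Finset.range (n + 1)).sup (fun r =>
        {A : Finset (Fin n) | G.IsIndepSet (↑A : Set (Fin n)) ∧ A.card = r}.ncard)) : ℕ) : ℝ)
        < F.card := by
  obtain ⟨ε, hε, s0, hs0⟩ := numeric_main (36 * K / γ) (by positivity)
  refine ⟨ε, hε, ⌈9 * ((s0 : ℝ) + 1) ^ 2 / γ⌉₊, ?_⟩
  intro n hn G hctr hconn
  have hn' : 9 * ((s0 : ℝ) + 1) ^ 2 / γ ≤ n := (Nat.le_ceil _).trans (by exact_mod_cast hn)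
  rw [div_le_iff₀ hγ] at hn'
  set s := ⌊Real.sqrt (γ * n / 9)⌋₊ with hs
  have hsq : Real.sqrt (γ * n / 9) ^ 2 = γ * n / 9 := Real.sq_sqrt (by positivity)
  have hs1 : (s0 : ℝ) + 1 ≤ Real.sqrt (γ * n / 9) := by
    apply Real.le_sqrt_of_sq_le
    linarith
  have hs2 : s0 + 1 ≤ s := by
    apply Nat.le_floor
    push_cast
    exact hs1
  have hs3 : (s : ℝ) ≤ Real.sqrt (γ * n / 9) := Nat.floor_le (Real.sqrt_nonneg _)
  have hs4 : Real.sqrt (γ * n / 9) < s + 1 := Nat.lt_floor_add_one _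
  have hs5 : (1 : ℝ) ≤ s := by
    have : 1 ≤ s := by omega
    exact_mod_cast this
  have h9 : 9 * (s : ℝ) ^ 2 ≤ γ * n := by
    have : (s : ℝ) ^ 2 ≤ Real.sqrt (γ * n / 9) ^ 2 := by gcongr
    linarith
  have h36 : γ * n ≤ 36 * (s : ℝ) ^ 2 := by
    have h1 : Real.sqrt (γ * n / 9) ≤ 2 * s := by linarith
    have : Real.sqrt (γ * n / 9) ^ 2 ≤ (2 * (s : ℝ)) ^ 2 := by gcongr
    linarith
  have hcard : 9 * s ^ 2 ≤ (ctr G).card := by
    have : (9 * (s : ℝ) ^ 2) ≤ (ctr G).card := h9.trans hctr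
    exact_mod_cast this
  obtain ⟨Z, hZ, hZc⟩ := exists_subset_card_eq hcard
  obtain ⟨ρ, hρ⟩ := exists_center (G := G) Z
  have hV : ∑ A ∈ indW G Z, ((A.card : ℝ) - ρ) ^ 2
      ≤ 36 * K / γ * (s : ℝ) ^ 2 * (indW G Z).card := by
    refine hρ.trans ?_
    apply mul_le_mul_of_nonneg_right _ (by positivity)
    refine hconn.trans ?_
    have : 36 * K / γ * (s : ℝ) ^ 2 = K / γ * (36 * (s : ℝ) ^ 2) := by ring
    rw [this]
    calc K * n = K / γ * (γ * n) := by field_simp
      _ ≤ _ := by gcongr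
  -- argmax
  obtain ⟨rs, hrs, hmax⟩ := exists_max_image (range (n + 1))
    (fun r => ((ind G).filter (fun X => X.card = r)).card) ⟨0, by simp⟩
  have hmax' : ∀ r, ((ind G).filter (fun X => X.card = r)).card
      ≤ ((ind G).filter (fun X => X.card = rs)).card := by
    intro r
    by_cases hr : r < n + 1
    · exact hmax r (mem_range.2 hr)
    · have : (ind G).filter (fun X => X.card = r) = ∅ := by
        apply filter_eq_empty_iff.2
        intro X _ hX
        have := card_le_univ X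
        simp at this
        omega
      rw [this]; simp
  have hN : ∀ r, NN s (indW G Z) Finset.card r ≤ NN s (indW G Z) Finset.card rs := by
    intro r
    rw [← card_layer hZ s hZc, ← card_layer hZ s hZc]
    exact_mod_cast hmax' r
  obtain ⟨j0, j1, r2, h01, h1, hr2, hlt⟩ := hs0 s (by omega) (Finset (Fin n)) (indW G Z)
    Finset.card ρ ⟨∅, empty_mem_indW⟩ hV rs hN
  rw [← card_family hZ s hZc j0 j1 rs r2 h01 h1, ← card_layer hZ s hZc] at hlt
  refine ⟨_, ?_, ?_, lt_of_le_of_lt ?_ hlt⟩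
  · intro A hA
    rw [isIndep_iff]
    exact (mem_filter.1 hA).1
  · intro A hA B hB hne hsub
    have hA' := (mem_filter.1 (mem_coe.1 hA)).2
    have hB' := (mem_filter.1 (mem_coe.1 hB)).2
    have hsub' : A ⊆ B := hsub
    have hlt : A.card < B.card := card_lt_card (hsub'.ssubset_of_ne hne)
    have hle : (A ∩ Z).card ≤ (B ∩ Z).card := card_le_card (inter_subset_inter_right hsub')
    omega
  · apply mul_le_mul_of_nonneg_left _ (by positivity)
    have : (Finset.range (n + 1)).sup (fun r =>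
        {A : Finset (Fin n) | G.IsIndepSet (↑A : Set (Fin n)) ∧ A.card = r}.ncard)
        ≤ ((ind G).filter (fun X => X.card = rs)).card := by
      apply Finset.sup_le
      intro r _
      rw [layer_ncard]
      exact hmax' r
    exact_mod_cast this

end Pool.Agent.Helper97
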