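import Pool.Agent.Helper97.Main

set_option autoImplicit false

namespace Pool.Agent.Helper97

open Finset

open scoped Classical

variable {n : ℕ} (G : SimpleGraph (Fin n))

/-- neighbours as a finset. -/
noncomputable def nb (z : Fin n) : Finset (Fin n) := univ.filter (fun a => G.Adj z a)

/-- centres of claw components: vertices of degree three all of whose neighbours have degree one. -/
noncomputable def ctr : Finset (Fin n) :=
  univ.filter (fun z => (nb G z).card = 3 ∧ ∀ a ∈ nb G z, ∀ b ∈ nb G a, b = z)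

/-- leaves attached to a set of vertices. -/
noncomputable def lv (Z : Finset (Fin n)) : Finset (Fin n) := Z.biUnion (nb G)

/-- independent sets. -/
noncomputable def ind : Finset (Finset (Fin n)) :=
  univ.filter (fun X => ∀ x ∈ X, ∀ y ∈ X, ¬ G.Adj x y)

/-- independent sets inside the complement of the claws. -/
noncomputable def indW (Z : Finset (Fin n)) : Finset (Finset (Fin n)) :=
  (ind G).filter (fun A => Disjoint A (Z ∪ lv G Z))

variable {G}

lemma mem_nb {z a : Fin n} : a ∈ nb G z ↔ G.Adj z a := by simp [nb]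

lemma mem_ctr {z : Fin n} : z ∈ ctr G ↔ (nb G z).card = 3 ∧ ∀ a ∈ nb G z, ∀ b ∈ nb G a, b = z := by
  simp [ctr]

lemma mem_ind {X : Finset (Fin n)} : X ∈ ind G ↔ ∀ x ∈ X, ∀ y ∈ X, ¬ G.Adj x y := by
  simp [ind]

lemma mem_indW {Z A : Finset (Fin n)} :
    A ∈ indW G Z ↔ (∀ x ∈ A, ∀ y ∈ A, ¬ G.Adj x y) ∧ Disjoint A (Z ∪ lv G Z) := by
  simp [indW, mem_ind]

lemma nb_disjoint {z z' : Fin n} (hz : z ∈ ctr G) (hz' : z' ∈ ctr G) (hne : z ≠ z') :
    Disjoint (nb G z) (nb G z') := by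
  rw [Finset.disjoint_left]
  intro a ha ha'
  have h1 := (mem_ctr.1 hz).2 a ha z' (mem_nb.2 (mem_nb.1 ha').symm)
  exact hne h1.symm

lemma nb_not_ctr {z a : Fin n} (hz : z ∈ ctr G) (ha : a ∈ nb G z) : a ∉ ctr G := by
  intro h
  have h1 := (mem_ctr.1 h).1
  have h2 : nb G a ⊆ {z} := by
    intro b hb
    rw [mem_singleton]
    exact (mem_ctr.1 hz).2 a ha b hb
  have := card_le_card h2
  rw [h1, card_singleton] at this
  omega

lemma card_lv {Z : Finset (Fin n)} (hZ : Z ⊆ ctr G) : (lv G Z).card = 3 * Z.card := by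
  unfold lv
  rw [card_biUnion]
  · rw [sum_congr rfl (fun z hz => (mem_ctr.1 (hZ hz)).1), sum_const, smul_eq_mul, mul_comm]
  · intro x hx y hy hxy
    exact nb_disjoint (hZ hx) (hZ hy) hxy

lemma lv_disjoint {Z : Finset (Fin n)} (hZ : Z ⊆ ctr G) : Disjoint Z (lv G Z) := by
  rw [Finset.disjoint_left]
  intro a ha ha'
  unfold lv at ha'
  obtain ⟨z, hz, hza⟩ := mem_biUnion.1 ha'
  exact nb_not_ctr (hZ hz) hza (hZ ha)

lemma lv_sdiff {Z Z' : Finset (Fin n)} (hZ : Z ⊆ ctr G) (hZ' : Z' ⊆ Z) :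
    lv G Z \ lv G Z' = lv G (Z \ Z') := by
  ext a
  unfold lv
  simp only [mem_sdiff, mem_biUnion]
  constructor
  · rintro ⟨⟨z, hz, hza⟩, h⟩
    refine ⟨z, ⟨hz, ?_⟩, hza⟩
    intro hz'
    exact h ⟨z, hz', hza⟩
  · rintro ⟨z, ⟨hz, hz'⟩, hza⟩
    refine ⟨⟨z, hz, hza⟩, ?_⟩
    rintro ⟨y, hy, hya⟩
    have hne : z ≠ y := by rintro rfl; exact hz' hy
    have := nb_disjoint (hZ hz) (hZ (hZ' hy)) hne
    exact (Finset.disjoint_left.1 this) hza hya

lemma lv_mono {Z Z' : Finset (Fin n)} (h : Z' ⊆ Z) : lv G Z' ⊆ lv G Z :=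
  biUnion_subset_biUnion_of_subset_left _ h

/-- union of compatible pieces is independent. -/
lemma union_ind {Z Z' A Y : Finset (Fin n)} (hZ : Z ⊆ ctr G) (hZ' : Z' ⊆ Z)
    (hA : A ∈ indW G Z) (hY : Y ⊆ lv G Z \ lv G Z') : Z' ∪ A ∪ Y ∈ ind G := by
  rw [mem_ind]
  rw [mem_indW] at hA
  have hAZ : ∀ x ∈ A, x ∉ Z ∧ x ∉ lv G Z := by
    intro x hx
    have := Finset.disjoint_left.1 hA.2 hx
    rw [mem_union, not_or] at this
    exact this
  -- adjacency facts
  have f1 : ∀ z ∈ Z', ∀ y, G.Adj z y → y ∈ lv G Z' := by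
    intro z hz y hy
    exact mem_biUnion.2 ⟨z, hz, mem_nb.2 hy⟩
  have f2 : ∀ y ∈ lv G Z, ∀ w, G.Adj y w → w ∈ Z := by
    intro y hy w hw
    obtain ⟨z, hz, hzy⟩ := mem_biUnion.1 hy
    have := (mem_ctr.1 (hZ hz)).2 y hzy w (mem_nb.2 hw)
    rw [this]; exact hz
  have hdZL := lv_disjoint hZ
  -- any vertex of Z' or Y has no neighbour in the union
  have g1 : ∀ z ∈ Z', ∀ y ∈ Z' ∪ A ∪ Y, ¬ G.Adj z y := by
    intro z hz y hy hadj
    have h1 := f1 z hz y hadj
    have h2 := lv_mono hZ' h1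
    rcases mem_union.1 hy with hy | hy
    · rcases mem_union.1 hy with hy | hy
      · exact Finset.disjoint_left.1 hdZL (hZ' hy) h2
      · exact (hAZ y hy).2 h2
    · exact (mem_sdiff.1 (hY hy)).2 h1
  have g2 : ∀ z ∈ Y, ∀ y ∈ Z' ∪ A ∪ Y, ¬ G.Adj z y := by
    intro z hz y hy hadj
    have hzl := (mem_sdiff.1 (hY hz)).1
    have h1 := f2 z hzl y hadj
    rcases mem_union.1 hy with hy | hy
    · rcases mem_union.1 hy with hy | hy
      · exact (mem_sdiff.1 (hY hz)).2 (f1 y hy z hadj.symm)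
      · exact (hAZ y hy).1 h1
    · exact Finset.disjoint_left.1 hdZL h1 (mem_sdiff.1 (hY hy)).1
  intro x hx y hy hadj
  rcases mem_union.1 hx with hx' | hx'
  · rcases mem_union.1 hx' with hx' | hx'
    · exact g1 x hx' y hy hadj
    · rcases mem_union.1 hy with hy' | hy'
      · rcases mem_union.1 hy' with hy' | hy'
        · exact g1 y hy' x hx hadj.symm
        · exact hA.1 x hx' y hy' hadj
      · exact g2 y hy' x hx hadj.symm
  · exact g2 x hx' y hy hadj

/-- The decomposition of sums over independent sets. -/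
lemma sum_ind_decomp {Z : Finset (Fin n)} (hZ : Z ⊆ ctr G) (f : Finset (Fin n) → ℝ) :
    ∑ X ∈ ind G, f X = ∑ Z' ∈ Z.powerset, ∑ A ∈ indW G Z, ∑ Y ∈ (lv G Z \ lv G Z').powerset,
      f (Z' ∪ A ∪ Y) := by
  have hdZL := lv_disjoint hZ
  have e : ∑ Z' ∈ Z.powerset, ∑ A ∈ indW G Z, ∑ Y ∈ (lv G Z \ lv G Z').powerset,
      f (Z' ∪ A ∪ Y) = ∑ p ∈ Z.powerset.sigma
        (fun Z' => (indW G Z) ×ˢ (lv G Z \ lv G Z').powerset), f (p.1 ∪ p.2.1 ∪ p.2.2) := by
    rw [sum_sigma]
    apply sum_congr rfl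
    intro Z' _
    rw [sum_product]
  rw [e]
  refine sum_bij' (fun X _ => (⟨X ∩ Z, (X \ (Z ∪ lv G Z), X ∩ lv G Z)⟩ :
      (_ : Finset (Fin n)) × (Finset (Fin n) × Finset (Fin n))))
    (fun p _ => p.1 ∪ p.2.1 ∪ p.2.2) ?_ ?_ ?_ ?_ ?_
  · intro X hX
    have hX' := mem_ind.1 hX
    rw [mem_sigma]
    refine ⟨mem_powerset.2 inter_subset_right, ?_⟩
    rw [mem_product]
    refine ⟨mem_indW.2 ⟨?_, ?_⟩, mem_powerset.2 ?_⟩
    · intro x hx y hy
      exact hX' x (mem_sdiff.1 hx).1 y (mem_sdiff.1 hy).1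
    · exact sdiff_disjoint
    · intro y hy
      have hy' := mem_inter.1 hy
      rw [mem_sdiff]
      refine ⟨hy'.2, ?_⟩
      intro h
      obtain ⟨z, hz, hzy⟩ := mem_biUnion.1 h
      exact hX' z (mem_inter.1 hz).1 y hy'.1 (mem_nb.1 hzy)
  · intro p hp
    obtain ⟨h1, h2⟩ := mem_sigma.1 hp
    obtain ⟨h3, h4⟩ := mem_product.1 h2
    exact union_ind hZ (mem_powerset.1 h1) h3 (mem_powerset.1 h4)
  · intro X hX
    ext x
    simp only [mem_union, mem_inter, mem_sdiff]
    tauto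
  · intro p hp
    obtain ⟨h1, h2⟩ := mem_sigma.1 hp
    obtain ⟨h3, h4⟩ := mem_product.1 h2
    obtain ⟨Z', A, Y⟩ := p
    simp only at h1 h2 h3 h4 ⊢
    have h1' := mem_powerset.1 h1
    have h4' := mem_powerset.1 h4
    have hA : ∀ x ∈ A, x ∉ Z ∧ x ∉ lv G Z := by
      intro x hx
      have := Finset.disjoint_left.1 (mem_indW.1 h3).2 hx
      rw [mem_union, not_or] at this
      exact this
    have hY : ∀ x ∈ Y, x ∈ lv G Z := fun x hx => (mem_sdiff.1 (h4' hx)).1
    have hZL : ∀ x ∈ Z, x ∉ lv G Z := fun x hx => Finset.disjoint_left.1 hdZL hx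
    have hZZ : ∀ x ∈ Z', x ∈ Z := fun x hx => h1' hx
    have e1 : (Z' ∪ A ∪ Y) ∩ Z = Z' := by
      ext x
      simp only [mem_union, mem_inter]
      constructor
      · rintro ⟨(h | h) | h, hz⟩
        · exact h
        · exact absurd hz (hA x h).1
        · exact absurd (hY x h) (hZL x hz)
      · intro h; exact ⟨Or.inl (Or.inl h), hZZ x h⟩
    have e2 : (Z' ∪ A ∪ Y) \ (Z ∪ lv G Z) = A := by
      ext x
      simp only [mem_union, mem_sdiff]
      constructor
      · rintro ⟨(h | h) | h, hz⟩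
        · exact absurd (Or.inl (hZZ x h)) hz
        · exact h
        · exact absurd (Or.inr (hY x h)) hz
      · intro h
        refine ⟨Or.inl (Or.inr h), ?_⟩
        rintro (h' | h')
        · exact (hA x h).1 h'
        · exact (hA x h).2 h'
    have e3 : (Z' ∪ A ∪ Y) ∩ lv G Z = Y := by
      ext x
      simp only [mem_union, mem_inter]
      constructor
      · rintro ⟨(h | h) | h, hz⟩
        · exact absurd hz (hZL x (hZZ x h))
        · exact absurd hz (hA x h).2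
        · exact h
      · intro h; exact ⟨Or.inr h, hY x h⟩
    rw [e1, e2, e3]
  · intro X hX
    congr 1
    ext x
    simp only [mem_union, mem_inter, mem_sdiff]
    tauto

/-- counting by number of centres used and total size. -/
lemma sum_ind_count {Z : Finset (Fin n)} (hZ : Z ⊆ ctr G) (φ : ℕ → ℕ → ℝ) :
    ∑ X ∈ ind G, φ (X ∩ Z).card X.card = ∑ j ∈ range (Z.card + 1), (Z.card.choose j : ℝ) *
      ∑ A ∈ indW G Z, ∑ k ∈ range (3 * (Z.card - j) + 1),
        ((3 * (Z.card - j)).choose k : ℝ) * φ j (j + A.card + k) := by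
  rw [sum_ind_decomp hZ]
  have hdZL := lv_disjoint hZ
  have h1 : ∀ Z' ∈ Z.powerset, ∑ A ∈ indW G Z, ∑ Y ∈ (lv G Z \ lv G Z').powerset,
      φ ((Z' ∪ A ∪ Y) ∩ Z).card (Z' ∪ A ∪ Y).card
      = ∑ A ∈ indW G Z, ∑ k ∈ range (3 * (Z.card - Z'.card) + 1),
        ((3 * (Z.card - Z'.card)).choose k : ℝ) * φ Z'.card (Z'.card + A.card + k) := by
    intro Z' hZ'
    have hZZ := mem_powerset.1 hZ'
    apply sum_congr rfl
    intro A hAm
    have hA : ∀ x ∈ A, x ∉ Z ∧ x ∉ lv G Z := by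
      intro x hx
      have := Finset.disjoint_left.1 (mem_indW.1 hAm).2 hx
      rw [mem_union, not_or] at this
      exact this
    have hcard : (lv G Z \ lv G Z').card = 3 * (Z.card - Z'.card) := by
      rw [lv_sdiff hZ hZZ, card_lv (sdiff_subset.trans hZ), card_sdiff_of_subset hZZ]
    rw [← hcard]
    have h2 : ∀ Y ∈ (lv G Z \ lv G Z').powerset, φ ((Z' ∪ A ∪ Y) ∩ Z).card (Z' ∪ A ∪ Y).card
        = φ Z'.card (Z'.card + A.card + Y.card) := by
      intro Y hYm
      have hY : ∀ x ∈ Y, x ∈ lv G Z := fun x hx => (mem_sdiff.1 (mem_powerset.1 hYm hx)).1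
      have hZL : ∀ x ∈ Z, x ∉ lv G Z := fun x hx => Finset.disjoint_left.1 hdZL hx
      have e1 : (Z' ∪ A ∪ Y) ∩ Z = Z' := by
        ext x
        simp only [mem_union, mem_inter]
        constructor
        · rintro ⟨(h | h) | h, hz⟩
          · exact h
          · exact absurd hz (hA x h).1
          · exact absurd (hY x h) (hZL x hz)
        · intro h; exact ⟨Or.inl (Or.inl h), hZZ h⟩
      have d1 : Disjoint Z' A := by
        rw [Finset.disjoint_left]
        intro x hx hx'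
        exact (hA x hx').1 (hZZ hx)
      have d2 : Disjoint (Z' ∪ A) Y := by
        rw [Finset.disjoint_left]
        intro x hx hx'
        rcases mem_union.1 hx with h | h
        · exact hZL x (hZZ h) (hY x hx')
        · exact (hA x h).2 (hY x hx')
      rw [e1, card_union_of_disjoint d2, card_union_of_disjoint d1]
    rw [sum_congr rfl h2]
    rw [Finset.sum_powerset_apply_card (fun k => φ Z'.card (Z'.card + A.card + k))]
    simp only [nsmul_eq_mul]
  rw [sum_congr rfl h1]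
  rw [Finset.sum_powerset_apply_card (fun j => ∑ A ∈ indW G Z, ∑ k ∈ range (3 * (Z.card - j) + 1),
        ((3 * (Z.card - j)).choose k : ℝ) * φ j (j + A.card + k))]
  simp only [nsmul_eq_mul]

lemma sum_choose_eq_bc (m a r : ℕ) :
    ∑ k ∈ range (m + 1), (m.choose k : ℝ) * (if a + k = r then 1 else 0) = bc m ((r : ℤ) - a) := by
  unfold bc
  split_ifs with h
  · have har : a ≤ r := by omega
    obtain ⟨k, rfl⟩ := Nat.exists_eq_add_of_le har
    have e : (((a + k : ℕ) : ℤ) - a).toNat = k := by push_cast; simp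
    rw [e]
    by_cases hk : k < m + 1
    · rw [sum_eq_single_of_mem k (mem_range.2 hk)]
      · simp
      · intro b _ hb
        rw [if_neg (by omega)]; simp
    · rw [Nat.choose_eq_zero_of_lt (by omega)]
      rw [Nat.cast_zero]
      apply sum_eq_zero
      intro b hb
      have := mem_range.1 hb
      rw [if_neg (by omega)]; simp
  · apply sum_eq_zero
    intro b _
    rw [if_neg (by omega)]; simp

/-- number of independent sets of size `r`. -/
lemma card_layer {Z : Finset (Fin n)} (hZ : Z ⊆ ctr G) (s : ℕ) (hs : Z.card = 9 * s ^ 2) (r : ℕ) :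
    (((ind G).filter (fun X => X.card = r)).card : ℝ) = NN s (indW G Z) Finset.card r := by
  have h := sum_ind_count hZ (fun _ r' => if r' = r then 1 else 0)
  rw [← sum_filter] at h
  rw [sum_const, nsmul_eq_mul, mul_one] at h
  rw [h, hs]
  unfold NN nn
  apply sum_congr rfl
  intro j _
  congr 1
  apply sum_congr rfl
  intro A _
  rw [sum_choose_eq_bc]
  congr 1
  push_cast; ring

/-- size of the two-level family. -/
lemma card_family {Z : Finset (Fin n)} (hZ : Z ⊆ ctr G) (s : ℕ) (hs : Z.card = 9 * s ^ 2)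
    (j0 j1 r1 r2 : ℕ) (h01 : j0 ≤ j1) (h1 : j1 ≤ 9 * s ^ 2 + 1) :
    (((ind G).filter (fun X => ((X ∩ Z).card < j0 ∧ X.card = r1) ∨
      (j0 ≤ (X ∩ Z).card ∧ (X ∩ Z).card < j1 ∧ X.card = r2))).card : ℝ)
      = ∑ j ∈ Ico 0 j0, nn s (indW G Z) Finset.card j r1
        + ∑ j ∈ Ico j0 j1, nn s (indW G Z) Finset.card j r2 := by
  have h := sum_ind_count hZ (fun j r => if (j < j0 ∧ r = r1) ∨ (j0 ≤ j ∧ j < j1 ∧ r = r2)
    then 1 else 0)
  rw [← sum_filter] at h
  rw [sum_const, nsmul_eq_mul, mul_one] at h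
  rw [h, hs]
  have e : range (9 * s ^ 2 + 1) = Ico 0 (9 * s ^ 2 + 1) := range_eq_Ico _
  rw [e, ← sum_Ico_consecutive _ (Nat.zero_le j0) (h01.trans h1),
    ← sum_Ico_consecutive _ h01 h1]
  have t1 : ∑ j ∈ Ico 0 j0, ((9 * s ^ 2).choose j : ℝ) * ∑ A ∈ indW G Z,
      ∑ k ∈ range (3 * (9 * s ^ 2 - j) + 1), ((3 * (9 * s ^ 2 - j)).choose k : ℝ) *
        (if (j < j0 ∧ j + A.card + k = r1) ∨ (j0 ≤ j ∧ j < j1 ∧ j + A.card + k = r2)
          then 1 else 0) = ∑ j ∈ Ico 0 j0, nn s (indW G Z) Finset.card j r1 := by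
    apply sum_congr rfl
    intro j hj
    have hj' := mem_Ico.1 hj
    unfold nn
    congr 1
    apply sum_congr rfl
    intro A _
    have : ((r1 : ℤ) - j - A.card) = ((r1 : ℤ) - (j + A.card : ℕ)) := by push_cast; ring
    rw [this, ← sum_choose_eq_bc]
    apply sum_congr rfl
    intro k _
    congr 1
    apply if_congr _ rfl rfl
    constructor
    · rintro (h | h)
      · exact h.2
      · omega
    · intro h; exact Or.inl ⟨hj'.2, h⟩
  have t2 : ∑ j ∈ Ico j0 j1, ((9 * s ^ 2).choose j : ℝ) * ∑ A ∈ indW G Z,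
      ∑ k ∈ range (3 * (9 * s ^ 2 - j) + 1), ((3 * (9 * s ^ 2 - j)).choose k : ℝ) *
        (if (j < j0 ∧ j + A.card + k = r1) ∨ (j0 ≤ j ∧ j < j1 ∧ j + A.card + k = r2)
          then 1 else 0) = ∑ j ∈ Ico j0 j1, nn s (indW G Z) Finset.card j r2 := by
    apply sum_congr rfl
    intro j hj
    have hj' := mem_Ico.1 hj
    unfold nn
    congr 1
    apply sum_congr rfl
    intro A _
    have : ((r2 : ℤ) - j - A.card) = ((r2 : ℤ) - (j + A.card : ℕ)) := by push_cast; ring
    rw [this, ← sum_choose_eq_bc]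
    apply sum_congr rfl
    intro k _
    congr 1
    apply if_congr _ rfl rfl
    constructor
    · rintro (h | h)
      · omega
      · exact h.2.2
    · intro h; exact Or.inr ⟨hj'.1, hj'.2, h⟩
  have t3 : ∑ j ∈ Ico j1 (9 * s ^ 2 + 1), ((9 * s ^ 2).choose j : ℝ) * ∑ A ∈ indW G Z,
      ∑ k ∈ range (3 * (9 * s ^ 2 - j) + 1), ((3 * (9 * s ^ 2 - j)).choose k : ℝ) *
        (if (j < j0 ∧ j + A.card + k = r1) ∨ (j0 ≤ j ∧ j < j1 ∧ j + A.card + k = r2)
          then 1 else 0) = 0 := by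
    apply sum_eq_zero
    intro j hj
    have hj' := mem_Ico.1 hj
    rw [mul_eq_zero]
    right
    apply sum_eq_zero
    intro A _
    apply sum_eq_zero
    intro k _
    rw [if_neg (by omega)]; simp
  rw [t1, t2, t3, add_zero]

end Pool.Agent.Helper97
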