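import Mathlib
import Pool.Agent.Helper92.HRT.Defs

set_option autoImplicit false

namespace Pool.Agent.Helper92.HRT

open MeasureTheory Finset

namespace O6

/-- Coefficients of a trigonometric sum, collected by frequency. -/
noncomputable def coef (L : TS) : ℝ →₀ ℂ := (L.map fun p => Finsupp.single p.2 p.1).sum

theorem ev_coef (L : TS) (x : ℝ) :
    (coef L).sum (fun w a => a * e (w * x)) = ev L x := by
  induction L with
  | nil => simp [coef, ev]
  | cons p L ih =>
    have h1 : coef (p :: L) = Finsupp.single p.2 p.1 + coef L := by simp [coef]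
    have h2 : ev (p :: L) x = p.1 * e (p.2 * x) + ev L x := by simp [ev]
    rw [h1, h2, Finsupp.sum_add_index', Finsupp.sum_single_index, ih]
    · simp
    · intro a; simp
    · intro a b c; ring

/-- The point of the time-frequency plane with shift `a` and frequency `w`. -/
def pt (a w : ℝ) : (Fin 1 → ℝ) × (Fin 1 → ℝ) := (fun _ => a, fun _ => w)

theorem pt_inj (a : ℝ) : Function.Injective (pt a) := by
  intro w w' h
  have := congrArg Prod.snd h
  exact congrFun this 0

end O6

open O6 in
theorem not_hrt_of_fun (LP LQ : TS) (hP : ∃ x, ev LP x ≠ 0) (f : ℝ → ℂ)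
    (hf : MemLp f 2 volume) (hf0 : ¬ (f =ᵐ[volume] 0))
    (hfun : ∀ᵐ x : ℝ, ev LP x * f x = ev LQ x * f (x + 1)) :
    ¬ (∀ n : ℕ, ∀ g : (Fin n → ℝ) → ℂ,
      MeasureTheory.MemLp g 2 MeasureTheory.volume →
      ¬ (g =ᵐ[MeasureTheory.volume] 0) →
      ∀ (s : Finset ((Fin n → ℝ) × (Fin n → ℝ))) (c : (Fin n → ℝ) × (Fin n → ℝ) → ℂ),
        (fun t : Fin n → ℝ =>
            ∑ p ∈ s, c p *
              (Complex.exp (2 * (Real.pi : ℂ) * Complex.I * ((∑ i, p.2 i * t i : ℝ) : ℂ)) *
                g (t - p.1))) =ᵐ[MeasureTheory.volume] 0 →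
        ∀ p ∈ s, c p = 0) := by
  intro H
  have hmp : MeasurePreserving (fun t : Fin 1 → ℝ => t 0) volume volume :=
    volume_preserving_funUnique (Fin 1) ℝ
  -- the function
  set g : (Fin 1 → ℝ) → ℂ := fun t => f (t 0) with hg
  have hgL : MemLp g 2 volume := hf.comp_measurePreserving hmp
  have hg0 : ¬ (g =ᵐ[volume] 0) := by
    intro h0
    apply hf0
    have h1 : ∀ᵐ t : Fin 1 → ℝ, f (t 0) = 0 := h0
    have hinv : MeasurePreserving (fun x : ℝ => (fun _ : Fin 1 => x)) volume volume :=
      (volume_preserving_funUnique (Fin 1) ℝ).symm _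
    have h2 := hinv.quasiMeasurePreserving.ae h1
    filter_upwards [h2] with x hx
    simpa using hx
  -- the coefficients
  set F : ((Fin 1 → ℝ) × (Fin 1 → ℝ)) →₀ ℂ :=
    Finsupp.mapDomain (pt 0) (coef LP) - Finsupp.mapDomain (pt (-1)) (coef LQ) with hF
  have hsum : ∀ t : Fin 1 → ℝ,
      ∑ p ∈ F.support, F p *
        (Complex.exp (2 * (Real.pi : ℂ) * Complex.I * ((∑ i, p.2 i * t i : ℝ) : ℂ)) *
          g (t - p.1)) = ev LP (t 0) * f (t 0) - ev LQ (t 0) * f (t 0 + 1) := by
    intro t
    have h0 : ∑ p ∈ F.support, F p *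
        (Complex.exp (2 * (Real.pi : ℂ) * Complex.I * ((∑ i, p.2 i * t i : ℝ) : ℂ)) *
          g (t - p.1)) = F.sum (fun p a => a *
        (Complex.exp (2 * (Real.pi : ℂ) * Complex.I * ((∑ i, p.2 i * t i : ℝ) : ℂ)) *
          g (t - p.1))) := rfl
    rw [h0, hF, Finsupp.sum_sub_index (by intro a b c; ring),
      Finsupp.sum_mapDomain_index (by intro a; ring) (by intro a b c; ring),
      Finsupp.sum_mapDomain_index (by intro a; ring) (by intro a b c; ring)]
    congr 1
    · rw [← ev_coef LP (t 0), Finsupp.sum, Finsupp.sum, Finset.sum_mul]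
      refine Finset.sum_congr rfl fun w _ => ?_
      have : g (t - (pt 0 w).1) = f (t 0) := by simp [hg, pt]
      have he : Complex.exp (2 * (Real.pi : ℂ) * Complex.I *
          ((∑ i, (pt 0 w).2 i * t i : ℝ) : ℂ)) = e (w * t 0) := by
        unfold e
        congr 1
        simp only [pt, Finset.univ_unique, Fin.default_eq_zero, Finset.sum_singleton]
        push_cast
        ring
      rw [this, he, mul_assoc]
    · rw [← ev_coef LQ (t 0), Finsupp.sum, Finsupp.sum, Finset.sum_mul]
      refine Finset.sum_congr rfl fun w _ => ?_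
      have : g (t - (pt (-1) w).1) = f (t 0 + 1) := by simp [hg, pt]
      have he : Complex.exp (2 * (Real.pi : ℂ) * Complex.I *
          ((∑ i, (pt (-1) w).2 i * t i : ℝ) : ℂ)) = e (w * t 0) := by
        unfold e
        congr 1
        simp only [pt, Finset.univ_unique, Fin.default_eq_zero, Finset.sum_singleton]
        push_cast
        ring
      rw [this, he, mul_assoc]
  have hzero : (fun t : Fin 1 → ℝ =>
            ∑ p ∈ F.support, F p *
              (Complex.exp (2 * (Real.pi : ℂ) * Complex.I * ((∑ i, p.2 i * t i : ℝ) : ℂ)) *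
                g (t - p.1))) =ᵐ[MeasureTheory.volume] 0 := by
    have h2 := hmp.quasiMeasurePreserving.ae hfun
    filter_upwards [h2] with t ht
    rw [hsum t, ht]
    simp
  have hall := H 1 g hgL hg0 F.support F hzero
  -- coefficients of LP vanish
  have hcoef : ∀ w, coef LP w = 0 := by
    intro w
    have h1 : F (pt 0 w) = coef LP w := by
      rw [hF, Finsupp.sub_apply, Finsupp.mapDomain_apply (pt_inj 0), Finsupp.mapDomain_of_notMem_range]
      · simp
      · rintro ⟨w', hw'⟩
        have := congrFun (congrArg Prod.fst hw') 0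
        simp [pt] at this
    rw [← h1]
    by_cases hm : pt 0 w ∈ F.support
    · exact hall _ hm
    · simpa using hm
  obtain ⟨x, hx⟩ := hP
  apply hx
  rw [← ev_coef LP x]
  have : coef LP = 0 := Finsupp.ext hcoef
  rw [this]
  simp

end Pool.Agent.Helper92.HRT
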