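import Pool.Agent.Helper97.Tail

set_option autoImplicit false

namespace Pool.Agent.Helper97

open Finset

/-- number of independent sets of size `r`. -/
noncomputable def NN {ι : Type} (s : ℕ) (W : Finset ι) (h : ι → ℕ) (r : ℕ) : ℝ :=
  ∑ j ∈ range (9 * s ^ 2 + 1), nn s W h j r

lemma eta_small (V t : ℝ) (hV : 0 ≤ V) (ht : 0 < t) (d : ℝ) (h1 : 1 ≤ d)
    (h2 : (V + 432) / t ≤ d) : V / d ^ 2 + 432 / d ^ 3 ≤ t := by
  have hd : 0 < d := by linarith
  have e1 : V / d ^ 2 ≤ V / d := by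
    apply div_le_div_of_nonneg_left hV hd
    nlinarith only [h1]
  have e2 : 432 / d ^ 3 ≤ 432 / d := by
    apply div_le_div_of_nonneg_left (by norm_num) hd
    nlinarith only [h1, pow_pos hd 2, pow_pos hd 3, mul_pos hd hd]
  have e3 : V / d + 432 / d ≤ t := by
    rw [← add_div, div_le_iff₀ hd]
    rw [div_le_iff₀ ht] at h2
    linarith
  linarith

lemma sum_PP_beyond (s : ℕ) (hs : 0 < s) (S : Finset ℕ) (hS : S ⊆ range (9 * s ^ 2 + 1))
    (h : ∀ j ∈ S, 2 * s ^ 2 < j) :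
    (s : ℝ) ^ 2 * ∑ j ∈ S, PP s j ≤ 8 / 9 * 9 ^ (9 * s ^ 2) := by
  have hs0 : (0 : ℝ) < s := by exact_mod_cast hs
  have h1 := cheb_PP s (((s : ℝ) ^ 2) ^ 2) S hS (by
    intro j hj
    have h2 : 2 * (s : ℝ) ^ 2 < j := by exact_mod_cast h j hj
    have : 0 ≤ (s : ℝ) ^ 2 := by positivity
    have h3 : (s : ℝ) ^ 2 ≤ (j : ℝ) - (s : ℝ) ^ 2 := by linarith
    gcongr)
  have h2 : (s : ℝ) ^ 2 * ((s : ℝ) ^ 2 * ∑ j ∈ S, PP s j)
      ≤ (s : ℝ) ^ 2 * (8 / 9 * 9 ^ (9 * s ^ 2)) := by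
    calc _ = ((s : ℝ) ^ 2) ^ 2 * ∑ j ∈ S, PP s j := by ring
      _ ≤ _ := h1
      _ = _ := by ring
  exact le_of_mul_le_mul_left h2 (by positivity)

theorem numeric_main (V : ℝ) (hV0 : 0 ≤ V) : ∃ ε : ℝ, 0 < ε ∧ ∃ s0 : ℕ, ∀ s : ℕ, s0 ≤ s →
    ∀ (ι : Type) (W : Finset ι) (h : ι → ℕ) (ρ : ℝ), W.Nonempty →
    (∑ A ∈ W, ((h A : ℝ) - ρ) ^ 2 ≤ V * s ^ 2 * W.card) →
    ∀ rs : ℕ, (∀ r, NN s W h r ≤ NN s W h rs) →
    ∃ j0 j1 r2 : ℕ, j0 ≤ j1 ∧ j1 ≤ 9 * s ^ 2 + 1 ∧ r2 ≤ rs ∧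
      (1 + ε) * NN s W h rs <
        ∑ j ∈ Ico 0 j0, nn s W h j rs + ∑ j ∈ Ico j0 j1, nn s W h j r2 := by
  classical
  -- constants
  obtain ⟨v2, hv2⟩ : ∃ v2 : ℝ, v2 = 3 * (V + 27 / 4 + (2 : ℝ) ^ 2 / 4) + 1 := ⟨_, rfl⟩
  obtain ⟨v1, hv1⟩ : ∃ v1 : ℝ, v1 = 3 * (V + 27 / 4 + (1 : ℝ) ^ 2 / 4) + 1 := ⟨_, rfl⟩
  have hv2p : 1 ≤ v2 := by rw [hv2]; norm_num; linarith
  have hv1p : 1 ≤ v1 := by rw [hv1]; norm_num; linarith
  obtain ⟨c2, hc2⟩ : ∃ c2 : ℝ, c2 = 1 / (2 * (2 * v2 + 1)) := ⟨_, rfl⟩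
  obtain ⟨c1, hc1⟩ : ∃ c1 : ℝ, c1 = 1 / (2 * (2 * v1 + 1)) := ⟨_, rfl⟩
  have hc2p : 0 < c2 := by rw [hc2]; positivity
  have hc1p : 0 < c1 := by rw [hc1]; positivity
  -- choice of E
  obtain ⟨E, hE⟩ : ∃ E : ℕ, max (2 * max 1 ((V + 432) / (c2 / 6))) (2 / c2 + 1) ≤ (E : ℝ) :=
    ⟨_, Nat.le_ceil _⟩
  have hE1 : (1 : ℝ) ≤ (E : ℝ) / 2 := by
    have := (le_max_left _ _).trans hE
    have h2 := le_max_left (1 : ℝ) ((V + 432) / (c2 / 6))
    linarith
  have hE2 : (V + 432) / (c2 / 6) ≤ (E : ℝ) / 2 := by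
    have := (le_max_left _ _).trans hE
    have h2 := le_max_right (1 : ℝ) ((V + 432) / (c2 / 6))
    linarith
  have hE3 : 2 / c2 + 1 ≤ (E : ℝ) := (le_max_right _ _).trans hE
  have hetaE := eta_small V (c2 / 6) hV0 (by positivity) _ hE1 hE2
  have hE4 : (2 / 9) / (E : ℝ) ^ 2 ≤ c2 / 6 := by
    have hEp : (0 : ℝ) < E := by linarith
    rw [div_le_iff₀ (by positivity)]
    have h1 : 2 ≤ c2 * E := by
      have : 2 / c2 ≤ (E : ℝ) := by linarith
      rwa [div_le_iff₀ hc2p, mul_comm] at this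
    have h2 : 2 * (2 : ℝ) ≤ c2 * E * E := by
      have : (2 : ℝ) ≤ E := by linarith
      calc 2 * (2 : ℝ) ≤ (c2 * E) * E := by gcongr
        _ = _ := by ring
    linarith only [h2]
  -- choice of a
  obtain ⟨a, ha⟩ : ∃ a : ℕ, 2 * E + 2 * max (max 1 v1) ((V + 432) / (c1 / 4)) + 2 ≤ (a : ℝ) :=
    ⟨_, Nat.le_ceil _⟩
  obtain ⟨d, hd⟩ : ∃ d : ℝ, d = (a : ℝ) / 2 - E := ⟨_, rfl⟩
  have hE0 : (0 : ℝ) ≤ E := Nat.cast_nonneg E
  have hd1 : 1 ≤ d := by
    have h1 := le_max_left (max 1 v1) ((V + 432) / (c1 / 4))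
    have h2 := le_max_left 1 v1
    rw [hd]; linarith only [ha, h1, h2]
  have hdv : v1 ≤ d := by
    have h1 := le_max_left (max 1 v1) ((V + 432) / (c1 / 4))
    have h2 := le_max_right 1 v1
    rw [hd]; linarith only [ha, h1, h2]
  have hd2 : (V + 432) / (c1 / 4) ≤ d := by
    have h1 := le_max_right (max 1 v1) ((V + 432) / (c1 / 4))
    rw [hd]; linarith only [ha, h1]
  have ha2 : 2 ≤ a := by
    have h1 := le_max_left (max 1 v1) ((V + 432) / (c1 / 4))
    have h2 := le_max_left 1 v1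
    have : (2 : ℝ) ≤ a := by linarith only [hV0, hv1, hE1, hd, hdv]
    exact_mod_cast this
  have hetad := eta_small V (c1 / 4) hV0 (by positivity) d hd1 hd2
  obtain ⟨δ, hδ⟩ : ∃ δ : ℝ,
    δ = 7 / 45 * Real.exp (-(9 / 4 * ((a + 1 : ℕ) : ℝ) * ((a + 3 : ℕ) : ℝ))) := ⟨_, rfl⟩
  have hδp : 0 < δ := by rw [hδ]; positivity
  refine ⟨δ * c1 / 8, by positivity, ?_⟩
  obtain ⟨s0, hs0⟩ : ∃ s0 : ℕ, max (max (E + 1 : ℝ) (9 * (a + 1) + 2)) (max (8 / c2) (4 / (δ * c1)))
      ≤ (s0 : ℝ) := ⟨_, Nat.le_ceil _⟩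
  refine ⟨s0, ?_⟩
  intro s hss ι W h ρ hW hV rs hrs
  have hsr : max (max (E + 1 : ℝ) (9 * (a + 1) + 2)) (max (8 / c2) (4 / (δ * c1))) ≤ (s : ℝ) :=
    hs0.trans (by exact_mod_cast hss)
  have hsE : (E : ℝ) + 1 ≤ s := ((le_max_left _ _).trans (le_max_left _ _)).trans hsr
  have hsa : 9 * ((a : ℝ) + 1) + 2 ≤ s := ((le_max_right _ _).trans (le_max_left _ _)).trans hsr
  have hsc : 8 / c2 ≤ (s : ℝ) := ((le_max_left _ _).trans (le_max_right _ _)).trans hsr
  have hsd : 4 / (δ * c1) ≤ (s : ℝ) := ((le_max_right _ _).trans (le_max_right _ _)).trans hsr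
  have hs0' : (0 : ℝ) < s := by linarith only [hV0, hv1, hE1, hd, hdv, hsa]
  have hs : 0 < s := by exact_mod_cast hs0'
  have hs2 : (2 : ℝ) ≤ s := by
    have : (0 : ℝ) ≤ a := Nat.cast_nonneg a
    linarith only [hV0, hv1, hE1, hd, hdv, hsa]
  have hEs : E ≤ s := by
    have : (E : ℝ) ≤ s := by linarith only [hV0, hv1, hE1, hd, hdv, hsa]
    exact_mod_cast this
  have has : 9 * (a + 1) ≤ 4 * s := by
    have : (9 * ((a + 1 : ℕ) : ℝ)) ≤ 4 * s := by push_cast; linarith only [hV0, hv1, hE1, hd, hdv, hsa]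
    exact_mod_cast this
  have has' : a ≤ s := by omega
  obtain ⟨T, hT⟩ : ∃ T : ℝ, T = W.card * (9 : ℝ) ^ (9 * s ^ 2) := ⟨_, rfl⟩
  have hWc : (0 : ℝ) < W.card := by exact_mod_cast hW.card_pos
  have hTp : 0 < T := by rw [hT]; positivity
  obtain ⟨x, hx⟩ : ∃ x : ℝ, x = ρ + (s : ℝ) ^ 2 + 3 * (9 * (s : ℝ) ^ 2 - (s : ℝ) ^ 2) / 2 := ⟨_, rfl⟩
  -- global lower bound
  have hglob : 7 / 9 * c2 * T ≤ s * NN s W h rs := by
    obtain ⟨r, -, hr⟩ := block_lower s hs W hW h ρ V hV0 hV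
      ((range (9 * s ^ 2 + 1)).filter (fun j : ℕ => |(j : ℝ) - (s : ℝ) ^ 2| < 2 * s))
      (filter_subset _ _) (by
        refine ⟨s ^ 2, ?_⟩
        rw [mem_filter, mem_range]
        refine ⟨by omega, ?_⟩
        push_cast
        rw [sub_self, abs_zero]; positivity)
      ((s : ℝ) ^ 2) 2 (fun j hj => (mem_filter.1 hj).2.le) v2 hv2
    have h1 := PP_mid s hs
    have h2 : ∑ j ∈ (range (9 * s ^ 2 + 1)).filter (fun j : ℕ => |(j : ℝ) - (s : ℝ) ^ 2| < 2 * s),
        nn s W h j r ≤ NN s W h r := by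
      apply sum_le_sum_of_subset_of_nonneg (filter_subset _ _)
      intro j _ _; exact nn_nonneg s W h j r
    have h3 := hrs r
    have h4 : W.card * (7 / 9 * (9 : ℝ) ^ (9 * s ^ 2)) ≤ 2 * (2 * v2 + 1) * s * NN s W h rs := by
      calc _ ≤ _ := mul_le_mul_of_nonneg_left h1 hWc.le
        _ ≤ _ := hr
        _ ≤ _ := by
          apply mul_le_mul_of_nonneg_left (h2.trans h3) (by positivity)
    have h5 : c2 * (2 * (2 * v2 + 1)) = 1 := by rw [hc2]; field_simp
    calc 7 / 9 * c2 * T = c2 * (W.card * (7 / 9 * (9 : ℝ) ^ (9 * s ^ 2))) := by rw [hT]; ring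
      _ ≤ c2 * (2 * (2 * v2 + 1) * s * NN s W h rs) := mul_le_mul_of_nonneg_left h4 hc2p.le
      _ = (c2 * (2 * (2 * v2 + 1))) * (s * NN s W h rs) := by ring
      _ = _ := by rw [h5, one_mul]
  -- sum beyond
  have hbeyond : ∀ (S : Finset ℕ) (r : ℕ), S ⊆ range (9 * s ^ 2 + 1) → (∀ j ∈ S, 2 * s ^ 2 < j) →
      s * ∑ j ∈ S, nn s W h j r ≤ T * (8 / 9 / s) := by
    intro S r hS hS2
    have h1 := sum_PP_beyond s hs S hS hS2
    have h2 : ∑ j ∈ S, nn s W h j r ≤ W.card * ∑ j ∈ S, PP s j := by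
      rw [mul_sum]
      exact sum_le_sum fun j _ => nn_le s W h j r
    calc s * ∑ j ∈ S, nn s W h j r ≤ s * (W.card * ∑ j ∈ S, PP s j) := by gcongr
      _ = W.card / s * ((s : ℝ) ^ 2 * ∑ j ∈ S, PP s j) := by field_simp
      _ ≤ W.card / s * (8 / 9 * 9 ^ (9 * s ^ 2)) := by gcongr
      _ = _ := by rw [hT]; ring
  -- location
  have hloc : x - E * s ≤ (rs : ℝ) := by
    by_contra hcon
    push Not at hcon
    have hsplit : s * NN s W h rs ≤ T * (c2 / 6) + T * (c2 / 6) + T * (8 / 9 / s) := by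
      unfold NN
      have e1 := sum_filter_add_sum_filter_not (range (9 * s ^ 2 + 1))
        (fun j : ℕ => 2 * s ^ 2 < j) (fun j => nn s W h j rs)
      have e2 := sum_filter_add_sum_filter_not
        ((range (9 * s ^ 2 + 1)).filter (fun j : ℕ => ¬ 2 * s ^ 2 < j))
        (fun j : ℕ => j < s ^ 2 + E * s) (fun j => nn s W h j rs)
      have b1 := hbeyond ((range (9 * s ^ 2 + 1)).filter (fun j : ℕ => 2 * s ^ 2 < j)) rs
        (filter_subset _ _) (fun j hj => (mem_filter.1 hj).2)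
      have b2 : s * ∑ j ∈ ((range (9 * s ^ 2 + 1)).filter (fun j : ℕ => ¬ 2 * s ^ 2 < j)).filter
          (fun j : ℕ => j < s ^ 2 + E * s), nn s W h j rs ≤ T * (c2 / 6) := by
        rw [mul_sum]
        calc _ ≤ ∑ j ∈ ((range (9 * s ^ 2 + 1)).filter (fun j : ℕ => ¬ 2 * s ^ 2 < j)).filter
              (fun j : ℕ => j < s ^ 2 + E * s), W.card * (c2 / 6) * PP s j := by
              apply sum_le_sum
              intro j hj
              have hj1 := (mem_filter.1 hj).2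
              have hj2 := (mem_filter.1 (mem_filter.1 hj).1).2
              have hjr : (j : ℝ) < (s : ℝ) ^ 2 + E * s := by exact_mod_cast hj1
              have h1 := nn_le_far s hs W h ρ V hV j rs (by omega) ((E : ℝ) / 2) (by linarith only [hE1]) (by
                rw [abs_of_nonpos]
                · rw [hx] at hcon; linarith only [hcon, hjr]
                · rw [hx] at hcon
                  have : 0 ≤ (E : ℝ) * s := by positivity
                  linarith only [hcon, hjr, this])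
              calc _ ≤ _ := h1
                _ ≤ W.card * PP s j * (c2 / 6) := by
                  apply mul_le_mul_of_nonneg_left hetaE
                  exact mul_nonneg hWc.le (PP_nonneg s j)
                _ = _ := by ring
          _ ≤ ∑ j ∈ range (9 * s ^ 2 + 1), W.card * (c2 / 6) * PP s j := by
              apply sum_le_sum_of_subset_of_nonneg
              · exact (filter_subset _ _).trans (filter_subset _ _)
              · intro j _ _
                have := PP_nonneg s j; positivity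
          _ = _ := by rw [← mul_sum, sum_PP, hT]; ring
      have b3 : s * ∑ j ∈ ((range (9 * s ^ 2 + 1)).filter (fun j : ℕ => ¬ 2 * s ^ 2 < j)).filter
          (fun j : ℕ => ¬ j < s ^ 2 + E * s), nn s W h j rs ≤ T * (c2 / 6) := by
        have h1 := cheb_PP s (((E : ℝ) * s) ^ 2)
          (((range (9 * s ^ 2 + 1)).filter (fun j : ℕ => ¬ 2 * s ^ 2 < j)).filter
          (fun j : ℕ => ¬ j < s ^ 2 + E * s)) ((filter_subset _ _).trans (filter_subset _ _)) (by
            intro j hj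
            have hj1 := (mem_filter.1 hj).2
            push Not at hj1
            have hjr : (s : ℝ) ^ 2 + E * s ≤ j := by exact_mod_cast hj1
            have : 0 ≤ (E : ℝ) * s := by positivity
            have h3 : (E : ℝ) * s ≤ (j : ℝ) - (s : ℝ) ^ 2 := by linarith only [hjr]
            gcongr)
        have hEp : (0 : ℝ) < E := by linarith only [hE1]
        have h2 : ∑ j ∈ ((range (9 * s ^ 2 + 1)).filter (fun j : ℕ => ¬ 2 * s ^ 2 < j)).filter
          (fun j : ℕ => ¬ j < s ^ 2 + E * s), PP s j ≤ 9 ^ (9 * s ^ 2) * (8 / 9 / (E : ℝ) ^ 2) := by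
          have h3 : ((E : ℝ) * s) ^ 2 * ∑ j ∈ ((range (9 * s ^ 2 + 1)).filter
              (fun j : ℕ => ¬ 2 * s ^ 2 < j)).filter (fun j : ℕ => ¬ j < s ^ 2 + E * s), PP s j
              ≤ ((E : ℝ) * s) ^ 2 * (9 ^ (9 * s ^ 2) * (8 / 9 / (E : ℝ) ^ 2)) := by
            calc _ ≤ _ := h1
              _ = _ := by field_simp
          exact le_of_mul_le_mul_left h3 (by positivity)
        have h4 : 4 * (s * ∑ j ∈ ((range (9 * s ^ 2 + 1)).filter (fun j : ℕ => ¬ 2 * s ^ 2 < j)).filter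
          (fun j : ℕ => ¬ j < s ^ 2 + E * s), nn s W h j rs) ≤ W.card *
          ∑ j ∈ ((range (9 * s ^ 2 + 1)).filter (fun j : ℕ => ¬ 2 * s ^ 2 < j)).filter
          (fun j : ℕ => ¬ j < s ^ 2 + E * s), PP s j := by
          rw [mul_sum, mul_sum, mul_sum]
          apply sum_le_sum
          intro j hj
          have hj2 := (mem_filter.1 (mem_filter.1 hj).1).2
          have := nn_le_mid s W h j rs (by omega)
          linarith only [this]
        have h5 : W.card * ∑ j ∈ ((range (9 * s ^ 2 + 1)).filter (fun j : ℕ => ¬ 2 * s ^ 2 < j)).filter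
          (fun j : ℕ => ¬ j < s ^ 2 + E * s), PP s j ≤ 4 * (T * ((2 / 9) / (E : ℝ) ^ 2)) := by
          calc _ ≤ W.card * (9 ^ (9 * s ^ 2) * (8 / 9 / (E : ℝ) ^ 2)) := by gcongr
            _ = _ := by rw [hT]; ring
        have h6 : T * ((2 / 9) / (E : ℝ) ^ 2) ≤ T * (c2 / 6) := by gcongr
        linarith only [h4, h5, h6]
      rw [← e1, ← e2]
      rw [mul_add, mul_add]
      linarith only [b1, b2, b3]
    have h8 : T * (8 / 9 / s) ≤ T * (c2 / 9) := by
      apply mul_le_mul_of_nonneg_left _ hTp.le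
      rw [div_le_iff₀ hs0']
      rw [div_le_iff₀ hc2p] at hsc
      linarith only [hsc]
    nlinarith only [hglob, hsplit, h8, hc2p, hTp]
  -- the block
  obtain ⟨j0, hj0⟩ : ∃ j0 : ℕ, j0 = s ^ 2 + a * s := ⟨_, rfl⟩
  have hj0r : (j0 : ℝ) = (s : ℝ) ^ 2 + a * s := by rw [hj0]; push_cast; ring
  have hj9 : j0 + s ≤ 9 * s ^ 2 + 1 := by
    have : a * s ≤ s * s := Nat.mul_le_mul_right s has'
    have h2 : s ≤ s * s := Nat.le_mul_self s
    rw [hj0, sq]; omega
  have hBsub : Ico j0 (j0 + s) ⊆ range (9 * s ^ 2 + 1) := by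
    intro j hj
    rw [mem_range]; have := mem_Ico.1 hj; omega
  obtain ⟨r2, hr2, hr2'⟩ := block_lower s hs W hW h ρ V hV0 hV (Ico j0 (j0 + s)) hBsub
    ⟨j0, mem_Ico.2 ⟨le_rfl, by omega⟩⟩ (j0 : ℝ) 1 (by
      intro j hj
      have h1 := mem_Ico.1 hj
      have h2 : (j0 : ℝ) ≤ j := by exact_mod_cast h1.1
      have h3 : (j : ℝ) ≤ j0 + s := by exact_mod_cast h1.2.le
      rw [abs_of_nonneg (by linarith only [h2])]
      linarith only [h3]) v1 hv1
  have hPB := PP_block a s hs ha2 has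
  rw [← hj0, ← hδ] at hPB
  have hPT := PP_tail s a hs ha2 has'
  rw [← hj0] at hPT
  obtain ⟨PB, hPBdef⟩ : ∃ PB : ℝ, PB = ∑ j ∈ Ico j0 (j0 + s), PP s j := ⟨_, rfl⟩
  rw [← hPBdef] at hPB hPT hr2'
  refine ⟨j0, j0 + s, r2, by omega, hj9, ?_, ?_⟩
  · have h1 := (abs_lt.1 hr2).2
    have h2 : (r2 : ℝ) < x - a * s / 2 + v1 * s := by
      rw [hj0r] at h1
      rw [hx]
      linarith only [h1]
    have h3 : v1 * s ≤ d * s := by gcongr
    have h4 : (r2 : ℝ) ≤ rs := by
      rw [hd] at h3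
      linarith only [hx, hloc, hj0r, h1, h3]
    exact_mod_cast h4
  · -- gain
    have hlow : c1 * (W.card * PB) ≤ s * ∑ j ∈ Ico j0 (j0 + s), nn s W h j r2 := by
      have h5 : c1 * (2 * (2 * v1 + 1)) = 1 := by rw [hc1]; field_simp
      calc c1 * (W.card * PB) ≤ c1 * (2 * (2 * v1 + 1) * s * ∑ j ∈ Ico j0 (j0 + s), nn s W h j r2) :=
            mul_le_mul_of_nonneg_left hr2' hc1p.le
        _ = (c1 * (2 * (2 * v1 + 1))) * (s * ∑ j ∈ Ico j0 (j0 + s), nn s W h j r2) := by ring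
        _ = _ := by rw [h5, one_mul]
    have hup : s * ∑ j ∈ Ico j0 (9 * s ^ 2 + 1), nn s W h j rs
        ≤ c1 / 2 * (W.card * PB) + T * (8 / 9 / s) := by
      have e1 := sum_filter_add_sum_filter_not (Ico j0 (9 * s ^ 2 + 1))
        (fun j : ℕ => 2 * s ^ 2 < j) (fun j => nn s W h j rs)
      have b1 := hbeyond ((Ico j0 (9 * s ^ 2 + 1)).filter (fun j : ℕ => 2 * s ^ 2 < j)) rs
        ((filter_subset _ _).trans (by
          intro j hj; rw [mem_range]; exact (mem_Ico.1 hj).2)) (fun j hj => (mem_filter.1 hj).2)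
      have b2 : s * ∑ j ∈ (Ico j0 (9 * s ^ 2 + 1)).filter (fun j : ℕ => ¬ 2 * s ^ 2 < j),
          nn s W h j rs ≤ c1 / 2 * (W.card * PB) := by
        rw [mul_sum]
        calc _ ≤ ∑ j ∈ (Ico j0 (9 * s ^ 2 + 1)).filter (fun j : ℕ => ¬ 2 * s ^ 2 < j),
              W.card * (c1 / 4) * PP s j := by
              apply sum_le_sum
              intro j hj
              have hj2 := (mem_filter.1 hj).2
              have hj1 := (mem_Ico.1 (mem_filter.1 hj).1).1
              have hjr : (j0 : ℝ) ≤ j := by exact_mod_cast hj1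
              rw [hj0r] at hjr
              have h1 := nn_le_far s hs W h ρ V hV j rs (by omega) d (by linarith only [hV0, hv1, hdv]) (by
                refine le_trans ?_ (le_abs_self _)
                rw [hx] at hloc
                rw [hd]
                linarith only [hloc, hjr])
              calc _ ≤ _ := h1
                _ ≤ W.card * PP s j * (c1 / 4) := by
                  apply mul_le_mul_of_nonneg_left hetad
                  exact mul_nonneg hWc.le (PP_nonneg s j)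
                _ = _ := by ring
          _ ≤ ∑ j ∈ Ico j0 (9 * s ^ 2 + 1), W.card * (c1 / 4) * PP s j := by
              apply sum_le_sum_of_subset_of_nonneg (filter_subset _ _)
              intro j _ _
              have := PP_nonneg s j; positivity
          _ ≤ _ := by
              rw [← mul_sum]
              calc _ ≤ W.card * (c1 / 4) * (2 * PB) := by gcongr
                _ = _ := by ring
      rw [← e1, mul_add]
      linarith only [b1, b2]
    have hNN : NN s W h rs = ∑ j ∈ Ico 0 j0, nn s W h j rs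
        + ∑ j ∈ Ico j0 (9 * s ^ 2 + 1), nn s W h j rs := by
      unfold NN
      rw [range_eq_Ico, sum_Ico_consecutive _ (by omega) (by omega)]
    have hNNup : s * NN s W h rs ≤ T := by
      unfold NN
      have e1 := sum_filter_add_sum_filter_not (range (9 * s ^ 2 + 1))
        (fun j : ℕ => 2 * s ^ 2 < j) (fun j => nn s W h j rs)
      have b1 := hbeyond ((range (9 * s ^ 2 + 1)).filter (fun j : ℕ => 2 * s ^ 2 < j)) rs
        (filter_subset _ _) (fun j hj => (mem_filter.1 hj).2)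
      have b2 : 4 * (s * ∑ j ∈ (range (9 * s ^ 2 + 1)).filter (fun j : ℕ => ¬ 2 * s ^ 2 < j),
          nn s W h j rs) ≤ T := by
        rw [mul_sum, mul_sum]
        calc _ ≤ ∑ j ∈ (range (9 * s ^ 2 + 1)).filter (fun j : ℕ => ¬ 2 * s ^ 2 < j),
              W.card * PP s j := by
              apply sum_le_sum
              intro j hj
              have hj2 := (mem_filter.1 hj).2
              have := nn_le_mid s W h j rs (by omega)
              linarith only [this]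
          _ ≤ ∑ j ∈ range (9 * s ^ 2 + 1), W.card * PP s j := by
              apply sum_le_sum_of_subset_of_nonneg (filter_subset _ _)
              intro j _ _
              have := PP_nonneg s j; positivity
          _ = T := by rw [← mul_sum, sum_PP, hT]
      have b3 : T * (8 / 9 / s) ≤ T * (4 / 9) := by
        apply mul_le_mul_of_nonneg_left _ hTp.le
        rw [div_le_iff₀ hs0']; linarith only [hV0, hv1, hE1, hd, hdv, hsa]
      rw [← e1, mul_add]
      linarith only [hTp, b1, b2, b3]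
    have hNNpos : 0 < s * NN s W h rs := lt_of_lt_of_le (by positivity) hglob
    have hPBT : δ * T ≤ W.card * PB := by
      rw [hT]
      calc _ = W.card * (δ * 9 ^ (9 * s ^ 2)) := by ring
        _ ≤ _ := mul_le_mul_of_nonneg_left hPB hWc.le
    have h8 : T * (8 / 9 / s) ≤ T * (δ * c1 * (2 / 9)) := by
      apply mul_le_mul_of_nonneg_left _ hTp.le
      rw [div_le_iff₀ hs0']
      rw [div_le_iff₀ (by positivity)] at hsd
      linarith only [hsd]
    have h9 : c1 / 2 * (δ * T) ≤ c1 / 2 * (W.card * PB) := by gcongr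
    have h10 : δ * c1 / 8 * (s * NN s W h rs) ≤ δ * c1 / 8 * T := by gcongr
    have h11 : 0 < T * (δ * c1) := by positivity
    have h12 : s * ((1 + δ * c1 / 8) * NN s W h rs) <
        s * (∑ j ∈ Ico 0 j0, nn s W h j rs + ∑ j ∈ Ico j0 (j0 + s), nn s W h j r2) := by
      have e1 : s * ((1 + δ * c1 / 8) * NN s W h rs)
          = s * NN s W h rs + δ * c1 / 8 * (s * NN s W h rs) := by ring
      have e2 : s * NN s W h rs = s * ∑ j ∈ Ico 0 j0, nn s W h j rs
        + s * ∑ j ∈ Ico j0 (9 * s ^ 2 + 1), nn s W h j rs := by rw [hNN]; ring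
      rw [e1, mul_add]
      linarith only [hlow, hup, h8, h9, h10, h11, e2]
    exact lt_of_mul_lt_mul_left h12 hs0'.le

end Pool.Agent.Helper97
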