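import Pool.Agent.Helper97.Binom

set_option autoImplicit false

namespace Pool.Agent.Helper97

open Finset

/-- number of (weighted) configurations with `j` centres used among `9 s²`. -/
noncomputable def PP (s j : ℕ) : ℝ := ((9 * s ^ 2).choose j : ℝ) * 8 ^ (9 * s ^ 2 - j)

/-- number of independent sets with `j` centres and total size `r`. -/
noncomputable def nn {ι : Type} (s : ℕ) (W : Finset ι) (h : ι → ℕ) (j r : ℕ) : ℝ :=
  ((9 * s ^ 2).choose j : ℝ) * ∑ A ∈ W, bc (3 * (9 * s ^ 2 - j)) ((r : ℤ) - j - h A)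

lemma PP_nonneg (s j : ℕ) : 0 ≤ PP s j := by unfold PP; positivity

lemma nn_nonneg {ι : Type} (s : ℕ) (W : Finset ι) (h : ι → ℕ) (j r : ℕ) : 0 ≤ nn s W h j r := by
  unfold nn
  exact mul_nonneg (by positivity) (sum_nonneg fun A _ => bc_nonneg _ _)

lemma sum_PP (s : ℕ) : ∑ j ∈ range (9 * s ^ 2 + 1), PP s j = 9 ^ (9 * s ^ 2) :=
  sum_choose_eight _

lemma sum_PP_sq (s : ℕ) : ∑ j ∈ range (9 * s ^ 2 + 1), PP s j * ((j : ℝ) - (s : ℝ) ^ 2) ^ 2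
    = 9 ^ (9 * s ^ 2) * (8 / 9 * (s : ℝ) ^ 2) := by
  have h := sum_choose_ninth (9 * s ^ 2)
  unfold PP
  have e1 : ((9 * s ^ 2 : ℕ) : ℝ) / 9 = (s : ℝ) ^ 2 := by push_cast; ring
  have e2 : 8 * ((9 * s ^ 2 : ℕ) : ℝ) / 81 = 8 / 9 * (s : ℝ) ^ 2 := by push_cast; ring
  rw [e1, e2] at h
  exact h

/-- Chebyshev for the number of centres. -/
lemma cheb_PP (s : ℕ) (t : ℝ) (S : Finset ℕ) (hS : S ⊆ range (9 * s ^ 2 + 1))
    (ht : ∀ j ∈ S, t ≤ ((j : ℝ) - (s : ℝ) ^ 2) ^ 2) :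
    t * ∑ j ∈ S, PP s j ≤ 9 ^ (9 * s ^ 2) * (8 / 9 * (s : ℝ) ^ 2) := by
  rw [← sum_PP_sq, mul_sum]
  calc ∑ j ∈ S, t * PP s j ≤ ∑ j ∈ S, PP s j * ((j : ℝ) - (s : ℝ) ^ 2) ^ 2 := by
        apply sum_le_sum
        intro j hj
        rw [mul_comm]
        exact mul_le_mul_of_nonneg_left (ht j hj) (PP_nonneg s j)
    _ ≤ _ := by
        apply sum_le_sum_of_subset_of_nonneg hS
        intro j _ _
        exact mul_nonneg (PP_nonneg s j) (by positivity)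

lemma two_pow_three (a : ℕ) : (2 : ℝ) ^ (3 * a) = 8 ^ a := by
  rw [pow_mul]; norm_num

lemma nn_le {ι : Type} (s : ℕ) (W : Finset ι) (h : ι → ℕ) (j r : ℕ) :
    nn s W h j r ≤ W.card * PP s j := by
  unfold nn PP
  have : ∑ A ∈ W, bc (3 * (9 * s ^ 2 - j)) ((r : ℤ) - j - h A)
      ≤ ∑ A ∈ W, (8 : ℝ) ^ (9 * s ^ 2 - j) := by
    apply sum_le_sum
    intro A _
    rw [← two_pow_three]
    exact bc_le_two_pow _ _
  rw [sum_const, nsmul_eq_mul] at this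
  calc _ ≤ ((9 * s ^ 2).choose j : ℝ) * (W.card * 8 ^ (9 * s ^ 2 - j)) := by gcongr
    _ = _ := by ring

lemma nn_le_mid {ι : Type} (s : ℕ) (W : Finset ι) (h : ι → ℕ) (j r : ℕ) (hj : j ≤ 2 * s ^ 2) :
    4 * s * nn s W h j r ≤ W.card * PP s j := by
  unfold nn PP
  have h1 : ∀ A ∈ W, 4 * s * bc (3 * (9 * s ^ 2 - j)) ((r : ℤ) - j - h A)
      ≤ (8 : ℝ) ^ (9 * s ^ 2 - j) := by
    intro A _
    rw [← two_pow_three]
    apply mul_bc_le
    have : 21 * s ^ 2 ≤ 3 * (9 * s ^ 2 - j) := by omega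
    have h2 : (21 : ℝ) * s ^ 2 ≤ ((3 * (9 * s ^ 2 - j) : ℕ) : ℝ) := by exact_mod_cast this
    have : (0 : ℝ) ≤ (s : ℝ) ^ 2 := by positivity
    calc (4 * (s : ℝ)) ^ 2 = 16 * (s : ℝ) ^ 2 := by ring
      _ ≤ _ := by linarith
  have h2 := sum_le_sum h1
  rw [sum_const, nsmul_eq_mul, ← mul_sum] at h2
  calc _ = ((9 * s ^ 2).choose j : ℝ) * (4 * s * ∑ A ∈ W, bc (3 * (9 * s ^ 2 - j)) ((r : ℤ) - j - h A)) := by ring
    _ ≤ ((9 * s ^ 2).choose j : ℝ) * (W.card * 8 ^ (9 * s ^ 2 - j)) := by gcongr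
    _ = _ := by ring

/-- Far bound. -/
lemma nn_le_far {ι : Type} (s : ℕ) (hs : 0 < s) (W : Finset ι) (h : ι → ℕ) (ρ V : ℝ)
    (hV : ∑ A ∈ W, ((h A : ℝ) - ρ) ^ 2 ≤ V * s ^ 2 * W.card) (j r : ℕ) (hj : j ≤ 2 * s ^ 2)
    (d : ℝ) (hd : 0 < d)
    (hr : d * s ≤ |(r : ℝ) - (ρ + j + 3 * (9 * (s : ℝ) ^ 2 - j) / 2)|) :
    s * nn s W h j r ≤ W.card * PP s j * (V / d ^ 2 + 432 / d ^ 3) := by
  unfold nn PP
  have hs0 : (0 : ℝ) < s := by exact_mod_cast hs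
  set m := 3 * (9 * s ^ 2 - j) with hm
  have hmr : (m : ℝ) = 3 * (9 * (s : ℝ) ^ 2 - j) := by
    have : j ≤ 9 * s ^ 2 := by nlinarith [Nat.zero_le (s ^ 2)]
    rw [hm]; push_cast [Nat.cast_sub this]; ring
  have hm27 : (m : ℝ) ≤ 27 * s ^ 2 := by
    rw [hmr]
    have : (0 : ℝ) ≤ j := Nat.cast_nonneg j
    linarith
  have h1 : ∀ A ∈ W, s * bc m ((r : ℤ) - j - h A)
      ≤ (8 : ℝ) ^ (9 * s ^ 2 - j) * (((h A : ℝ) - ρ) ^ 2 / (d ^ 2 * s ^ 2) + 432 / d ^ 3) := by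
    intro A _
    rw [← two_pow_three, ← hm]
    by_cases hA : d * s / 2 ≤ |(h A : ℝ) - ρ|
    · have h4 : 4 * s * bc m ((r : ℤ) - j - h A) ≤ 2 ^ m := by
        apply mul_bc_le
        have : 21 * s ^ 2 ≤ m := by omega
        have h2 : (21 : ℝ) * s ^ 2 ≤ (m : ℝ) := by exact_mod_cast this
        have : (0 : ℝ) ≤ (s : ℝ) ^ 2 := by positivity
        calc (4 * (s : ℝ)) ^ 2 = 16 * (s : ℝ) ^ 2 := by ring
          _ ≤ _ := by linarith
      have h5 : 1 / 4 ≤ ((h A : ℝ) - ρ) ^ 2 / (d ^ 2 * s ^ 2) := by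
        rw [le_div_iff₀ (by positivity)]
        have : (d * s / 2) ^ 2 ≤ |(h A : ℝ) - ρ| ^ 2 := by gcongr
        rw [sq_abs] at this
        calc 1 / 4 * (d ^ 2 * s ^ 2) = (d * s / 2) ^ 2 := by ring
          _ ≤ _ := this
      have h6 : (0 : ℝ) ≤ 432 / d ^ 3 := by positivity
      calc s * bc m ((r : ℤ) - j - h A) ≤ 2 ^ m * (1 / 4) := by linarith
        _ ≤ _ := by
          apply mul_le_mul_of_nonneg_left _ (by positivity)
          linarith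
    · push Not at hA
      have h7 : d * s / 2 ≤ |(((r : ℤ) - j - h A : ℤ) : ℝ) - m / 2| := by
        have e : (r : ℝ) - (ρ + j + 3 * (9 * (s : ℝ) ^ 2 - j) / 2)
            = ((((r : ℤ) - j - h A : ℤ) : ℝ) - m / 2) + ((h A : ℝ) - ρ) := by
          rw [hmr]; push_cast; ring
        rw [e] at hr
        have := abs_add_le ((((r : ℤ) - j - h A : ℤ) : ℝ) - m / 2) ((h A : ℝ) - ρ)
        linarith
      have h8 := bc_far m ((r : ℤ) - j - h A) (d * s / 2) (by positivity) h7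
      have h9 : s * bc m ((r : ℤ) - j - h A) ≤ 2 ^ m * (432 / d ^ 3) := by
        rw [mul_div_assoc', le_div_iff₀ (by positivity)]
        have h10 : bc m ((r : ℤ) - j - h A) * (d * s / 2) ^ 3 ≤ 2 * (27 * s ^ 2) * 2 ^ m :=
          h8.trans (by gcongr)
        have h11 : (s : ℝ) * bc m ((r : ℤ) - j - h A) * d ^ 3 * ((s : ℝ) ^ 2)
            ≤ 2 ^ m * 432 * (s : ℝ) ^ 2 := by
          calc (s : ℝ) * bc m ((r : ℤ) - j - h A) * d ^ 3 * ((s : ℝ) ^ 2)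
              = 8 * (bc m ((r : ℤ) - j - h A) * (d * s / 2) ^ 3) := by ring
            _ ≤ 8 * (2 * (27 * (s : ℝ) ^ 2) * 2 ^ m) := by gcongr
            _ = _ := by ring
        exact le_of_mul_le_mul_right h11 (by positivity)
      have h12 : (0 : ℝ) ≤ ((h A : ℝ) - ρ) ^ 2 / (d ^ 2 * s ^ 2) := by positivity
      calc s * bc m ((r : ℤ) - j - h A) ≤ 2 ^ m * (432 / d ^ 3) := h9
        _ ≤ _ := by
          apply mul_le_mul_of_nonneg_left _ (by positivity)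
          linarith
  have h2 := sum_le_sum h1
  rw [← mul_sum, ← mul_sum, sum_add_distrib, sum_const, nsmul_eq_mul, ← sum_div] at h2
  have h3 : (∑ A ∈ W, ((h A : ℝ) - ρ) ^ 2) / (d ^ 2 * s ^ 2) + W.card * (432 / d ^ 3)
      ≤ W.card * (V / d ^ 2 + 432 / d ^ 3) := by
    have : (∑ A ∈ W, ((h A : ℝ) - ρ) ^ 2) / (d ^ 2 * s ^ 2) ≤ W.card * (V / d ^ 2) := by
      rw [div_le_iff₀ (by positivity)]
      calc _ ≤ V * s ^ 2 * W.card := hV
        _ = _ := by field_simp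
    linarith
  calc _ = ((9 * s ^ 2).choose j : ℝ) * (s * ∑ A ∈ W, bc m ((r : ℤ) - j - h A)) := by ring
    _ ≤ ((9 * s ^ 2).choose j : ℝ) * ((8 : ℝ) ^ (9 * s ^ 2 - j) *
        (W.card * (V / d ^ 2 + 432 / d ^ 3))) := by
        refine mul_le_mul_of_nonneg_left ?_ (by positivity)
        exact h2.trans (mul_le_mul_of_nonneg_left h3 (by positivity))
    _ = _ := by ring

end Pool.Agent.Helper97
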