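import Pool.Agent.Helper97.Det

set_option autoImplicit false

namespace Pool.Agent.Helper97

open Finset

open scoped Classical

variable {n : ℕ}

/-- the binomial weight of a graph. -/
noncomputable def wt (n : ℕ) (p : ℝ) (G : SimpleGraph (Fin n)) : ℝ :=
  p ^ G.edgeSet.ncard * (1 - p) ^ (n.choose 2 - G.edgeSet.ncard)

/-- all potential edges. -/
noncomputable def UU (n : ℕ) : Finset (Sym2 (Fin n)) := univ.filter (fun e => ¬ e.IsDiag)

/-- the edges of a graph as a finset. -/
noncomputable def ed (G : SimpleGraph (Fin n)) : Finset (Sym2 (Fin n)) :=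
  univ.filter (fun e => e ∈ G.edgeSet)

lemma mem_ed {G : SimpleGraph (Fin n)} {e : Sym2 (Fin n)} : e ∈ ed G ↔ e ∈ G.edgeSet := by
  simp [ed]

lemma mem_UU {e : Sym2 (Fin n)} : e ∈ UU n ↔ ¬ e.IsDiag := by simp [UU]

lemma card_UU : (UU n).card = n.choose 2 := by
  have h := SimpleGraph.card_edgeFinset_top_eq_card_choose_two (V := Fin n)
  rw [Fintype.card_fin] at h
  rw [← h]
  congr 1
  ext e
  rw [mem_UU, SimpleGraph.mem_edgeFinset, SimpleGraph.edgeSet_top]
  simp

lemma ed_subset (G : SimpleGraph (Fin n)) : ed G ⊆ UU n := by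
  intro e he
  rw [mem_UU]
  exact SimpleGraph.not_isDiag_of_mem_edgeSet G (mem_ed.1 he)

lemma ncard_edgeSet (G : SimpleGraph (Fin n)) : G.edgeSet.ncard = (ed G).card := by
  rw [← Set.ncard_coe_finset]
  congr 1
  ext e
  simp [ed]

/-- transfer of sums over graphs to sums over edge sets. -/
lemma sum_graph (f : Finset (Sym2 (Fin n)) → ℝ) :
    ∑ G : SimpleGraph (Fin n), f (ed G) = ∑ E ∈ (UU n).powerset, f E := by
  refine sum_bij' (fun G _ => ed G) (fun E _ => SimpleGraph.fromEdgeSet (↑E : Set (Sym2 (Fin n))))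
    ?_ ?_ ?_ ?_ ?_
  · intro G _
    exact mem_powerset.2 (ed_subset G)
  · intro E _; exact mem_univ _
  · intro G _
    have : (↑(ed G) : Set (Sym2 (Fin n))) = G.edgeSet := by
      ext e; simp [ed]
    simp only [this]
    exact SimpleGraph.fromEdgeSet_edgeSet G
  · intro E hE
    ext e
    rw [mem_ed, SimpleGraph.edgeSet_fromEdgeSet]
    have := mem_powerset.1 hE
    constructor
    · intro h; exact_mod_cast h.1
    · intro h
      refine ⟨by exact_mod_cast h, ?_⟩
      have h2 := mem_UU.1 (this h)
      simpa using h2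
  · intro G _; rfl

/-- the cylinder probabilities. -/
lemma cylinder (p : ℝ) (E1 E0 : Finset (Sym2 (Fin n))) (h1 : E1 ⊆ UU n) (h0 : E0 ⊆ UU n)
    (hd : Disjoint E1 E0) :
    ∑ G : SimpleGraph (Fin n), (if E1 ⊆ ed G ∧ Disjoint E0 (ed G) then wt n p G else 0)
      = p ^ E1.card * (1 - p) ^ E0.card := by
  have e1 : ∑ G : SimpleGraph (Fin n), (if E1 ⊆ ed G ∧ Disjoint E0 (ed G) then wt n p G else 0)
      = ∑ E ∈ (UU n).powerset, (if E1 ⊆ E ∧ Disjoint E0 E then
          p ^ E.card * (1 - p) ^ ((UU n).card - E.card) else 0) := by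
    rw [← sum_graph (fun E => if E1 ⊆ E ∧ Disjoint E0 E then
          p ^ E.card * (1 - p) ^ ((UU n).card - E.card) else 0)]
    apply sum_congr rfl
    intro G _
    unfold wt
    rw [ncard_edgeSet, card_UU]
  rw [e1]
  have e2 := Finset.prod_add (fun e : Sym2 (Fin n) => if e ∈ E0 then 0 else p)
    (fun e => if e ∈ E1 then 0 else 1 - p) (UU n)
  have e3 : ∏ e ∈ UU n, ((if e ∈ E0 then 0 else p) + (if e ∈ E1 then 0 else 1 - p))
      = p ^ E1.card * (1 - p) ^ E0.card := by
    have : ∀ e ∈ UU n, ((if e ∈ E0 then 0 else p) + (if e ∈ E1 then 0 else 1 - p))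
        = (if e ∈ E1 then p else 1) * (if e ∈ E0 then (1 - p) else 1) := by
      intro e _
      by_cases h : e ∈ E1
      · have h' : e ∉ E0 := Finset.disjoint_left.1 hd h
        simp [h, h']
      · by_cases h' : e ∈ E0
        · simp [h, h']
        · simp [h, h']
    rw [prod_congr rfl this, prod_mul_distrib, prod_ite, prod_ite]
    simp only [prod_const, one_pow, mul_one]
    have f1 : (UU n).filter (fun e => e ∈ E1) = E1 := by
      ext e; simp only [mem_filter]; exact ⟨fun h => h.2, fun h => ⟨h1 h, h⟩⟩
    have f0 : (UU n).filter (fun e => e ∈ E0) = E0 := by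
      ext e; simp only [mem_filter]; exact ⟨fun h => h.2, fun h => ⟨h0 h, h⟩⟩
    rw [f1, f0]
  rw [← e3, e2]
  apply sum_congr rfl
  intro E hE
  have hE' := mem_powerset.1 hE
  have g1 : ∏ e ∈ E, (if e ∈ E0 then (0 : ℝ) else p) = if Disjoint E0 E then p ^ E.card else 0 := by
    split_ifs with h
    · rw [← prod_const]
      apply prod_congr rfl
      intro e he
      rw [if_neg]
      intro h'; exact Finset.disjoint_left.1 h h' he
    · rw [Finset.not_disjoint_iff] at h
      obtain ⟨e, he0, heE⟩ := h
      exact prod_eq_zero heE (if_pos he0)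
  have g2 : ∏ e ∈ UU n \ E, (if e ∈ E1 then (0 : ℝ) else 1 - p)
      = if E1 ⊆ E then (1 - p) ^ ((UU n).card - E.card) else 0 := by
    split_ifs with h
    · rw [← card_sdiff_of_subset hE', ← prod_const]
      apply prod_congr rfl
      intro e he
      rw [if_neg]
      intro h'; exact (mem_sdiff.1 he).2 (h h')
    · rw [not_subset] at h
      obtain ⟨e, he1, heE⟩ := h
      exact prod_eq_zero (mem_sdiff.2 ⟨h1 he1, heE⟩) (if_pos he1)
  rw [g1, g2]
  by_cases ha : Disjoint E0 E <;> by_cases hb : E1 ⊆ E <;> simp [ha, hb]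

lemma sum_wt (p : ℝ) : ∑ G : SimpleGraph (Fin n), wt n p G = 1 := by
  have h := cylinder (n := n) p ∅ ∅ (empty_subset _) (empty_subset _) (disjoint_empty_left _)
  simpa using h

lemma wt_nonneg {p : ℝ} (h0 : 0 ≤ p) (h1 : p ≤ 1) (G : SimpleGraph (Fin n)) : 0 ≤ wt n p G := by
  unfold wt
  have : 0 ≤ 1 - p := by linarith
  positivity

/-- edges from `z` to `S` -/
noncomputable def star (z : Fin n) (S : Finset (Fin n)) : Finset (Sym2 (Fin n)) :=
  S.image (fun a => s(z, a))

/-- potential edges meeting `insert z S`. -/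
noncomputable def touch (z : Fin n) (S : Finset (Fin n)) : Finset (Sym2 (Fin n)) :=
  (UU n).filter (fun e => ∃ x ∈ insert z S, x ∈ e)

lemma card_touch (z : Fin n) (S : Finset (Fin n)) (hS : S.card = 3) :
    (touch z S).card ≤ 4 * n := by
  have h1 : touch z S ⊆ (insert z S).biUnion (fun x => univ.image (fun y => s(x, y))) := by
    intro e he
    obtain ⟨-, x, hx, hxe⟩ := mem_filter.1 he
    rw [mem_biUnion]
    refine ⟨x, hx, ?_⟩
    obtain ⟨y, rfl⟩ := Sym2.mem_iff_exists.1 hxe
    exact mem_image_of_mem _ (mem_univ y)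
  have h2 : ∀ x ∈ insert z S, (univ.image (fun y : Fin n => s(x, y))).card ≤ n := by
    intro x _
    calc _ ≤ (univ : Finset (Fin n)).card := card_image_le
      _ = n := by simp
  calc _ ≤ _ := card_le_card h1
    _ ≤ (insert z S).card * n := card_biUnion_le_card_mul _ _ _ h2
    _ ≤ 4 * n := by
      apply Nat.mul_le_mul_right
      have := card_insert_le z S
      omega

/-- the cylinder event implies that `z` is a claw centre with leaf set `S`. -/
lemma claw_of_cyl {G : SimpleGraph (Fin n)} {z : Fin n} {S : Finset (Fin n)} (hz : z ∉ S)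
    (hS : S.card = 3) (h1 : star z S ⊆ ed G) (h0 : Disjoint (touch z S \ star z S) (ed G)) :
    nb G z = S ∧ z ∈ ctr G := by
  have key : ∀ x ∈ insert z S, ∀ y, G.Adj x y → s(x, y) ∈ star z S := by
    intro x hx y hxy
    by_contra hcon
    have h2 : s(x, y) ∈ ed G := mem_ed.2 ((SimpleGraph.mem_edgeSet G).2 hxy)
    have h3 : s(x, y) ∈ touch z S := by
      refine mem_filter.2 ⟨?_, x, hx, Sym2.mem_mk_left x y⟩
      exact ed_subset G h2
    exact Finset.disjoint_left.1 h0 (mem_sdiff.2 ⟨h3, hcon⟩) h2
  have hnb : nb G z = S := by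
    ext a
    rw [mem_nb]
    constructor
    · intro h
      obtain ⟨b, hb, hbe⟩ := mem_image.1 (key z (mem_insert_self z S) a h)
      have : b = a := by
        rcases Sym2.eq_iff.1 hbe with ⟨_, h⟩ | ⟨h1, h2⟩
        · exact h
        · rw [h2, ← h1]
      rw [← this]; exact hb
    · intro h
      have := h1 (mem_image_of_mem _ h)
      exact (SimpleGraph.mem_edgeSet G).1 (mem_ed.1 this)
  refine ⟨hnb, mem_ctr.2 ⟨by rw [hnb]; exact hS, ?_⟩⟩
  intro a ha b hb
  rw [hnb] at ha
  obtain ⟨c, hc, hce⟩ := mem_image.1 (key a (mem_insert_of_mem ha) b (mem_nb.1 hb))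
  rcases Sym2.eq_iff.1 hce with ⟨h, _⟩ | ⟨h, _⟩
  · exact absurd (h ▸ ha) hz
  · exact h.symm

lemma expect_ctr (hn : 0 < n) (p : ℝ) (h0 : 0 ≤ p) (h1 : p ≤ 1) :
    (n : ℝ) * ((n - 1).choose 3 : ℝ) * p ^ 3 * (1 - p) ^ (4 * n)
      ≤ ∑ G : SimpleGraph (Fin n), wt n p G * (ctr G).card := by
  have e1 : ∑ G : SimpleGraph (Fin n), wt n p G * (ctr G).card
      = ∑ z : Fin n, ∑ G : SimpleGraph (Fin n), (if z ∈ ctr G then wt n p G else 0) := by
    rw [sum_comm]
    apply sum_congr rfl
    intro G _
    rw [← sum_filter, sum_const, nsmul_eq_mul, mul_comm]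
    congr 3
    ext z; simp
  have e2 : ∀ z : Fin n, ((n - 1).choose 3 : ℝ) * p ^ 3 * (1 - p) ^ (4 * n)
      ≤ ∑ G : SimpleGraph (Fin n), (if z ∈ ctr G then wt n p G else 0) := by
    intro z
    have h2 : ∀ G : SimpleGraph (Fin n), ∑ S ∈ (univ.erase z).powersetCard 3,
        (if star z S ⊆ ed G ∧ Disjoint (touch z S \ star z S) (ed G) then wt n p G else 0)
        ≤ (if z ∈ ctr G then wt n p G else 0) := by
      intro G
      by_cases hex : ∃ S ∈ (univ.erase z).powersetCard 3,
          star z S ⊆ ed G ∧ Disjoint (touch z S \ star z S) (ed G)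
      · obtain ⟨S, hS, hSG⟩ := hex
        have hS' := mem_powersetCard.1 hS
        have hzS : z ∉ S := fun h => by simpa using hS'.1 h
        have hcl := claw_of_cyl hzS hS'.2 hSG.1 hSG.2
        rw [if_pos hcl.2]
        rw [sum_eq_single_of_mem S hS]
        · rw [if_pos hSG]
        · intro T hT hne
          rw [if_neg]
          intro hTG
          have hT' := mem_powersetCard.1 hT
          have hzT : z ∉ T := fun h => by simpa using hT'.1 h
          have := claw_of_cyl hzT hT'.2 hTG.1 hTG.2
          exact hne (this.1.symm.trans hcl.1)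
      · push Not at hex
        rw [sum_eq_zero]
        · split_ifs
          · exact wt_nonneg h0 h1 G
          · exact le_rfl
        · intro S hS
          rw [if_neg]
          rintro ⟨ha, hb⟩
          exact hex S hS ha hb
    calc ((n - 1).choose 3 : ℝ) * p ^ 3 * (1 - p) ^ (4 * n)
        = ∑ S ∈ ((univ : Finset (Fin n)).erase z).powersetCard 3, p ^ 3 * (1 - p) ^ (4 * n) := by
          rw [sum_const, card_powersetCard, card_erase_of_mem (mem_univ z), card_univ,
            Fintype.card_fin, nsmul_eq_mul]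
          ring
      _ ≤ ∑ S ∈ ((univ : Finset (Fin n)).erase z).powersetCard 3, ∑ G : SimpleGraph (Fin n),
          (if star z S ⊆ ed G ∧ Disjoint (touch z S \ star z S) (ed G) then wt n p G else 0) := by
          apply sum_le_sum
          intro S hS
          have hS' := mem_powersetCard.1 hS
          have hzS : z ∉ S := fun h => by simpa using hS'.1 h
          have hst : star z S ⊆ UU n := by
            intro e he
            obtain ⟨a, ha, rfl⟩ := mem_image.1 he
            rw [mem_UU]
            intro hd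
            have : z = a := by simpa using hd
            exact hzS (this ▸ ha)
          have htu : touch z S \ star z S ⊆ UU n :=
            sdiff_subset.trans (filter_subset _ _)
          rw [cylinder p _ _ hst htu disjoint_sdiff]
          have hc : (star z S).card = 3 := by
            unfold star
            rw [card_image_of_injective, hS'.2]
            intro a b hab
            rcases Sym2.eq_iff.1 hab with ⟨_, h⟩ | ⟨h1, h2⟩
            · exact h
            · rw [h2, ← h1]
          rw [hc]
          apply mul_le_mul_of_nonneg_left _ (by positivity)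
          apply pow_le_pow_of_le_one (by linarith) (by linarith)
          exact (card_le_card sdiff_subset).trans (card_touch z S hS'.2)
      _ = ∑ G : SimpleGraph (Fin n), ∑ S ∈ ((univ : Finset (Fin n)).erase z).powersetCard 3,
          (if star z S ⊆ ed G ∧ Disjoint (touch z S \ star z S) (ed G) then wt n p G else 0) :=
          sum_comm
      _ ≤ _ := sum_le_sum fun G _ => h2 G
  rw [e1]
  calc _ = ∑ z : Fin n, ((n - 1).choose 3 : ℝ) * p ^ 3 * (1 - p) ^ (4 * n) := by
        rw [sum_const, card_univ, Fintype.card_fin, nsmul_eq_mul]; ring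
    _ ≤ _ := sum_le_sum fun z _ => e2 z

/-- embedded paths with `k` edges. -/
noncomputable def paths (G : SimpleGraph (Fin n)) (k : ℕ) : Finset (Fin (k + 1) → Fin n) :=
  univ.filter (fun f => Function.Injective f ∧ ∀ i : Fin k, G.Adj (f i.castSucc) (f i.succ))

lemma card_conn_le (G : SimpleGraph (Fin n)) :
    (conn G).card ≤ ∑ k ∈ range n, (paths G k).card := by
  have h : conn G ⊆ (range n).biUnion
      (fun k => (paths G k).image (fun f => (f 0, f (Fin.last k)))) := by
    rintro ⟨u, v⟩ huv
    have hr : G.Reachable u v := (mem_filter.1 huv).2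
    obtain ⟨w, hw⟩ := hr.exists_isPath
    rw [mem_biUnion]
    refine ⟨w.length, ?_, ?_⟩
    · rw [mem_range]
      have := hw.length_lt
      rwa [Fintype.card_fin] at this
    · rw [mem_image]
      refine ⟨fun i => w.getVert i, ?_, ?_⟩
      · unfold paths
        rw [mem_filter]
        refine ⟨mem_univ _, ?_, ?_⟩
        · intro i j hij
          apply Fin.ext
          have hi : (i : ℕ) ≤ w.length := Nat.lt_succ_iff.1 i.2
          have hj : (j : ℕ) ≤ w.length := Nat.lt_succ_iff.1 j.2
          exact hw.getVert_injOn hi hj hij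
        · intro i
          simp only [Fin.val_castSucc, Fin.val_succ]
          exact w.adj_getVert_succ i.2
      · simp
  calc _ ≤ _ := card_le_card h
    _ ≤ ∑ k ∈ range n, ((paths G k).image (fun f => (f 0, f (Fin.last k)))).card :=
      card_biUnion_le
    _ ≤ _ := sum_le_sum fun k _ => card_image_le

lemma expect_paths (p : ℝ) (h0 : 0 ≤ p) (k : ℕ) :
    ∑ G : SimpleGraph (Fin n), wt n p G * (paths G k).card ≤ (n : ℝ) ^ (k + 1) * p ^ k := by
  have e1 : ∑ G : SimpleGraph (Fin n), wt n p G * (paths G k).card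
      = ∑ f : Fin (k + 1) → Fin n, ∑ G : SimpleGraph (Fin n),
        (if Function.Injective f ∧ ∀ i : Fin k, G.Adj (f i.castSucc) (f i.succ)
          then wt n p G else 0) := by
    rw [sum_comm]
    apply sum_congr rfl
    intro G _
    rw [← sum_filter, sum_const, nsmul_eq_mul, mul_comm]
    rfl
  rw [e1]
  have e2 : ∀ f : Fin (k + 1) → Fin n, ∑ G : SimpleGraph (Fin n),
        (if Function.Injective f ∧ ∀ i : Fin k, G.Adj (f i.castSucc) (f i.succ)
          then wt n p G else 0) ≤ p ^ k := by
    intro f
    by_cases hf : Function.Injective f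
    · set E1 : Finset (Sym2 (Fin n)) := univ.image (fun i : Fin k => s(f i.castSucc, f i.succ))
        with hE1
      have hinj : Function.Injective (fun i : Fin k => s(f i.castSucc, f i.succ)) := by
        intro i j hij
        rcases Sym2.eq_iff.1 hij with ⟨h, _⟩ | ⟨h, h'⟩
        · exact Fin.castSucc_injective k (hf h)
        · have a1 := congrArg Fin.val (hf h)
          have a2 := congrArg Fin.val (hf h')
          simp only [Fin.val_castSucc, Fin.val_succ] at a1 a2
          omega
      have hcard : E1.card = k := by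
        rw [hE1, card_image_of_injective _ hinj, card_univ, Fintype.card_fin]
      have hsub : E1 ⊆ UU n := by
        intro e he
        obtain ⟨i, -, rfl⟩ := mem_image.1 he
        rw [mem_UU]
        intro hd
        have h : f i.castSucc = f i.succ := by simpa using hd
        have := congrArg Fin.val (hf h)
        simp at this
      have hc := cylinder p E1 ∅ hsub (empty_subset _) (disjoint_empty_right _)
      rw [hcard, card_empty, pow_zero, mul_one] at hc
      rw [← hc]
      apply le_of_eq
      apply sum_congr rfl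
      intro G _
      apply if_congr _ rfl rfl
      constructor
      · rintro ⟨-, h⟩
        refine ⟨?_, disjoint_empty_left _⟩
        intro e he
        obtain ⟨i, -, rfl⟩ := mem_image.1 he
        exact mem_ed.2 ((SimpleGraph.mem_edgeSet G).2 (h i))
      · rintro ⟨h, -⟩
        refine ⟨hf, fun i => ?_⟩
        have := h (mem_image_of_mem _ (mem_univ i))
        exact (SimpleGraph.mem_edgeSet G).1 (mem_ed.1 this)
    · have : ∀ G : SimpleGraph (Fin n),
        (if Function.Injective f ∧ ∀ i : Fin k, G.Adj (f i.castSucc) (f i.succ)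
          then wt n p G else 0) = 0 := fun G => if_neg (fun h => hf h.1)
      simp only [this, sum_const_zero]
      positivity
  calc _ ≤ ∑ f : Fin (k + 1) → Fin n, p ^ k := sum_le_sum fun f _ => e2 f
    _ = _ := by
      rw [sum_const, card_univ, Fintype.card_fun, Fintype.card_fin, Fintype.card_fin,
        nsmul_eq_mul]
      push_cast; ring

lemma expect_conn (hn : 0 < n) (c : ℝ) (h0 : 0 ≤ c) (h1 : c ≤ 1 / 2) :
    ∑ G : SimpleGraph (Fin n), wt n (c / n) G * (conn G).card ≤ 2 * n := by
  have hn0 : (0 : ℝ) < n := by exact_mod_cast hn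
  have hn1 : (1 : ℝ) ≤ n := by exact_mod_cast hn
  have hp0 : 0 ≤ c / n := by positivity
  have hp1 : c / n ≤ 1 := by
    rw [div_le_one hn0]; linarith
  calc ∑ G : SimpleGraph (Fin n), wt n (c / n) G * (conn G).card
      ≤ ∑ G : SimpleGraph (Fin n), wt n (c / n) G * ∑ k ∈ range n, ((paths G k).card : ℝ) := by
        apply sum_le_sum
        intro G _
        apply mul_le_mul_of_nonneg_left _ (wt_nonneg hp0 hp1 G)
        exact_mod_cast card_conn_le G
    _ = ∑ k ∈ range n, ∑ G : SimpleGraph (Fin n), wt n (c / n) G * (paths G k).card := by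
        rw [sum_comm]
        apply sum_congr rfl
        intro G _
        rw [mul_sum]
    _ ≤ ∑ k ∈ range n, (n : ℝ) ^ (k + 1) * (c / n) ^ k := by
        apply sum_le_sum
        intro k _
        exact expect_paths (c / n) hp0 k
    _ = n * ∑ k ∈ range n, c ^ k := by
        rw [mul_sum]
        apply sum_congr rfl
        intro k _
        rw [div_pow, pow_succ]
        field_simp
    _ ≤ n * ∑ k ∈ range n, (1 / 2 : ℝ) ^ k := by
        apply mul_le_mul_of_nonneg_left _ hn0.le
        apply sum_le_sum
        intro k _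
        gcongr
    _ ≤ n * 2 := by
        apply mul_le_mul_of_nonneg_left _ hn0.le
        rw [geom_sum_eq (by norm_num)]
        have : (0 : ℝ) < (1 / 2) ^ n := by positivity
        rw [div_le_iff_of_neg (by norm_num)]
        linarith
    _ = 2 * n := by ring

end Pool.Agent.Helper97
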