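import Mathlib
import Pool.Agent.Helper36.Ses.Defs

/-!
# Places of function fields of curves, part A: valuations and linear independence
-/

open Polynomial

namespace Seshadri

variable {k κ : Type} [Field k] [Field κ] [Algebra k κ]

namespace Place

variable (v : Place k κ)

theorem ord_one : v.ord 1 = 0 := by
  have := v.ord_algebraMap 1
  rwa [map_one] at this

/-- the multiplicative valuation attached to a place -/
noncomputable def val : Valuation κ (WithZero (Multiplicative ℤ)) where
  toFun x := open Classical in if x = 0 then 0 else WithZero.exp (-(v.ord x))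
  map_zero' := by simp
  map_one' := by simp [v.ord_one]
  map_mul' x y := by
    by_cases hx : x = 0
    · simp [hx]
    by_cases hy : y = 0
    · simp [hy]
    simp only [hx, hy, mul_eq_zero, or_self, if_false, v.ord_mul x y hx hy]
    rw [← WithZero.exp_add]
    congr 1
    ring
  map_add_le_max' x y := by
    by_cases hx : x = 0
    · subst hx
      rw [zero_add]
      exact le_max_right _ _
    by_cases hy : y = 0
    · subst hy
      rw [add_zero]
      exact le_max_left _ _
    by_cases hxy : x + y = 0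
    · simp [hxy]
    simp only [hx, hy, hxy, if_false]
    have h := v.ord_add x y hx hy hxy
    rw [le_max_iff]
    rcases min_le_iff.1 h with h | h
    · left
      rw [WithZero.exp_le_exp]
      omega
    · right
      rw [WithZero.exp_le_exp]
      omega

theorem val_of_ne {x : κ} (hx : x ≠ 0) : v.val x = WithZero.exp (-(v.ord x)) := by
  show (open Classical in if x = 0 then 0 else WithZero.exp (-(v.ord x))) = _
  rw [if_neg hx]

theorem val_algebraMap (c : k) (hc : c ≠ 0) : v.val (algebraMap k κ c) = 1 := by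
  rw [v.val_of_ne ((_root_.map_ne_zero _).2 hc), v.ord_algebraMap]
  rfl

theorem val_lt_one_iff {x : κ} (hx : x ≠ 0) : v.val x < 1 ↔ 0 < v.ord x := by
  rw [v.val_of_ne hx, ← WithZero.exp_zero, WithZero.exp_lt_exp]
  omega

theorem val_le_one_iff {x : κ} (hx : x ≠ 0) : v.val x ≤ 1 ↔ 0 ≤ v.ord x := by
  rw [v.val_of_ne hx, ← WithZero.exp_zero, WithZero.exp_le_exp]
  omega

theorem ord_inv (x : κ) : v.ord x⁻¹ = - v.ord x := by
  by_cases hx : x = 0
  · simp [hx, v.ord_zero]
  have h := v.ord_mul x x⁻¹ hx (inv_ne_zero hx)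
  rw [mul_inv_cancel₀ hx, v.ord_one] at h
  omega

theorem ord_zpow {x : κ} (hx : x ≠ 0) (m : ℤ) : v.ord (x ^ m) = m * v.ord x := by
  have h : v.val (x ^ m) = WithZero.exp (-(m * v.ord x)) := by
    rw [map_zpow₀, v.val_of_ne hx, ← WithZero.exp_zsmul, smul_eq_mul]
    congr 1
    ring
  rw [v.val_of_ne (zpow_ne_zero m hx), WithZero.exp_inj] at h
  omega

theorem ord_pow {x : κ} (hx : x ≠ 0) (m : ℕ) : v.ord (x ^ m) = m * v.ord x := by
  have := v.ord_zpow hx (m : ℤ)
  rwa [zpow_natCast] at this

theorem ord_div {x y : κ} (hx : x ≠ 0) (hy : y ≠ 0) : v.ord (x / y) = v.ord x - v.ord y := by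
  rw [div_eq_mul_inv, v.ord_mul _ _ hx (inv_ne_zero hy), v.ord_inv]
  ring

theorem ord_neg (x : κ) : v.ord (-x) = v.ord x := by
  by_cases hx : x = 0
  · simp [hx]
  have h : v.val (-x) = v.val x := Valuation.map_neg _ _
  rw [v.val_of_ne hx, v.val_of_ne (neg_ne_zero.2 hx), WithZero.exp_inj] at h
  omega

/-- strict triangle inequality -/
theorem ord_add_eq {x y : κ} (hx : x ≠ 0) (h : y = 0 ∨ v.ord x < v.ord y) :
    x + y ≠ 0 ∧ v.ord (x + y) = v.ord x := by
  rcases h with h | h
  · simp [h, hx]
  by_cases hy : y = 0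
  · simp [hy, hx]
  have h1 : v.val (x + y) = v.val x := by
    refine Valuation.map_add_eq_of_lt_left _ ?_
    rw [v.val_of_ne hx, v.val_of_ne hy, WithZero.exp_lt_exp]
    omega
  have h2 : x + y ≠ 0 := by
    intro h0
    rw [h0, map_zero, v.val_of_ne hx] at h1
    exact WithZero.exp_ne_zero h1.symm
  refine ⟨h2, ?_⟩
  rw [v.val_of_ne hx, v.val_of_ne h2, WithZero.exp_inj] at h1
  omega

end Place

/-- elements with independent values are linearly independent -/
theorem linearIndependent_of_val {F : IntermediateField k κ} {Γ₀ : Type}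
    [LinearOrderedCommGroupWithZero Γ₀] (w : Valuation κ Γ₀) {ι : Type} [Finite ι] (a : ι → κ)
    (h0 : ∀ i, a i ≠ 0)
    (h : ∀ (g g' : F), g ≠ 0 → g' ≠ 0 → ∀ i j, i ≠ j → w (g * a i) ≠ w (g' * a j)) :
    LinearIndependent F a := by
  classical
  have := Fintype.ofFinite ι
  rw [Fintype.linearIndependent_iff]
  intro g hg
  by_contra hcon
  push Not at hcon
  obtain ⟨i0, hi0⟩ := hcon
  set s : Finset ι := Finset.univ.filter (fun i => g i ≠ 0) with hs
  have hne : s.Nonempty := ⟨i0, by simp [hs, hi0]⟩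
  obtain ⟨j, hj, hmax⟩ := Finset.exists_max_image s (fun i => w ((g i : κ) * a i)) hne
  have hgj : g j ≠ 0 := by simpa [hs] using hj
  have hsum : ∑ i ∈ s, (g i : κ) * a i = 0 := by
    rw [← hg]
    rw [← Finset.sum_filter_add_sum_filter_not Finset.univ (fun i => g i ≠ 0)]
    rw [Finset.sum_eq_zero (s := Finset.univ.filter (fun i => ¬ g i ≠ 0)), add_zero]
    · rfl
    · intro i hi
      have : g i = 0 := by simpa using hi
      rw [this, zero_smul]
  have h1 := Valuation.map_sum_eq_of_lt w (s := s) (f := fun i => (g i : κ) * a i) hj (by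
    intro i hi
    rw [Finset.mem_sdiff, Finset.mem_singleton] at hi
    have hgi : g i ≠ 0 := by simpa [hs] using hi.1
    exact lt_of_le_of_ne (hmax i hi.1) (h _ _ hgi hgj i j hi.2))
  rw [hsum, map_zero] at h1
  have h2 : (g j : κ) * a j ≠ 0 := by
    refine mul_ne_zero ?_ (h0 j)
    simpa using hgj
  exact (map_ne_zero w).2 h2 h1.symm

section

variable {Γ₀ : Type} [LinearOrderedCommGroupWithZero Γ₀] (w : Valuation κ Γ₀)

theorem val_aeval_le_one (hw : ∀ c : k, c ≠ 0 → w (algebraMap k κ c) = 1) {f : κ}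
    (hf : w f ≤ 1) (p : k[X]) : w (aeval f p) ≤ 1 := by
  rw [aeval_eq_sum_range]
  refine Valuation.map_sum_le _ ?_
  intro i _
  rw [Algebra.smul_def, map_mul, map_pow]
  have h1 : w (algebraMap k κ (p.coeff i)) ≤ 1 := by
    by_cases hc : p.coeff i = 0
    · simp [hc]
    · rw [hw _ hc]
  exact mul_le_one' h1 (pow_le_one' hf i)

theorem val_aeval_eq_one (hw : ∀ c : k, c ≠ 0 → w (algebraMap k κ c) = 1) {f : κ}
    (hf : w f < 1) (p : k[X]) (hp : p.coeff 0 ≠ 0) : w (aeval f p) = 1 := by
  have h := congrArg (aeval f) (divX_mul_X_add p)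
  rw [map_add, map_mul, aeval_X, aeval_C] at h
  rw [← h]
  have h1 : w (aeval f p.divX * f) < w (algebraMap k κ (p.coeff 0)) := by
    rw [hw _ hp, map_mul]
    exact mul_lt_one_of_nonneg_of_lt_one_right (val_aeval_le_one w hw hf.le _) zero_le hf
  rw [Valuation.map_add_eq_of_lt_right _ h1, hw _ hp]

end

theorem exists_pow_mul {p : k[X]} (hp : p ≠ 0) :
    ∃ (m : ℕ) (q : k[X]), p = X ^ m * q ∧ q.coeff 0 ≠ 0 := by
  obtain ⟨q, h1, h2⟩ := exists_eq_pow_rootMultiplicity_mul_and_not_dvd p hp 0
  refine ⟨p.rootMultiplicity 0, q, by simpa using h1, ?_⟩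
  rw [C_0, sub_zero, X_dvd_iff] at h2
  exact h2

/-- on `k(f)` all valuations at which `f` has positive valuation are proportional -/
theorem exists_zpow {f g : κ} (hf : f ≠ 0) (hg : g ∈ IntermediateField.adjoin k {f})
    (hg0 : g ≠ 0) : ∃ m : ℤ, ∀ (Γ₀ : Type) [LinearOrderedCommGroupWithZero Γ₀]
      (w : Valuation κ Γ₀), (∀ c : k, c ≠ 0 → w (algebraMap k κ c) = 1) → w f < 1 →
      w g = w f ^ m := by
  rw [IntermediateField.mem_adjoin_simple_iff] at hg
  obtain ⟨r, s, rfl⟩ := hg
  have hr : aeval f r ≠ 0 := by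
    intro h
    exact hg0 (by rw [h, zero_div])
  have hs : aeval f s ≠ 0 := by
    intro h
    exact hg0 (by rw [h, div_zero])
  have hr' : r ≠ 0 := by
    rintro rfl
    simp at hr
  have hs' : s ≠ 0 := by
    rintro rfl
    simp at hs
  obtain ⟨m, q, rfl, hq⟩ := exists_pow_mul hr'
  obtain ⟨m', q', rfl, hq'⟩ := exists_pow_mul hs'
  refine ⟨m - m', ?_⟩
  intro Γ₀ _ w hw hwf
  have hwf0 : w f ≠ 0 := (map_ne_zero w).2 hf
  rw [map_div₀, map_mul, map_mul, map_mul, map_mul, map_pow, map_pow, map_pow, map_pow, aeval_X,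
    val_aeval_eq_one w hw hwf q hq, val_aeval_eq_one w hw hwf q' hq', mul_one, mul_one,
    zpow_sub₀ hwf0, zpow_natCast, zpow_natCast]

section AlgClosed

variable [IsAlgClosed k]

theorem transcendental_of_ne {f : κ} (hf : ∀ c : k, f ≠ algebraMap k κ c) :
    Transcendental k f := by
  intro halg
  have hint : IsIntegral k f := halg.isIntegral
  have h1 := IsAlgClosed.degree_eq_one_of_irreducible k (minpoly.irreducible hint)
  obtain ⟨c, hc⟩ := minpoly.mem_range_of_degree_eq_one k f h1
  exact hf c hc.symm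

omit [IsAlgClosed k] in
theorem ne_zero_of_ne {f : κ} (hf : ∀ c : k, f ≠ algebraMap k κ c) : f ≠ 0 := by
  intro h
  exact hf 0 (by rw [h, map_zero])

omit [IsAlgClosed k] in
theorem inv_ne_of_ne {f : κ} (hf : ∀ c : k, f ≠ algebraMap k κ c) :
    ∀ c : k, f⁻¹ ≠ algebraMap k κ c := by
  intro c hc
  refine hf c⁻¹ ?_
  rw [map_inv₀, ← hc, inv_inv]

/-- on `k(x)` a valuation with `w (x - c) = 1` for all `c` is trivial -/
theorem val_eq_one_of_residue {Γ₀ : Type} [LinearOrderedCommGroupWithZero Γ₀]
    (w : Valuation κ Γ₀) (hw : ∀ c : k, c ≠ 0 → w (algebraMap k κ c) = 1) {x : κ}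
    (hx : ∀ c : k, w (x - algebraMap k κ c) = 1) {g : κ}
    (hg : g ∈ IntermediateField.adjoin k {x}) (hg0 : g ≠ 0) : w g = 1 := by
  have key : ∀ p : k[X], p ≠ 0 → w (aeval x p) = 1 := by
    intro p hp
    have h := (IsAlgClosed.splits p).eq_prod_roots
    rw [h, map_mul, aeval_C, map_mul, hw _ (leadingCoeff_ne_zero.2 hp), one_mul]
    rw [map_multiset_prod, map_multiset_prod, Multiset.map_map, Multiset.map_map]
    refine Multiset.prod_eq_one ?_
    intro y hy
    rw [Multiset.mem_map] at hy
    obtain ⟨c, -, rfl⟩ := hy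
    simp only [Function.comp_apply, map_sub, aeval_X, aeval_C]
    exact hx c
  rw [IntermediateField.mem_adjoin_simple_iff] at hg
  obtain ⟨r, s, rfl⟩ := hg
  have hr : r ≠ 0 := by
    rintro rfl
    simp at hg0
  have hs : s ≠ 0 := by
    rintro rfl
    simp at hg0
  rw [map_div₀, key r hr, key s hs, div_one]

end AlgClosed

/-- `κ/k` is the function field of a curve: finitely generated of transcendence degree one. -/
structure IsCurveField (k κ : Type) [Field k] [Field κ] [Algebra k κ] : Prop where
  trdeg : Algebra.trdeg k κ = 1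
  fg : ∃ S : Finset κ, IntermediateField.adjoin k (S : Set κ) = ⊤

variable [IsAlgClosed k]

/-- (P2') the extension `κ / k(f)` is finite for non-constant `f` -/
theorem Place.finite_adjoin (h : IsCurveField k κ) (f : κ) (hf : ∀ c : k, f ≠ algebraMap k κ c) :
    FiniteDimensional (IntermediateField.adjoin k {f}) κ := by
  have ht := transcendental_of_ne hf
  have hind : AlgebraicIndependent k (fun _ : Unit => f) :=
    algebraicIndependent_unique_type_iff.2 ht
  have hb : IsTranscendenceBasis k (fun _ : Unit => f) :=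
    hind.isTranscendenceBasis_of_trdeg_le_of_finite (by rw [h.trdeg]; simp)
  have halg := hb.isAlgebraic_field
  rw [Set.range_const] at halg
  obtain ⟨S, hS⟩ := h.fg
  have hfin : FiniteDimensional (IntermediateField.adjoin k {f})
      (IntermediateField.adjoin (IntermediateField.adjoin k {f}) (S : Set κ)) :=
    IntermediateField.finiteDimensional_adjoin fun x _ => (halg.isAlgebraic x).isIntegral
  have htop : IntermediateField.adjoin (IntermediateField.adjoin k {f}) (S : Set κ) = ⊤ := by
    rw [eq_top_iff]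
    intro x _
    have hx : x ∈ IntermediateField.adjoin k (S : Set κ) := by rw [hS]; trivial
    have hle : IntermediateField.adjoin k (S : Set κ) ≤
        (IntermediateField.adjoin (IntermediateField.adjoin k {f}) (S : Set κ)).restrictScalars
          k := by
      rw [IntermediateField.adjoin_le_iff]
      exact IntermediateField.subset_adjoin _ _
    exact hle hx
  rw [htop] at hfin
  exact Module.Finite.equiv (IntermediateField.topEquiv (F := IntermediateField.adjoin k {f})
    (E := κ)).toLinearEquiv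

end Seshadri
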