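import Mathlib
import Pool.Agent.Helper97.SesPlacesA

/-!
# Places of function fields of curves, part B: residues, approximation, existence of places
-/

open Polynomial

namespace Seshadri

variable {k κ : Type} [Field k] [Field κ] [Algebra k κ] [IsAlgClosed k]

/-- the residue field of a place is `k` -/
theorem Place.exists_residue (h : IsCurveField k κ) (v : Place k κ) (x : κ) (hx : 0 ≤ v.ord x) :
    ∃ c : k, x = algebraMap k κ c ∨ 0 < v.ord (x - algebraMap k κ c) := by
  by_contra hcon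
  push Not at hcon
  have hne : ∀ c : k, x ≠ algebraMap k κ c := fun c => (hcon c).1
  have hx0 : x ≠ 0 := ne_zero_of_ne hne
  have hval : ∀ c : k, v.val (x - algebraMap k κ c) = 1 := by
    intro c
    have h1 : x - algebraMap k κ c ≠ 0 := sub_ne_zero.2 (hne c)
    refine le_antisymm ?_ ?_
    · refine (Valuation.map_sub _ _ _).trans (max_le ((v.val_le_one_iff hx0).2 hx) ?_)
      by_cases hc : c = 0
      · simp [hc]
      · rw [v.val_algebraMap c hc]
    · rw [← not_lt, v.val_lt_one_iff h1]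
      exact not_lt.2 (hcon c).2
  have htriv : ∀ g : IntermediateField.adjoin k {x}, g ≠ 0 → v.val (g : κ) = 1 := by
    intro g hg
    exact val_eq_one_of_residue v.val v.val_algebraMap hval g.2 (by simpa using hg)
  obtain ⟨t, ht⟩ := v.exists_ord_eq_one
  have ht0 : t ≠ 0 := by
    rintro rfl
    rw [v.ord_zero] at ht
    exact absurd ht (by norm_num)
  have hfd := Place.finite_adjoin h x hne
  set n := Module.finrank (IntermediateField.adjoin k {x}) κ with hn
  have hli : LinearIndependent (IntermediateField.adjoin k {x})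
      (fun i : Fin (n + 1) => t ^ (i : ℕ)) := by
    refine linearIndependent_of_val v.val _ (fun i => pow_ne_zero _ ht0) ?_
    intro g g' hg hg' i j hij
    rw [map_mul, map_mul, htriv g hg, htriv g' hg', one_mul, one_mul,
      v.val_of_ne (pow_ne_zero _ ht0), v.val_of_ne (pow_ne_zero _ ht0), v.ord_pow ht0,
      v.ord_pow ht0, ht, Ne, WithZero.exp_inj]
    intro hh
    refine hij (Fin.ext ?_)
    omega
  have hcard := hli.fintype_card_le_finrank
  rw [Fintype.card_fin] at hcard
  omega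

/-! ### approximation -/

omit [IsAlgClosed k] in
theorem Place.exists_zero_pos (v w : Place k κ) (hvw : v ≠ w) :
    ∃ s : κ, s ≠ 0 ∧ v.ord s = 0 ∧ 0 < w.ord s := by
  by_contra hcon
  push Not at hcon
  have h0 : ∀ x : κ, x ≠ 0 → v.ord x = 0 → w.ord x = 0 := by
    intro x hx hvx
    have h1 := hcon x hx hvx
    have h2 := hcon x⁻¹ (inv_ne_zero hx) (by rw [v.ord_inv, hvx, neg_zero])
    rw [w.ord_inv] at h2
    omega
  obtain ⟨p, hp⟩ := v.exists_ord_eq_one
  have hp0 : p ≠ 0 := by
    rintro rfl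
    rw [v.ord_zero] at hp
    exact absurd hp (by norm_num)
  have h1 : ∀ x : κ, x ≠ 0 → w.ord x = w.ord p * v.ord x := by
    intro x hx
    have h2 := h0 (x / p ^ (v.ord x)) (div_ne_zero hx (zpow_ne_zero _ hp0)) (by
      rw [v.ord_div hx (zpow_ne_zero _ hp0), v.ord_zpow hp0, hp]
      ring)
    rw [w.ord_div hx (zpow_ne_zero _ hp0), w.ord_zpow hp0] at h2
    linarith [mul_comm (v.ord x) (w.ord p)]
  obtain ⟨t, ht⟩ := w.exists_ord_eq_one
  have ht0 : t ≠ 0 := by
    rintro rfl
    rw [w.ord_zero] at ht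
    exact absurd ht (by norm_num)
  have h2 := h1 t ht0
  rw [ht] at h2
  rcases Int.eq_one_or_neg_one_of_mul_eq_one h2.symm with h3 | h3
  · apply hvw
    ext x
    by_cases hx : x = 0
    · rw [hx, v.ord_zero, w.ord_zero]
    · rw [h1 x hx, h3, one_mul]
  · obtain ⟨h4, h5⟩ := v.ord_add_eq (x := 1) (y := p) one_ne_zero (by
      right
      rw [v.ord_one, hp]
      norm_num)
    rw [v.ord_one] at h5
    obtain ⟨h6, h7⟩ := w.ord_add_eq (x := p) (y := 1) hp0 (by
      right
      rw [w.ord_one, h3]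
      norm_num)
    have h8 := h0 _ h4 h5
    rw [add_comm, h7, h3] at h8
    exact absurd h8 (by norm_num)

omit [IsAlgClosed k] in
theorem Place.exists_neg_pos (v : Place k κ) (S : Finset (Place k κ)) (hS : v ∉ S) :
    ∃ s : κ, v.ord s < 0 ∧ ∀ w ∈ S, 0 < w.ord s := by
  classical
  induction S using Finset.induction_on with
  | empty =>
    obtain ⟨p, hp⟩ := v.exists_ord_eq_one
    exact ⟨p⁻¹, by rw [v.ord_inv, hp]; norm_num, by simp⟩
  | insert w S hwS ih =>
    rw [Finset.mem_insert, not_or] at hS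
    obtain ⟨a, ha, haS⟩ := ih hS.2
    have ha0 : a ≠ 0 := by
      rintro rfl
      rw [v.ord_zero] at ha
      exact absurd ha (by norm_num)
    obtain ⟨s0, hs00, hs01, hs02⟩ := v.exists_zero_pos w hS.1
    obtain ⟨s1, hs10, hs11, hs12⟩ := w.exists_zero_pos v (Ne.symm hS.1)
    set b := s0 / s1 with hb
    have hb0 : b ≠ 0 := div_ne_zero hs00 hs10
    have hbv : v.ord b < 0 := by rw [hb, v.ord_div hs00 hs10]; omega
    have hbw : 0 < w.ord b := by rw [hb, w.ord_div hs00 hs10]; omega
    -- a large exponent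
    obtain ⟨r, hr1, hr⟩ : ∃ r : ℕ, 1 ≤ r ∧ ∀ u ∈ S, 0 < r * u.ord a + u.ord b := by
      refine ⟨1 + ∑ u ∈ S, (u.ord b).natAbs, by omega, ?_⟩
      intro u hu
      have h1 : (u.ord b).natAbs ≤ ∑ u ∈ S, (u.ord b).natAbs :=
        Finset.single_le_sum (f := fun u : Place k κ => (u.ord b).natAbs)
          (fun _ _ => Nat.zero_le _) hu
      have h2 := haS u hu
      generalize (∑ u ∈ S, (u.ord b).natAbs) = M at h1 ⊢
      have h3 : -(M : ℤ) ≤ u.ord b := by omega
      have h4 : (1 : ℤ) + M ≤ (1 + M) * u.ord a := by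
        have : (0 : ℤ) ≤ 1 + M := by positivity
        nlinarith
      push_cast
      linarith
    have har0 : a ^ r ≠ 0 := pow_ne_zero _ ha0
    by_cases hwa : 0 ≤ w.ord a
    · refine ⟨a ^ r * b, ?_, ?_⟩
      · rw [v.ord_mul _ _ har0 hb0, v.ord_pow ha0]
        have : (r : ℤ) * v.ord a ≤ 0 := by
          have : (0 : ℤ) ≤ r := by positivity
          nlinarith
        omega
      · intro u hu
        rw [u.ord_mul _ _ har0 hb0, u.ord_pow ha0]
        rcases Finset.mem_insert.1 hu with rfl | hu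
        · have : 0 ≤ (r : ℤ) * u.ord a := mul_nonneg (by positivity) hwa
          omega
        · exact hr u hu
    · push Not at hwa
      have hrpos : (0 : ℤ) < r := by exact_mod_cast hr1
      have hneg : ∀ u : Place k κ, u.ord a < 0 → a ^ r + 1 ≠ 0 ∧ u.ord (a ^ r + 1) =
          r * u.ord a := by
        intro u hu
        have := u.ord_add_eq (x := a ^ r) (y := 1) har0 (by
          right
          rw [u.ord_one, u.ord_pow ha0]
          nlinarith)
        rwa [u.ord_pow ha0] at this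
      have hpos : ∀ u : Place k κ, 0 < u.ord a → u.ord (a ^ r + 1) = 0 := by
        intro u hu
        have := u.ord_add_eq (x := 1) (y := a ^ r) one_ne_zero (by
          right
          rw [u.ord_one, u.ord_pow ha0]
          nlinarith)
        rw [add_comm, this.2, u.ord_one]
      have hne := (hneg v ha).1
      refine ⟨a ^ r * b / (a ^ r + 1), ?_, ?_⟩
      · rw [v.ord_div (mul_ne_zero har0 hb0) hne, v.ord_mul _ _ har0 hb0, v.ord_pow ha0,
          (hneg v ha).2]
        omega
      · intro u hu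
        rw [u.ord_div (mul_ne_zero har0 hb0) hne, u.ord_mul _ _ har0 hb0, u.ord_pow ha0]
        rcases Finset.mem_insert.1 hu with rfl | hu
        · rw [(hneg u hwa).2]
          omega
        · rw [hpos u (haS u hu)]
          have := hr u hu
          omega

omit [IsAlgClosed k] in
theorem Place.exists_unit_pos (v : Place k κ) (S : Finset (Place k κ)) (hS : v ∉ S) :
    ∃ s : κ, s ≠ 0 ∧ v.ord s = 0 ∧ ∀ w ∈ S, 0 < w.ord s := by
  obtain ⟨a, ha, haS⟩ := v.exists_neg_pos S hS
  have ha0 : a ≠ 0 := by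
    rintro rfl
    rw [v.ord_zero] at ha
    exact absurd ha (by norm_num)
  obtain ⟨h1, h2⟩ := v.ord_add_eq (x := a) (y := 1) ha0 (by right; rw [v.ord_one]; exact ha)
  refine ⟨a / (a + 1), div_ne_zero ha0 h1, ?_, ?_⟩
  · rw [v.ord_div ha0 h1, h2, sub_self]
  · intro w hw
    have h3 := w.ord_add_eq (x := 1) (y := a) one_ne_zero (by
      right; rw [w.ord_one]; exact haS w hw)
    rw [w.ord_div ha0 h1, add_comm a 1, h3.2, w.ord_one, sub_zero]
    exact haS w hw

omit [IsAlgClosed k] in
/-- weak approximation -/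
theorem Place.exists_approx (v : Place k κ) (S : Finset (Place k κ)) (hS : v ∉ S) (j : ℤ)
    (N : ℤ) : ∃ t : κ, t ≠ 0 ∧ v.ord t = j ∧ ∀ w ∈ S, N ≤ w.ord t := by
  obtain ⟨s, hs0, hsv, hsS⟩ := v.exists_unit_pos S hS
  obtain ⟨p, hp⟩ := v.exists_ord_eq_one
  have hp0 : p ≠ 0 := by
    rintro rfl
    rw [v.ord_zero] at hp
    exact absurd hp (by norm_num)
  have hpj : p ^ j ≠ 0 := zpow_ne_zero _ hp0
  refine ⟨s ^ (∑ u ∈ S, (N - u.ord (p ^ j)).natAbs) * p ^ j,
    mul_ne_zero (pow_ne_zero _ hs0) hpj, ?_, ?_⟩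
  · rw [v.ord_mul _ _ (pow_ne_zero _ hs0) hpj, v.ord_pow hs0, hsv, mul_zero, zero_add,
      v.ord_zpow hp0, hp, mul_one]
  · intro w hw
    rw [w.ord_mul _ _ (pow_ne_zero _ hs0) hpj, w.ord_pow hs0]
    have h1 : (N - w.ord (p ^ j)).natAbs ≤ ∑ u ∈ S, (N - u.ord (p ^ j)).natAbs :=
      Finset.single_le_sum (f := fun u : Place k κ => (N - u.ord (p ^ j)).natAbs)
        (fun _ _ => Nat.zero_le _) hw
    have h2 := hsS w hw
    set M := ∑ u ∈ S, (N - u.ord (p ^ j)).natAbs
    have h3 : N - w.ord (p ^ j) ≤ (M : ℤ) := by omega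
    have h4 : (M : ℤ) ≤ M * w.ord s := by
      have : (0 : ℤ) ≤ M := by positivity
      nlinarith
    omega

end Seshadri
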