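import Mathlib
import Pool.Agent.Helper97.SesPlacesB

/-!
# Places of function fields of curves, part C: existence of places
-/

open Polynomial

namespace Seshadri

variable {k κ : Type} [Field k] [Field κ] [Algebra k κ] [IsAlgClosed k]

section
variable {Γ₀ : Type} [LinearOrderedCommGroupWithZero Γ₀]

omit [IsAlgClosed k] in
theorem ne_algebraMap_of_val (w : Valuation κ Γ₀)
    (hw : ∀ c : k, c ≠ 0 → w (algebraMap k κ c) = 1) {x : κ} (hx0 : x ≠ 0) (hx : w x < 1) (c : k) :
    x ≠ algebraMap k κ c := by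
  rintro rfl
  by_cases hc : c = 0
  · rw [hc, map_zero] at hx0
    exact hx0 rfl
  · rw [hw c hc] at hx
    exact lt_irrefl _ hx

/-- there are few values between `w x` and `1` -/
theorem card_values_le (h : IsCurveField k κ) (w : Valuation κ Γ₀)
    (hw : ∀ c : k, c ≠ 0 → w (algebraMap k κ c) = 1) {x : κ} (hx0 : x ≠ 0) (hx : w x < 1)
    {ι : Type} [Fintype ι] (a : ι → κ) (ha0 : ∀ i, w x < w (a i)) (ha1 : ∀ i, w (a i) ≤ 1)
    (hinj : ∀ i j, w (a i) = w (a j) → i = j) :
    Fintype.card ι ≤ Module.finrank (IntermediateField.adjoin k {x}) κ := by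
  have hfd := Place.finite_adjoin h x (ne_algebraMap_of_val w hw hx0 hx)
  have hwx0 : w x ≠ 0 := (map_ne_zero w).2 hx0
  have hwxpos : 0 < w x := lt_of_le_of_ne zero_le hwx0.symm
  have hane : ∀ i, a i ≠ 0 := by
    intro i h0
    have := ha0 i
    rw [h0, map_zero] at this
    exact absurd this not_lt_zero
  have hli : LinearIndependent (IntermediateField.adjoin k {x}) a := by
    refine linearIndependent_of_val w _ hane ?_
    have key : ∀ (m m' : ℤ) (i j : ι), m < m' → w x ^ m * w (a i) ≠ w x ^ m' * w (a j) := by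
      intro m m' i j hmm hh
      have h1 : w (a i) = w x ^ (m' - m) * w (a j) := by
        rw [zpow_sub₀ hwx0, div_mul_eq_mul_div, ← hh, mul_div_assoc, mul_comm,
          div_mul_cancel₀ _ (zpow_ne_zero _ hwx0)]
      have h2 : w x ^ (m' - m) ≤ w x := by
        obtain ⟨t, ht⟩ : ∃ t : ℕ, m' - m = (t + 1 : ℕ) := ⟨(m' - m - 1).toNat, by omega⟩
        rw [ht, zpow_natCast, pow_succ]
        exact mul_le_of_le_one_left' (pow_le_one' hx.le t)
      have h3 : w (a i) ≤ w x := by
        rw [h1]
        exact (mul_le_mul' h2 (ha1 j)).trans (by rw [mul_one])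
      exact absurd (ha0 i) (not_lt.2 h3)
    intro g g' hg hg' i j hij hh
    obtain ⟨m, hm⟩ := exists_zpow hx0 g.2 (by simpa using hg)
    obtain ⟨m', hm'⟩ := exists_zpow hx0 g'.2 (by simpa using hg')
    rw [map_mul, map_mul, hm Γ₀ w hw hx, hm' Γ₀ w hw hx] at hh
    rcases lt_trichotomy m m' with h1 | h1 | h1
    · exact key m m' i j h1 hh
    · subst h1
      exact hij (hinj i j (mul_left_cancel₀ (zpow_ne_zero _ hwx0) hh))
    · exact key m' m j i h1 hh.symm
  exact hli.fintype_card_le_finrank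

/-- a valuation of a function field of a curve which is trivial on `k` is discrete -/
theorem exists_place_of_val (h : IsCurveField k κ) (w : Valuation κ Γ₀)
    (hw : ∀ c : k, c ≠ 0 → w (algebraMap k κ c) = 1) {x : κ} (hx0 : x ≠ 0) (hx : w x < 1) :
    ∃ v : Place k κ, 0 < v.ord x := by
  classical
  have hwx0 : w x ≠ 0 := (map_ne_zero w).2 hx0
  -- the set of values in `(w x, 1)` is finite
  set T : Set Γ₀ := {γ | ∃ a : κ, w a = γ ∧ w x < γ ∧ γ < 1} with hT
  have hTfin : T.Finite := by
    by_contra hinf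
    obtain ⟨t, htT, htc⟩ := Set.Infinite.exists_subset_card_eq hinf
      (Module.finrank (IntermediateField.adjoin k {x}) κ + 1)
    have htT' : ∀ γ ∈ t, ∃ a : κ, w a = γ ∧ w x < γ ∧ γ < 1 := fun γ hγ => htT hγ
    choose! a ha using htT'
    have := card_values_le h w hw hx0 hx (ι := t) (fun γ => a γ.1)
      (fun γ => by rw [(ha _ γ.2).1]; exact (ha _ γ.2).2.1)
      (fun γ => by rw [(ha _ γ.2).1]; exact (ha _ γ.2).2.2.le)
      (fun γ γ' hh => by rw [(ha _ γ.2).1, (ha _ γ'.2).1] at hh; exact Subtype.ext hh)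
    rw [Fintype.card_coe, htc] at this
    omega
  -- a uniformizer
  obtain ⟨p, hp0, hp1, hpmax⟩ : ∃ p : κ, p ≠ 0 ∧ w p < 1 ∧ ∀ a : κ, w a < 1 → w a ≤ w p := by
    obtain ⟨γ, hγ, hγmax⟩ := Set.exists_max_image (insert (w x) T) id (hTfin.insert _)
      ⟨w x, Set.mem_insert _ _⟩
    have hγ' : ∃ p : κ, w p = γ ∧ γ < 1 := by
      rcases hγ with rfl | ⟨p, hp, -, h2⟩
      · exact ⟨x, rfl, hx⟩
      · exact ⟨p, hp, h2⟩
    obtain ⟨p, rfl, hp1⟩ := hγ'
    refine ⟨p, ?_, hp1, ?_⟩
    · rintro rfl
      have := hγmax (w x) (Set.mem_insert _ _)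
      simp only [id, map_zero] at this
      exact hwx0 (le_antisymm this zero_le)
    · intro a ha
      by_cases hax : w x < w a
      · exact hγmax (w a) (Set.mem_insert_of_mem _ ⟨a, rfl, hax, ha⟩)
      · exact (not_lt.1 hax).trans (hγmax (w x) (Set.mem_insert _ _))
  have hwp0 : w p ≠ 0 := (map_ne_zero w).2 hp0
  have hwppos : 0 < w p := lt_of_le_of_ne zero_le hwp0.symm
  have hanti : ∀ m n : ℕ, m < n → w p ^ n < w p ^ m := fun m n hmn =>
    pow_lt_pow_right_of_lt_one₀ hwppos hp1 hmn
  -- every value is a power of `w p`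
  have hval : ∀ a : κ, a ≠ 0 → ∃ m : ℤ, w a = w p ^ m := by
    have key : ∀ a : κ, a ≠ 0 → w a ≤ 1 → ∃ m : ℕ, w a = w p ^ m := by
      intro a ha ha1
      have hwa0 : w a ≠ 0 := (map_ne_zero w).2 ha
      have hex : ∃ m : ℕ, w p ^ m < w a := by
        by_contra hcon
        push Not at hcon
        have ha1' : w a < 1 := lt_of_le_of_lt (by simpa using hcon 1) hp1
        have := card_values_le h w hw ha ha1'
          (ι := Fin (Module.finrank (IntermediateField.adjoin k {a}) κ + 1))
          (fun i => p ^ (i : ℕ))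
          (fun i => by
            rw [map_pow]
            exact lt_of_le_of_lt (hcon ((i : ℕ) + 1)) (hanti _ _ (Nat.lt_succ_self _)))
          (fun i => by rw [map_pow]; exact pow_le_one' hp1.le _)
          (fun i j hij => by
            rw [map_pow, map_pow] at hij
            refine Fin.ext ?_
            rcases lt_trichotomy (i : ℕ) (j : ℕ) with h1 | h1 | h1
            · exact absurd hij (hanti _ _ h1).ne'
            · exact h1
            · exact absurd hij (hanti _ _ h1).ne)
        rw [Fintype.card_fin] at this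
        omega
      have hm := Nat.find_spec hex
      set m := Nat.find hex with hmdef
      have hm0 : m ≠ 0 := by
        intro h0
        rw [h0, pow_zero] at hm
        exact absurd hm (not_lt.2 ha1)
      obtain ⟨n, hn⟩ := Nat.exists_eq_succ_of_ne_zero hm0
      have hn1 : w a ≤ w p ^ n := by
        have := Nat.find_min hex (m := n) (by omega)
        exact not_lt.1 this
      refine ⟨n, ?_⟩
      by_contra hne
      have hlt : w a < w p ^ n := lt_of_le_of_ne hn1 hne
      have h1 : w (a / p ^ n) < 1 := by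
        rw [map_div₀, map_pow]
        exact (div_lt_one₀ (pow_pos hwppos n)).2 hlt
      have h2 := hpmax _ h1
      rw [map_div₀, map_pow, div_le_iff₀ (pow_pos hwppos n), ← pow_succ'] at h2
      rw [hn] at hm
      exact absurd h2 (not_le.2 hm)
    intro a ha
    by_cases ha1 : w a ≤ 1
    · obtain ⟨m, hm⟩ := key a ha ha1
      exact ⟨m, by rw [hm, zpow_natCast]⟩
    · have h1 : w a⁻¹ ≤ 1 := by
        rw [map_inv₀]
        exact inv_le_one_of_one_le₀ (not_le.1 ha1).le
      obtain ⟨m, hm⟩ := key a⁻¹ (inv_ne_zero ha) h1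
      refine ⟨-m, ?_⟩
      rw [zpow_neg, zpow_natCast, ← hm, map_inv₀, inv_inv]
  have hinj : ∀ m n : ℤ, w p ^ m = w p ^ n → m = n := by
    intro m n hmn
    exact zpow_right_injective₀ hwppos hp1.ne hmn
  have hmono : ∀ m n : ℤ, w p ^ m ≤ w p ^ n ↔ n ≤ m := by
    intro m n
    exact zpow_le_zpow_iff_right_of_lt_one₀ hwppos hp1
  choose! o ho using hval
  refine ⟨⟨fun a => if a = 0 then 0 else o a, by simp, ?_, ?_, ?_, ?_⟩, ?_⟩
  · intro a b ha hb
    simp only [ha, hb, mul_eq_zero, or_self, if_false]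
    apply hinj
    rw [← ho _ (mul_ne_zero ha hb), map_mul, ho a ha, ho b hb, zpow_add₀ hwp0]
  · intro a b ha hb hab
    simp only [ha, hb, hab, if_false]
    have h1 := Valuation.map_add w a b
    rw [ho a ha, ho b hb, ho _ hab, le_max_iff, hmono, hmono] at h1
    exact min_le_iff.2 h1
  · intro c
    by_cases hc : algebraMap k κ c = 0
    · simp [hc]
    · simp only [hc, if_false]
      have hc' : c ≠ 0 := by
        rintro rfl
        exact hc (map_zero _)
      apply hinj
      rw [← ho _ hc, hw c hc', zpow_zero]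
  · refine ⟨p, ?_⟩
    simp only [hp0, if_false]
    apply hinj
    rw [← ho p hp0, zpow_one]
  · simp only [hx0, if_false]
    rw [← not_le, ← hmono, zpow_zero, ← ho x hx0, not_le]
    exact hx

end

/-- every non-constant function has a zero -/
theorem Place.exists_pos (h : IsCurveField k κ) (x : κ) (hx : ∀ c : k, x ≠ algebraMap k κ c) :
    ∃ v : Place k κ, 0 < v.ord x := by
  have hx0 : x ≠ 0 := ne_zero_of_ne hx
  set R : Subring κ := (⊥ : Subalgebra k κ).toSubring with hR
  have hmem : ∀ z : κ, z ∈ R ↔ ∃ c : k, algebraMap k κ c = z := by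
    intro z
    exact Algebra.mem_bot
  have hcl : IsIntegrallyClosedIn R κ := by
    rw [isIntegrallyClosedIn_iff]
    refine ⟨Subtype.val_injective, ?_⟩
    intro z hz
    have hz' : IsIntegral k z := by
      have hz1 : IsIntegral (⊥ : Subalgebra k κ) z := hz
      have : Algebra.IsIntegral k (⊥ : Subalgebra k κ) := inferInstance
      exact isIntegral_trans z hz1
    have hz2 : ¬ (∀ c : k, z ≠ algebraMap k κ c) := fun hcon =>
      transcendental_of_ne hcon hz'.isAlgebraic
    push Not at hz2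
    obtain ⟨c, hc⟩ := hz2
    exact ⟨⟨z, (hmem z).2 ⟨c, hc.symm⟩⟩, rfl⟩
  have hxR : x⁻¹ ∉ R := by
    rw [hmem]
    rintro ⟨c, hc⟩
    exact inv_ne_of_ne hx c hc.symm
  obtain ⟨V, hRV, hxV⟩ := Subring.exists_le_valuationSubring_of_isIntegrallyClosedIn hxR
  have hle : ∀ c : k, V.valuation (algebraMap k κ c) ≤ 1 := fun c =>
    (V.valuation_le_one_iff _).2 (hRV ((hmem _).2 ⟨c, rfl⟩))
  refine exists_place_of_val h V.valuation ?_ hx0 ?_
  · intro c hc
    refine le_antisymm (hle c) ?_
    have h1 := hle c⁻¹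
    rw [map_inv₀, map_inv₀] at h1
    have h2 : V.valuation (algebraMap k κ c) ≠ 0 :=
      (_root_.map_ne_zero _).2 ((_root_.map_ne_zero _).2 hc)
    exact (inv_le_one₀ (lt_of_le_of_ne zero_le h2.symm)).1 h1
  · have h1 : 1 < V.valuation x⁻¹ := by
      rw [← not_le, V.valuation_le_one_iff]
      exact hxV
    rw [map_inv₀] at h1
    have h2 : V.valuation x ≠ 0 := (_root_.map_ne_zero _).2 hx0
    exact (one_lt_inv₀ (lt_of_le_of_ne zero_le h2.symm)).1 h1

end Seshadri
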