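import Mathlib
import Pool.Agent.Helper97.SesPlacesC

/-!
# Places of function fields of curves: finiteness, degree formula, product formula
-/

open Polynomial

namespace Seshadri

variable {k κ : Type} [Field k] [Field κ] [Algebra k κ] [IsAlgClosed k]

/-- the number of zeros is at most the degree -/
theorem Place.sum_le (h : IsCurveField k κ) (f : κ) (hf : ∀ c : k, f ≠ algebraMap k κ c)
    (S : Finset (Place k κ)) (hS : ∀ v ∈ S, 0 < v.ord f) :
    ∑ v ∈ S, (v.ord f).toNat ≤ Module.finrank (IntermediateField.adjoin k {f}) κ := by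
  classical
  have hfd := Place.finite_adjoin h f hf
  have hf0 : f ≠ 0 := ne_zero_of_ne hf
  set N : ℤ := ∑ w ∈ S, w.ord f with hN
  have hNle : ∀ w ∈ S, w.ord f ≤ N := fun w hw =>
    Finset.single_le_sum (f := fun w : Place k κ => w.ord f) (fun u hu => (hS u hu).le) hw
  have hex : ∀ (v : Place k κ) (j : ℕ), ∃ t : κ, t ≠ 0 ∧ v.ord t = j ∧
      ∀ w ∈ S.erase v, N ≤ w.ord t := fun v j =>
    v.exists_approx (S.erase v) (Finset.notMem_erase v S) j N
  choose t ht0 htv htw using hex
  set a : (Σ v : S, Fin (v.1.ord f).toNat) → κ := fun p => t p.1.1 p.2 with ha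
  have hli : LinearIndependent (IntermediateField.adjoin k {f}) a := by
    rw [Fintype.linearIndependent_iff]
    intro g hg
    by_contra hcon
    push Not at hcon
    obtain ⟨i0, hi0⟩ := hcon
    set s : Finset (Σ v : S, Fin (v.1.ord f).toNat) :=
      Finset.univ.filter (fun i => g i ≠ 0) with hs
    have hsum : ∑ i ∈ s, (g i : κ) * a i = 0 := by
      rw [← hg]
      rw [← Finset.sum_filter_add_sum_filter_not Finset.univ (fun i => g i ≠ 0)]
      rw [Finset.sum_eq_zero (s := Finset.univ.filter (fun i => ¬ g i ≠ 0)), add_zero]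
      · rfl
      · intro i hi
        have : g i = 0 := by simpa using hi
        rw [this, zero_smul]
    -- orders of the coefficients
    have hord : ∀ i, g i ≠ 0 → ∃ m : ℤ, ∀ v ∈ S, v.ord (g i : κ) = m * v.ord f := by
      intro i hi
      have hgi : (g i : κ) ≠ 0 := by simpa using hi
      obtain ⟨m, hm⟩ := exists_zpow hf0 (g i).2 hgi
      refine ⟨m, fun v hv => ?_⟩
      have h1 := hm _ v.val v.val_algebraMap ((v.val_lt_one_iff hf0).2 (hS v hv))
      rw [v.val_of_ne hgi, v.val_of_ne hf0, ← WithZero.exp_zsmul, WithZero.exp_inj,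
        smul_eq_mul] at h1
      linarith
    choose! m hm using hord
    obtain ⟨p0, hp0, hp0min⟩ := Finset.exists_min_image s m ⟨i0, by simp [hs, hi0]⟩
    have hgs : ∀ i ∈ s, g i ≠ 0 := fun i hi => by simpa [hs] using hi
    have hgs' : ∀ i ∈ s, (g i : κ) ≠ 0 := fun i hi => by simpa using hgs i hi
    have ha0 : ∀ i, a i ≠ 0 := fun i => ht0 _ _
    set v := p0.1.1 with hv
    have hvS : v ∈ S := p0.1.2
    have hordv : ∀ i ∈ s, v.ord ((g i : κ) * a i) = m i * v.ord f + v.ord (a i) := by
      intro i hi
      rw [v.ord_mul _ _ (hgs' i hi) (ha0 i), hm i (hgs i hi) v hvS]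
    obtain ⟨p1, hp1, hp1min⟩ := Finset.exists_min_image s
      (fun i => v.ord ((g i : κ) * a i)) ⟨p0, hp0⟩
    have hvf := hS v hvS
    have hlt : ∀ i ∈ s, i.1.1 = v → v.ord (a i) = i.2 ∧ ((i.2 : ℕ) : ℤ) < v.ord f := by
      intro i _ hi
      refine ⟨?_, ?_⟩
      · rw [← hi]
        exact htv i.1.1 i.2
      · have := i.2.2
        rw [← hi]
        omega
    have hbig : ∀ i ∈ s, i.1.1 ≠ v → v.ord f ≤ v.ord (a i) := by
      intro i _ hi
      exact (hNle v hvS).trans (htw i.1.1 i.2 v (Finset.mem_erase.2 ⟨Ne.symm hi, hvS⟩))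
    have hp0val := hordv p0 hp0
    obtain ⟨h01, h02⟩ := hlt p0 hp0 rfl
    have hp1v : p1.1.1 = v := by
      by_contra hne
      have h1 := hp1min p0 hp0
      rw [hp0val, hordv p1 hp1, h01] at h1
      have h2 := hbig p1 hp1 hne
      have h3 := hp0min p1 hp1
      have h4 : m p0 * v.ord f ≤ m p1 * v.ord f := mul_le_mul_of_nonneg_right h3 hvf.le
      omega
    obtain ⟨h11, h12⟩ := hlt p1 hp1 hp1v
    have h1 := Valuation.map_sum_eq_of_lt v.val (s := s) (f := fun i => (g i : κ) * a i) hp1 (by
      intro i hi
      rw [Finset.mem_sdiff, Finset.mem_singleton] at hi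
      have h2 := hp1min i hi.1
      rw [v.val_of_ne (mul_ne_zero (hgs' i hi.1) (ha0 i)),
        v.val_of_ne (mul_ne_zero (hgs' p1 hp1) (ha0 p1)), WithZero.exp_lt_exp]
      have h3 : v.ord ((g i : κ) * a i) ≠ v.ord ((g p1 : κ) * a p1) := by
        intro heq
        have h4 : i.1.1 = v := by
          by_contra hne
          have h5 := hp1min p0 hp0
          rw [← heq, hp0val, hordv i hi.1, h01] at h5
          have h6 := hbig i hi.1 hne
          have h7 := hp0min i hi.1
          have h8 : m p0 * v.ord f ≤ m i * v.ord f := mul_le_mul_of_nonneg_right h7 hvf.le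
          omega
        obtain ⟨h41, h42⟩ := hlt i hi.1 h4
        rw [hordv i hi.1, hordv p1 hp1, h41, h11] at heq
        have h5 : m i = m p1 := by
          by_contra hne
          rcases lt_or_gt_of_ne hne with h6 | h6
          · have : (m i + 1) * v.ord f ≤ m p1 * v.ord f :=
              mul_le_mul_of_nonneg_right (by omega) hvf.le
            have h7 : (m i + 1) * v.ord f = m i * v.ord f + v.ord f := by ring
            omega
          · have : (m p1 + 1) * v.ord f ≤ m i * v.ord f :=
              mul_le_mul_of_nonneg_right (by omega) hvf.le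
            have h7 : (m p1 + 1) * v.ord f = m p1 * v.ord f + v.ord f := by ring
            omega
        rw [h5] at heq
        have h6 : ((i.2 : ℕ) : ℤ) = ((p1.2 : ℕ) : ℤ) := by linarith
        apply hi.2
        obtain ⟨⟨i1, hi1⟩, i2⟩ := i
        obtain ⟨⟨q1, hq1⟩, q2⟩ := p1
        simp only at h4 hp1v h6
        subst h4
        subst hp1v
        congr 1
        exact Fin.ext (by exact_mod_cast h6)
      omega)
    rw [hsum, map_zero] at h1
    exact (_root_.map_ne_zero v.val).2 (mul_ne_zero (hgs' p1 hp1) (ha0 p1)) h1.symm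
  have hcard := hli.fintype_card_le_finrank
  rw [Fintype.card_sigma] at hcard
  simp only [Fintype.card_fin] at hcard
  rwa [Finset.sum_coe_sort S (fun v => (v.ord f).toNat)] at hcard

omit [IsAlgClosed k] in
theorem Place.ord_eq_zero_of_const {f : κ} {c : k} (hc : f = algebraMap k κ c) (v : Place k κ) :
    v.ord f = 0 := by rw [hc, v.ord_algebraMap]

theorem Place.finite_pos (h : IsCurveField k κ) (f : κ) : {v : Place k κ | 0 < v.ord f}.Finite := by
  by_cases hf : ∀ c : k, f ≠ algebraMap k κ c
  · by_contra hinf
    obtain ⟨t, ht, htc⟩ := Set.Infinite.exists_subset_card_eq hinf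
      (Module.finrank (IntermediateField.adjoin k {f}) κ + 1)
    have ht' : ∀ v ∈ t, 0 < v.ord f := fun v hv => ht hv
    have h1 := Place.sum_le h f hf t ht'
    have h2 : ∑ v ∈ t, 1 ≤ ∑ v ∈ t, (v.ord f).toNat := Finset.sum_le_sum fun v hv => by
      have := ht' v hv
      omega
    rw [Finset.sum_const, smul_eq_mul, mul_one, htc] at h2
    omega
  · push Not at hf
    obtain ⟨c, hc⟩ := hf
    convert Set.finite_empty
    ext v
    simp [Place.ord_eq_zero_of_const hc v]

/-- (P1) only finitely many zeros and poles -/
theorem Place.finite_ord_ne (h : IsCurveField k κ) (f : κ) :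
    {v : Place k κ | v.ord f ≠ 0}.Finite := by
  refine ((Place.finite_pos h f).union (Place.finite_pos h f⁻¹)).subset ?_
  intro v hv
  simp only [Set.mem_union, Set.mem_ofPred_eq, v.ord_inv] at hv ⊢
  omega

/-! ### Riemann-Roch spaces -/

open Classical in
/-- the functions with poles bounded by the effective divisor `D` -/
noncomputable def rrSpace (D : Multiset (Place k κ)) : Submodule k κ where
  carrier := {x | ∀ v : Place k κ, x = 0 ∨ -(D.count v : ℤ) ≤ v.ord x}
  zero_mem' := fun v => Or.inl rfl
  add_mem' := by
    intro x y hx hy v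
    by_cases hx0 : x = 0
    · simpa [hx0] using hy v
    by_cases hy0 : y = 0
    · simpa [hy0] using hx v
    by_cases hxy : x + y = 0
    · exact Or.inl hxy
    right
    have h1 := (hx v).resolve_left hx0
    have h2 := (hy v).resolve_left hy0
    exact (le_min h1 h2).trans (v.ord_add x y hx0 hy0 hxy)
  smul_mem' := by
    intro c x hx v
    by_cases hc : c = 0
    · left
      rw [hc, zero_smul]
    by_cases hx0 : x = 0
    · left
      rw [hx0, smul_zero]
    right
    have h2 := (hx v).resolve_left hx0
    rw [Algebra.smul_def, v.ord_mul _ _ ((_root_.map_ne_zero _).2 hc) hx0, v.ord_algebraMap,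
      zero_add]
    exact h2

omit [IsAlgClosed k] in
open Classical in
theorem mem_rrSpace {D : Multiset (Place k κ)} {x : κ} :
    x ∈ rrSpace D ↔ ∀ v : Place k κ, x = 0 ∨ -(D.count v : ℤ) ≤ v.ord x := Iff.rfl

theorem rrSpace_finrank (h : IsCurveField k κ) (D : Multiset (Place k κ)) :
    FiniteDimensional k (rrSpace D) ∧ Module.finrank k (rrSpace D) ≤ Multiset.card D + 1 := by
  classical
  induction D using Multiset.induction_on with
  | empty =>
    have hle : rrSpace (k := k) (κ := κ) 0 ≤ Submodule.span k {(1 : κ)} := by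
      intro x hx
      rw [mem_rrSpace] at hx
      rw [Submodule.mem_span_singleton]
      by_contra hcon
      push Not at hcon
      have hne : ∀ c : k, x ≠ algebraMap k κ c := by
        intro c hc
        exact hcon c (by rw [hc, Algebra.algebraMap_eq_smul_one])
      obtain ⟨v, hv⟩ := Place.exists_pos h x⁻¹ (inv_ne_of_ne hne)
      have h1 := (hx v).resolve_left (ne_zero_of_ne hne)
      rw [v.ord_inv] at hv
      simp only [Multiset.count_zero, Nat.cast_zero, neg_zero] at h1
      omega
    have hfd : FiniteDimensional k (rrSpace (k := k) (κ := κ) 0) :=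
      Submodule.finiteDimensional_of_le hle
    refine ⟨hfd, ?_⟩
    refine (Submodule.finrank_mono hle).trans ?_
    refine (finrank_span_le_card ({(1 : κ)} : Set κ)).trans ?_
    simp
  | cons v D ih =>
    obtain ⟨hfd, hrank⟩ := ih
    have hmono : rrSpace D ≤ rrSpace (v ::ₘ D) := by
      intro x hx u
      rcases hx u with h1 | h1
      · exact Or.inl h1
      · right
        have h2 : D.count u ≤ (v ::ₘ D).count u := Multiset.count_le_count_cons u v D
        omega
    obtain ⟨e, he⟩ : ∃ e : κ, rrSpace (v ::ₘ D) ≤ rrSpace D ⊔ Submodule.span k {e} := by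
      by_cases hsub : rrSpace (v ::ₘ D) ≤ rrSpace D
      · exact ⟨0, hsub.trans le_sup_left⟩
      · obtain ⟨e, he1, he2⟩ := Set.not_subset.1 hsub
        have he2' : ¬ ∀ u : Place k κ, e = 0 ∨ -(D.count u : ℤ) ≤ u.ord e := he2
        push Not at he2'
        obtain ⟨u, he0, hu⟩ := he2'
        have h1 := (he1 u).resolve_left he0
        have huv : u = v := by
          by_contra hne
          rw [Multiset.count_cons_of_ne hne] at h1
          omega
        subst huv
        rw [Multiset.count_cons_self] at h1
        have hord : u.ord e = -(D.count u : ℤ) - 1 := by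
          push_cast at h1
          omega
        refine ⟨e, ?_⟩
        intro x hx
        by_cases hx0 : x = 0
        · rw [hx0]
          exact zero_mem _
        have hxu := (hx u).resolve_left hx0
        rw [Multiset.count_cons_self] at hxu
        obtain ⟨c, hc⟩ := Place.exists_residue h u (x / e) (by
          rw [u.ord_div hx0 he0, hord]
          push_cast at hxu
          omega)
        have hdiff : x - c • e ∈ rrSpace D := by
          rcases hc with hc | hc
          · have : x - c • e = 0 := by
              rw [div_eq_iff he0] at hc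
              rw [hc, Algebra.smul_def, sub_self]
            rw [this]
            exact zero_mem _
          · have hmem : x - c • e ∈ rrSpace (u ::ₘ D) :=
              sub_mem hx (Submodule.smul_mem _ c he1)
            intro u'
            by_cases hz : x - c • e = 0
            · exact Or.inl hz
            right
            by_cases huu : u' = u
            · subst huu
              have heq : x - c • e = e * (x / e - algebraMap k κ c) := by
                rw [Algebra.smul_def]
                field_simp
              have hz' : x / e - algebraMap k κ c ≠ 0 := by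
                intro h0
                rw [heq, h0, mul_zero] at hz
                exact hz rfl
              rw [heq, u'.ord_mul _ _ he0 hz', hord]
              omega
            · have := (hmem u').resolve_left hz
              rwa [Multiset.count_cons_of_ne huu] at this
        have hx' : x = (x - c • e) + c • e := by ring
        rw [hx']
        exact add_mem (Submodule.mem_sup_left hdiff)
          (Submodule.mem_sup_right (Submodule.smul_mem _ _ (Submodule.mem_span_singleton_self e)))
    have hfd' : FiniteDimensional k (rrSpace (v ::ₘ D)) :=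
      Submodule.finiteDimensional_of_le he
    refine ⟨hfd', ?_⟩
    have h1 := Submodule.finrank_mono he
    have h2 := Submodule.finrank_add_le_finrank_add_finrank (rrSpace D) (Submodule.span k {e})
    have h3 : Module.finrank k (Submodule.span k {e}) ≤ 1 :=
      (finrank_span_le_card ({e} : Set κ)).trans (by simp)
    rw [Multiset.card_cons]
    omega

omit [IsAlgClosed k] in
theorem linearIndependent_pow_of_transcendental {F : Type} [Field F] [Algebra k F] {x : F}
    (hx : Transcendental k x) : LinearIndependent k (fun j : ℕ => x ^ j) := by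
  have hinj := transcendental_iff_injective.1 hx
  have h2 := (Polynomial.basisMonomials k).linearIndependent.map'
    (aeval x).toLinearMap (LinearMap.ker_eq_bot.2 hinj)
  have h3 : (fun j : ℕ => x ^ j) = (aeval x).toLinearMap ∘ (Polynomial.basisMonomials k) := by
    ext j
    simp
  rw [h3]
  exact h2

/-- the degree is at most the number of zeros -/
theorem Place.le_sum (h : IsCurveField k κ) (f : κ) (hf : ∀ c : k, f ≠ algebraMap k κ c)
    (Z : Finset (Place k κ)) (hZ : ∀ v : Place k κ, 0 < v.ord f → v ∈ Z) :
    Module.finrank (IntermediateField.adjoin k {f}) κ ≤ ∑ v ∈ Z, (v.ord f).toNat := by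
  classical
  have hfd := Place.finite_adjoin h f hf
  have hf0 : f ≠ 0 := ne_zero_of_ne hf
  set F := IntermediateField.adjoin k {f} with hF
  set n := Module.finrank F κ with hn
  let b := Module.finBasis F κ
  have hb0 : ∀ i, b i ≠ 0 := fun i => b.ne_zero i
  -- the set of all poles of the basis
  set P : Finset (Place k κ) := Finset.univ.biUnion
    (fun i => (Place.finite_ord_ne h (b i)).toFinset) with hP
  set C : Multiset (Place k κ) := ∑ v ∈ P, Multiset.replicate (∑ i, (-(v.ord (b i))).toNat) v
    with hC
  have hcountC : ∀ (v : Place k κ) (i), -(C.count v : ℤ) ≤ v.ord (b i) := by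
    intro v i
    by_cases hv : v.ord (b i) = 0
    · rw [hv]
      omega
    have hvP : v ∈ P := by
      rw [hP, Finset.mem_biUnion]
      exact ⟨i, Finset.mem_univ _, by simpa using hv⟩
    have h1 : C.count v = ∑ i, (-(v.ord (b i))).toNat := by
      rw [hC, Multiset.count_sum', Finset.sum_eq_single v]
      · rw [Multiset.count_replicate_self]
      · intro u _ hu
        rw [Multiset.count_replicate, if_neg hu]
      · intro hv'
        exact absurd hvP hv'
    rw [h1]
    have h2 : (-(v.ord (b i))).toNat ≤ ∑ i, (-(v.ord (b i))).toNat :=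
      Finset.single_le_sum (f := fun i => (-(v.ord (b i))).toNat) (fun _ _ => Nat.zero_le _)
        (Finset.mem_univ i)
    omega
  set c := Multiset.card C with hc
  set E : Multiset (Place k κ) := ∑ v ∈ Z, Multiset.replicate (v.ord f).toNat v with hE
  have hcardE : Multiset.card E = ∑ v ∈ Z, (v.ord f).toNat := by
    rw [hE, Multiset.card_sum]
    simp
  have hcountE : ∀ v : Place k κ, v.ord f ≤ (E.count v : ℤ) := by
    intro v
    by_cases hv : 0 < v.ord f
    · have h1 : E.count v = (v.ord f).toNat := by
        rw [hE, Multiset.count_sum', Finset.sum_eq_single v]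
        · rw [Multiset.count_replicate_self]
        · intro u _ hu
          rw [Multiset.count_replicate, if_neg hu]
        · intro hv'
          exact absurd (hZ v hv) hv'
      omega
    · omega
  by_contra hlt
  push Not at hlt
  set N := c + 1 with hNdef
  obtain ⟨hfdD, hrank⟩ := rrSpace_finrank h (C + N • E)
  -- the powers of `f⁻¹`
  have hfF : f⁻¹ ∈ F := F.inv_mem (IntermediateField.mem_adjoin_simple_self k f)
  have htr : Transcendental k (⟨f⁻¹, hfF⟩ : F) := by
    have h1 : Transcendental k f⁻¹ := transcendental_of_ne (inv_ne_of_ne hf)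
    intro halg
    exact h1 (halg.algebraMap (A := κ))
  have hli1 : LinearIndependent k (fun j : Fin (N + 1) => (⟨f⁻¹, hfF⟩ : F) ^ (j : ℕ)) := by
    have h1 := linearIndependent_pow_of_transcendental htr
    exact h1.comp (fun j : Fin (N + 1) => (j : ℕ)) Fin.val_injective
  have hli2 := linearIndependent_smul hli1 b.linearIndependent
  have hmem : ∀ p : Fin (N + 1) × Fin n, (⟨f⁻¹, hfF⟩ : F) ^ (p.1 : ℕ) • b p.2 ∈
      rrSpace (C + N • E) := by
    intro p v
    right
    have h1 : (⟨f⁻¹, hfF⟩ : F) ^ (p.1 : ℕ) • b p.2 = f⁻¹ ^ (p.1 : ℕ) * b p.2 := rfl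
    rw [h1, v.ord_mul _ _ (pow_ne_zero _ (inv_ne_zero hf0)) (hb0 _),
      v.ord_pow (inv_ne_zero hf0), v.ord_inv, Multiset.count_add, Multiset.count_nsmul]
    have h2 := hcountC v p.2
    have h3 := hcountE v
    have h4 : (p.1 : ℕ) ≤ N := by omega
    have h5 : ((p.1 : ℕ) : ℤ) * v.ord f ≤ N * (E.count v : ℤ) := by
      calc ((p.1 : ℕ) : ℤ) * v.ord f ≤ ((p.1 : ℕ) : ℤ) * (E.count v : ℤ) :=
            mul_le_mul_of_nonneg_left h3 (by positivity)
        _ ≤ N * (E.count v : ℤ) :=
            mul_le_mul_of_nonneg_right (by exact_mod_cast h4) (by positivity)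
    push_cast
    have h6 : ((p.1 : ℕ) : ℤ) * -v.ord f = -(((p.1 : ℕ) : ℤ) * v.ord f) := by ring
    rw [h6]
    linarith
  have hli3 : LinearIndependent k (fun p : Fin (N + 1) × Fin n =>
      (⟨(⟨f⁻¹, hfF⟩ : F) ^ (p.1 : ℕ) • b p.2, hmem p⟩ : rrSpace (C + N • E))) := by
    refine LinearIndependent.of_comp (rrSpace (C + N • E)).subtype ?_
    exact hli2
  have hcard := hli3.fintype_card_le_finrank
  rw [Fintype.card_prod, Fintype.card_fin, Fintype.card_fin] at hcard
  rw [Multiset.card_add, Multiset.card_nsmul, hcardE, ← hc] at hrank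
  set S := ∑ v ∈ Z, (v.ord f).toNat with hS
  have h7 : (N + 1) * (S + 1) ≤ (N + 1) * n := Nat.mul_le_mul_left _ hlt
  have h8 : (N + 1) * (S + 1) ≤ c + N * S + 1 := by
    refine h7.trans (hcard.trans (hrank.trans ?_))
    simp
  have h9 : (N + 1) * (S + 1) = N * S + N + S + 1 := by ring
  omega

/-- (P2) number of zeros = degree -/
theorem Place.sum_zeros (h : IsCurveField k κ) (f : κ) (hf : ∀ c : k, f ≠ algebraMap k κ c) :
    ∑ᶠ v : Place k κ, (v.ord f).toNat = Module.finrank (IntermediateField.adjoin k {f}) κ := by
  have hfin := Place.finite_pos h f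
  have h1 : ∑ᶠ v : Place k κ, (v.ord f).toNat = ∑ v ∈ hfin.toFinset, (v.ord f).toNat := by
    apply finsum_eq_sum_of_support_subset
    intro v hv
    simp only [Function.mem_support] at hv
    simp only [Set.Finite.coe_toFinset, Set.mem_ofPred_eq]
    omega
  rw [h1]
  refine le_antisymm (Place.sum_le h f hf _ (fun v hv => by simpa using hv))
    (Place.le_sum h f hf _ (fun v hv => by simpa using hv))

omit [IsAlgClosed k] in
theorem adjoin_inv (f : κ) :
    IntermediateField.adjoin k {f⁻¹} = IntermediateField.adjoin k {f} := by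
  apply le_antisymm
  · rw [IntermediateField.adjoin_simple_le_iff]
    exact (IntermediateField.adjoin k {f}).inv_mem (IntermediateField.mem_adjoin_simple_self k f)
  · rw [IntermediateField.adjoin_simple_le_iff]
    have := (IntermediateField.adjoin k {f⁻¹}).inv_mem
      (IntermediateField.mem_adjoin_simple_self k f⁻¹)
    rwa [inv_inv] at this

/-- (P3) product formula -/
theorem Place.sum_ord (h : IsCurveField k κ) (f : κ) (_hf : f ≠ 0) :
    ∑ᶠ v : Place k κ, v.ord f = 0 := by
  by_cases hne : ∀ c : k, f ≠ algebraMap k κ c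
  · have hfin := Place.finite_ord_ne h f
    set T := hfin.toFinset with hT
    have h1 : ∑ᶠ v : Place k κ, v.ord f = ∑ v ∈ T, v.ord f := by
      apply finsum_eq_sum_of_support_subset
      intro v hv
      simpa [hT] using hv
    have h2 : ∑ᶠ v : Place k κ, (v.ord f).toNat = ∑ v ∈ T, (v.ord f).toNat := by
      apply finsum_eq_sum_of_support_subset
      intro v hv
      simp only [Function.mem_support] at hv
      simp only [hT, Set.Finite.coe_toFinset, Set.mem_ofPred_eq]
      omega
    have h3 : ∑ᶠ v : Place k κ, (v.ord f⁻¹).toNat = ∑ v ∈ T, (v.ord f⁻¹).toNat := by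
      apply finsum_eq_sum_of_support_subset
      intro v hv
      simp only [Function.mem_support, v.ord_inv] at hv
      simp only [hT, Set.Finite.coe_toFinset, Set.mem_ofPred_eq]
      omega
    have h4 := Place.sum_zeros h f hne
    have h5 := Place.sum_zeros h f⁻¹ (inv_ne_of_ne hne)
    rw [adjoin_inv, ← h4, h2, h3] at h5
    rw [h1]
    have h6 : ∀ v : Place k κ, v.ord f = ((v.ord f).toNat : ℤ) - ((v.ord f⁻¹).toNat : ℤ) := by
      intro v
      rw [v.ord_inv]
      omega
    rw [Finset.sum_congr rfl (fun v _ => h6 v), Finset.sum_sub_distrib, ← Nat.cast_sum,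
      ← Nat.cast_sum, h5, sub_self]
  · push Not at hne
    obtain ⟨c, hc⟩ := hne
    rw [finsum_congr (fun v : Place k κ => Place.ord_eq_zero_of_const hc v), finsum_zero]

end Seshadri
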