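import Pool.Agent.Helper97.Block

set_option autoImplicit false

namespace Pool.Agent.Helper97

open Finset

lemma PP_ratio (s j : ℕ) (hj : j < 9 * s ^ 2) :
    8 * ((j : ℝ) + 1) * PP s (j + 1) = (9 * (s : ℝ) ^ 2 - j) * PP s j := by
  unfold PP
  have h1 := Nat.choose_succ_right_eq (9 * s ^ 2) j
  have h2 : ((9 * s ^ 2).choose (j + 1) : ℝ) * ((j : ℝ) + 1)
      = ((9 * s ^ 2).choose j : ℝ) * (9 * (s : ℝ) ^ 2 - j) := by
    have : (((9 * s ^ 2).choose (j + 1) * (j + 1) : ℕ) : ℝ)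
      = (((9 * s ^ 2).choose j * (9 * s ^ 2 - j) : ℕ) : ℝ) := by rw [h1]
    push_cast [Nat.cast_sub hj.le] at this
    exact this
  have h3 : (8 : ℝ) ^ (9 * s ^ 2 - j) = 8 * 8 ^ (9 * s ^ 2 - (j + 1)) := by
    have : 9 * s ^ 2 - j = (9 * s ^ 2 - (j + 1)) + 1 := by omega
    rw [this, pow_succ]; ring
  rw [h3]
  calc _ = 8 * (((9 * s ^ 2).choose (j + 1) : ℝ) * ((j : ℝ) + 1)) * 8 ^ (9 * s ^ 2 - (j + 1)) := by ring
    _ = _ := by rw [h2]; ring

lemma PP_zero (s j : ℕ) (hj : 9 * s ^ 2 < j) : PP s j = 0 := by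
  unfold PP
  rw [Nat.choose_eq_zero_of_lt hj]; simp

lemma PP_ratio_up (s a i : ℕ) (hs : 0 < s) (has : a ≤ s) (hi : s ^ 2 + a * s ≤ i) :
    PP s (i + 1) ≤ (1 - 9 * a / (16 * s)) * PP s i := by
  have hs0 : (0 : ℝ) < s := by exact_mod_cast hs
  have hasr : (a : ℝ) ≤ s := by exact_mod_cast has
  have ha0 : (0 : ℝ) ≤ a := Nat.cast_nonneg a
  have hx : 0 ≤ 1 - 9 * (a : ℝ) / (16 * s) := by
    rw [sub_nonneg, div_le_one (by positivity)]; linarith
  rcases lt_or_ge i (9 * s ^ 2) with h | h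
  · have h1 := PP_ratio s i h
    have hir : (s : ℝ) ^ 2 + a * s ≤ i := by exact_mod_cast hi
    have hp := PP_nonneg s i
    have hi0 : (0 : ℝ) < 8 * ((i : ℝ) + 1) := by positivity
    have h2 : (9 * (s : ℝ) ^ 2 - i) ≤ (1 - 9 * (a : ℝ) / (16 * s)) * (8 * ((i : ℝ) + 1)) := by
      have h3 : (8 * (s : ℝ) ^ 2 - a * s) ≤ (1 - 9 * (a : ℝ) / (16 * s)) * (8 * (s ^ 2 + a * s)) := by
        have e : (1 - 9 * (a : ℝ) / (16 * s)) * (8 * (s ^ 2 + a * s))
            = (8 * (s : ℝ) ^ 2 - a * s) + (9 / 2) * a * (s - a) := by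
          field_simp
          ring
        rw [e]
        have : 0 ≤ (9 / 2) * (a : ℝ) * (s - a) := by
          apply mul_nonneg (by positivity); linarith
        linarith
      calc _ ≤ (8 * (s : ℝ) ^ 2 - a * s) := by linarith
        _ ≤ _ := h3
        _ ≤ _ := by
          apply mul_le_mul_of_nonneg_left _ hx
          linarith
    have h4 : 8 * ((i : ℝ) + 1) * PP s (i + 1)
        ≤ 8 * ((i : ℝ) + 1) * ((1 - 9 * a / (16 * s)) * PP s i) := by
      rw [h1]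
      calc _ ≤ ((1 - 9 * (a : ℝ) / (16 * s)) * (8 * ((i : ℝ) + 1))) * PP s i := by gcongr
        _ = _ := by ring
    exact le_of_mul_le_mul_left h4 hi0
  · rw [PP_zero s (i + 1) (by omega)]
    exact mul_nonneg hx (PP_nonneg s i)

lemma PP_half (s a j : ℕ) (hs : 0 < s) (ha : 2 ≤ a) (has : a ≤ s) (hj : s ^ 2 + a * s ≤ j) :
    PP s (j + s) ≤ PP s j / 2 := by
  have hs0 : (0 : ℝ) < s := by exact_mod_cast hs
  have hasr : (a : ℝ) ≤ s := by exact_mod_cast has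
  have ha2 : (2 : ℝ) ≤ a := by exact_mod_cast ha
  set x := 9 * (a : ℝ) / (16 * s) with hx
  have hx0 : 0 ≤ x := by positivity
  have hx1 : x ≤ 1 := by
    rw [hx, div_le_one (by positivity)]; linarith
  have h1 : ∀ t : ℕ, PP s (j + t) ≤ (1 - x) ^ t * PP s j := by
    intro t
    induction t with
    | zero => simp
    | succ t ih =>
      have h2 := PP_ratio_up s a (j + t) hs has (by omega)
      calc PP s (j + (t + 1)) ≤ (1 - x) * PP s (j + t) := h2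
        _ ≤ (1 - x) * ((1 - x) ^ t * PP s j) := by
          apply mul_le_mul_of_nonneg_left ih; linarith
        _ = _ := by ring
  have h2 : (1 - x) ^ s ≤ 1 / 2 := by
    have h3 : 1 + (s : ℝ) * x ≤ (1 + x) ^ s := one_add_mul_le_pow (by linarith) s
    have h4 : (s : ℝ) * x = 9 * a / 16 := by rw [hx]; field_simp
    have h5 : (1 - x) ^ s * (1 + x) ^ s ≤ 1 := by
      rw [← mul_pow]
      apply pow_le_one₀
      · apply mul_nonneg <;> linarith
      · nlinarith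
    have h6 : 0 ≤ (1 - x) ^ s := pow_nonneg (by linarith) s
    have h7 : (1 - x) ^ s * 2 ≤ (1 - x) ^ s * (1 + x) ^ s := by
      apply mul_le_mul_of_nonneg_left _ h6
      linarith
    linarith
  calc PP s (j + s) ≤ (1 - x) ^ s * PP s j := h1 s
    _ ≤ 1 / 2 * PP s j := by
      apply mul_le_mul_of_nonneg_right h2 (PP_nonneg s j)
    _ = _ := by ring

lemma PP_tail (s a : ℕ) (hs : 0 < s) (ha : 2 ≤ a) (has : a ≤ s) :
    ∑ j ∈ Ico (s ^ 2 + a * s) (9 * s ^ 2 + 1), PP s j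
      ≤ 2 * ∑ j ∈ Ico (s ^ 2 + a * s) (s ^ 2 + a * s + s), PP s j := by
  set j0 := s ^ 2 + a * s with hj0
  have h9 : j0 + s ≤ 9 * s ^ 2 + 1 := by
    have : a * s ≤ s * s := Nat.mul_le_mul_right s has
    have h2 : s ≤ s * s := Nat.le_mul_self s
    rw [hj0, sq]; omega
  have h1 : ∑ j ∈ Ico j0 (9 * s ^ 2 + 1), PP s j
      = ∑ j ∈ Ico j0 (j0 + s), PP s j + ∑ j ∈ Ico (j0 + s) (9 * s ^ 2 + 1), PP s j := by
    rw [sum_Ico_consecutive _ (by omega) h9]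
  have h2 : ∑ j ∈ Ico (j0 + s) (9 * s ^ 2 + 1), PP s j
      ≤ (∑ j ∈ Ico j0 (9 * s ^ 2 + 1), PP s j) / 2 := by
    have e : 9 * s ^ 2 + 1 = (9 * s ^ 2 + 1 - s) + s := by
      have : s ≤ 9 * s ^ 2 + 1 := by omega
      omega
    calc ∑ j ∈ Ico (j0 + s) (9 * s ^ 2 + 1), PP s j
        = ∑ j ∈ Ico (j0 + s) ((9 * s ^ 2 + 1 - s) + s), PP s j := by rw [← e]
      _ = ∑ j ∈ Ico j0 (9 * s ^ 2 + 1 - s), PP s (j + s) := by
          rw [sum_Ico_add']
      _ ≤ ∑ j ∈ Ico j0 (9 * s ^ 2 + 1 - s), PP s j / 2 := by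
          apply sum_le_sum
          intro j hj
          exact PP_half s a j hs ha has (mem_Ico.1 hj).1
      _ ≤ ∑ j ∈ Ico j0 (9 * s ^ 2 + 1), PP s j / 2 := by
          apply sum_le_sum_of_subset_of_nonneg
          · apply Ico_subset_Ico_right; omega
          · intro j _ _
            have := PP_nonneg s j; positivity
      _ = _ := by rw [sum_div]
  linarith

lemma PP_ratio_down (s b i : ℕ) (hs : 0 < s) (hbs : 9 * b ≤ 8 * s) (hi : i < s ^ 2 + b * s) :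
    (1 - 9 * b / (8 * s)) * PP s i ≤ PP s (i + 1) := by
  have hs0 : (0 : ℝ) < s := by exact_mod_cast hs
  have hbsr : 9 * (b : ℝ) ≤ 8 * s := by exact_mod_cast hbs
  have hb0 : (0 : ℝ) ≤ b := Nat.cast_nonneg b
  have hi9 : i < 9 * s ^ 2 := by
    have h1 : b * s ≤ s * s := Nat.mul_le_mul_right s (by omega)
    have : s ^ 2 = s * s := sq s
    omega
  have h1 := PP_ratio s i hi9
  have hir : (i : ℝ) + 1 ≤ (s : ℝ) ^ 2 + b * s := by exact_mod_cast hi
  have hp := PP_nonneg s i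
  have hi0 : (0 : ℝ) < 8 * ((i : ℝ) + 1) := by positivity
  have hx : 0 ≤ 1 - 9 * (b : ℝ) / (8 * s) := by
    rw [sub_nonneg, div_le_one (by positivity)]; exact hbsr
  have h2 : (1 - 9 * (b : ℝ) / (8 * s)) * (8 * ((i : ℝ) + 1)) ≤ (9 * (s : ℝ) ^ 2 - i) := by
    calc _ ≤ (1 - 9 * (b : ℝ) / (8 * s)) * (8 * ((s : ℝ) ^ 2 + b * s)) := by
          apply mul_le_mul_of_nonneg_left _ hx
          linarith
      _ = 8 * (s : ℝ) ^ 2 - b * s - 9 * b ^ 2 := by field_simp; ring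
      _ ≤ 8 * (s : ℝ) ^ 2 - b * s := by
          have : 0 ≤ 9 * (b : ℝ) ^ 2 := by positivity
          linarith
      _ ≤ _ := by linarith
  have h4 : 8 * ((i : ℝ) + 1) * ((1 - 9 * b / (8 * s)) * PP s i)
      ≤ 8 * ((i : ℝ) + 1) * PP s (i + 1) := by
    rw [h1]
    calc _ = ((1 - 9 * (b : ℝ) / (8 * s)) * (8 * ((i : ℝ) + 1))) * PP s i := by ring
      _ ≤ _ := by gcongr
  exact le_of_mul_le_mul_left h4 hi0

/-- the central mass. -/
lemma PP_mid (s : ℕ) (hs : 0 < s) :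
    7 / 9 * (9 : ℝ) ^ (9 * s ^ 2) ≤
      ∑ j ∈ (range (9 * s ^ 2 + 1)).filter (fun j : ℕ => |(j : ℝ) - (s : ℝ) ^ 2| < 2 * s), PP s j := by
  classical
  have hs0 : (0 : ℝ) < s := by exact_mod_cast hs
  have h1 := sum_filter_add_sum_filter_not (range (9 * s ^ 2 + 1))
    (fun j : ℕ => |(j : ℝ) - (s : ℝ) ^ 2| < 2 * s) (fun j => PP s j)
  rw [sum_PP] at h1
  have h2 := cheb_PP s (4 * s ^ 2) ((range (9 * s ^ 2 + 1)).filter
    (fun j : ℕ => ¬ |(j : ℝ) - (s : ℝ) ^ 2| < 2 * s)) (filter_subset _ _) (by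
      intro j hj
      have h3 := (mem_filter.1 hj).2
      push Not at h3
      have h4 : (2 * (s : ℝ)) ^ 2 ≤ |(j : ℝ) - (s : ℝ) ^ 2| ^ 2 := by gcongr
      rw [sq_abs] at h4
      linarith)
  have h3 : ∑ j ∈ (range (9 * s ^ 2 + 1)).filter
      (fun j : ℕ => ¬ |(j : ℝ) - (s : ℝ) ^ 2| < 2 * s), PP s j ≤ 2 / 9 * (9 : ℝ) ^ (9 * s ^ 2) := by
    have h5 : (4 * (s : ℝ) ^ 2) * ∑ j ∈ (range (9 * s ^ 2 + 1)).filter
      (fun j : ℕ => ¬ |(j : ℝ) - (s : ℝ) ^ 2| < 2 * s), PP s j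
      ≤ (4 * (s : ℝ) ^ 2) * (2 / 9 * (9 : ℝ) ^ (9 * s ^ 2)) := by
      calc _ ≤ _ := h2
        _ = _ := by ring
    exact le_of_mul_le_mul_left h5 (by positivity)
  linarith

lemma pow_lower (b s : ℕ) (hs : 0 < s) (hbs : 9 * b ≤ 4 * s) (L t : ℕ) (ht : t ≤ L * s) :
    Real.exp (-(9 / 4 * b * L)) ≤ (1 - 9 * b / (8 * s) : ℝ) ^ t := by
  have hs0 : (0 : ℝ) < s := by exact_mod_cast hs
  have hbsr : 9 * (b : ℝ) ≤ 4 * s := by exact_mod_cast hbs
  have hb0 : (0 : ℝ) ≤ b := Nat.cast_nonneg b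
  set x := 9 * (b : ℝ) / (8 * s) with hx
  have hx0 : 0 ≤ x := by positivity
  have hx1 : x ≤ 1 / 2 := by
    rw [hx, div_le_iff₀ (by positivity)]; linarith
  have h1 : (1 - x) ^ (L * s) ≤ (1 - x) ^ t :=
    pow_le_pow_of_le_one (by linarith) (by linarith) ht
  refine le_trans ?_ h1
  have h2 : Real.exp (-(2 * x)) ≤ 1 - x := by
    have h3 : 1 ≤ (1 - x) * (1 + 2 * x) := by nlinarith
    have h4 : 1 + 2 * x ≤ Real.exp (2 * x) := by
      have := Real.add_one_le_exp (2 * x); linarith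
    have h5 : 1 ≤ (1 - x) * Real.exp (2 * x) :=
      h3.trans (mul_le_mul_of_nonneg_left h4 (by linarith))
    rw [Real.exp_neg, inv_le_iff_one_le_mul₀ (Real.exp_pos _)]
    exact h5
  calc Real.exp (-(9 / 4 * b * L)) = (Real.exp (-(2 * x))) ^ (L * s) := by
        rw [← Real.exp_nat_mul]
        congr 1
        push_cast
        rw [hx]
        field_simp
        ring
    _ ≤ (1 - x) ^ (L * s) := by
        apply pow_le_pow_left₀ (Real.exp_pos _).le h2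

/-- the far block has a positive proportion of the mass. -/
lemma PP_block (a s : ℕ) (hs : 0 < s) (ha : 2 ≤ a) (has : 9 * (a + 1) ≤ 4 * s) :
    7 / 45 * Real.exp (-(9 / 4 * ((a + 1 : ℕ) : ℝ) * ((a + 3 : ℕ) : ℝ))) * (9 : ℝ) ^ (9 * s ^ 2) ≤
      ∑ j ∈ Ico (s ^ 2 + a * s) (s ^ 2 + a * s + s), PP s j := by
  classical
  have hs0 : (0 : ℝ) < s := by exact_mod_cast hs
  have hs1 : (1 : ℝ) ≤ s := by exact_mod_cast hs
  set S := (range (9 * s ^ 2 + 1)).filter (fun j : ℕ => |(j : ℝ) - (s : ℝ) ^ 2| < 2 * s) with hS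
  have h1 := PP_mid s hs
  rw [← hS] at h1
  have hcard : (S.card : ℝ) ≤ 5 * s := by
    have := card_le_of_interval S ((s : ℝ) ^ 2) (2 * s) (by positivity)
      fun r hr => (mem_filter.1 hr).2
    linarith
  -- find a large term
  obtain ⟨j', hj'S, hj'⟩ : ∃ j' ∈ S, 7 / 45 * (9 : ℝ) ^ (9 * s ^ 2) ≤ s * PP s j' := by
    by_contra hcon
    push Not at hcon
    have hne : S.Nonempty := by
      rw [nonempty_iff_ne_empty]
      intro he
      rw [he, sum_empty] at h1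
      have : (0 : ℝ) < 7 / 9 * (9 : ℝ) ^ (9 * s ^ 2) := by positivity
      linarith
    have h2 : ∑ j ∈ S, s * PP s j < ∑ j ∈ S, 7 / 45 * (9 : ℝ) ^ (9 * s ^ 2) :=
      sum_lt_sum_of_nonempty hne hcon
    rw [← mul_sum, sum_const, nsmul_eq_mul] at h2
    have h3 : (S.card : ℝ) * (7 / 45 * (9 : ℝ) ^ (9 * s ^ 2))
        ≤ 5 * s * (7 / 45 * (9 : ℝ) ^ (9 * s ^ 2)) := by gcongr
    have h4 : (s : ℝ) * (7 / 9 * (9 : ℝ) ^ (9 * s ^ 2)) ≤ s * ∑ j ∈ S, PP s j := by gcongr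
    have h5 : (0 : ℝ) < 9 ^ (9 * s ^ 2) := by positivity
    nlinarith
  have hj'2 := abs_lt.1 (mem_filter.1 hj'S).2
  have hj'up : j' < s ^ 2 + 2 * s := by
    have : (j' : ℝ) < (s : ℝ) ^ 2 + 2 * s := by linarith [hj'2.2]
    exact_mod_cast this
  have hj'lo : s ^ 2 ≤ j' + 2 * s := by
    have : (s : ℝ) ^ 2 ≤ (j' : ℝ) + 2 * s := by linarith [hj'2.1]
    exact_mod_cast this
  set x := 9 * ((a + 1 : ℕ) : ℝ) / (8 * s) with hx
  have hx1 : 0 ≤ 1 - x := by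
    have : 9 * ((a + 1 : ℕ) : ℝ) ≤ 4 * s := by exact_mod_cast has
    rw [hx, sub_nonneg, div_le_one (by positivity)]; linarith
  have h2 : ∀ t : ℕ, j' + t ≤ s ^ 2 + (a + 1) * s → (1 - x) ^ t * PP s j' ≤ PP s (j' + t) := by
    intro t
    induction t with
    | zero => intro _; simp
    | succ t ih =>
      intro ht
      have h3 := PP_ratio_down s (a + 1) (j' + t) hs (by omega) (by omega)
      have h4 := ih (by omega)
      calc (1 - x) ^ (t + 1) * PP s j' = (1 - x) * ((1 - x) ^ t * PP s j') := by ring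
        _ ≤ (1 - x) * PP s (j' + t) := mul_le_mul_of_nonneg_left h4 hx1
        _ ≤ _ := h3
  have h3 : ∀ j ∈ Ico (s ^ 2 + a * s) (s ^ 2 + a * s + s),
      Real.exp (-(9 / 4 * ((a + 1 : ℕ) : ℝ) * ((a + 3 : ℕ) : ℝ))) * PP s j' ≤ PP s j := by
    intro j hj
    have hj2 := mem_Ico.1 hj
    have h2s : 2 * s ≤ a * s := Nat.mul_le_mul_right s ha
    obtain ⟨t, rfl⟩ : ∃ t, j = j' + t := Nat.exists_eq_add_of_le (by omega)
    have e1 : (a + 1) * s = a * s + s := by ring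
    have e3 : (a + 3) * s = a * s + 3 * s := by ring
    have h4 := h2 t (by omega)
    refine le_trans ?_ h4
    apply mul_le_mul_of_nonneg_right _ (PP_nonneg s j')
    exact pow_lower (a + 1) s hs has (a + 3) t (by omega)
  have h4 := sum_le_sum h3
  rw [sum_const, Nat.card_Ico, nsmul_eq_mul] at h4
  have e : ((s ^ 2 + a * s + s - (s ^ 2 + a * s) : ℕ) : ℝ) = s := by
    congr 1; omega
  rw [e] at h4
  refine le_trans ?_ h4
  have h5 := mul_le_mul_of_nonneg_left hj'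
    (Real.exp_pos (-(9 / 4 * ((a + 1 : ℕ) : ℝ) * ((a + 3 : ℕ) : ℝ)))).le
  linarith

end Pool.Agent.Helper97
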