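import Pool.Agent.Helper97.Graph

set_option autoImplicit false

namespace Pool.Agent.Helper97

open Finset

open scoped Classical

variable {n : ℕ} {G : SimpleGraph (Fin n)}

/-- ordered pairs of vertices in a common component. -/
noncomputable def conn (G : SimpleGraph (Fin n)) : Finset (Fin n × Fin n) :=
  univ.filter (fun p => G.Reachable p.1 p.2)

/-- difference of indicators -/
noncomputable def dd (p : Finset (Fin n) × Finset (Fin n)) (u : Fin n) : ℝ :=
  (if u ∈ p.1 then 1 else 0) - (if u ∈ p.2 then 1 else 0)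

/-- swap on the component of `v`. -/
noncomputable def sw (G : SimpleGraph (Fin n)) (v : Fin n) (p : Finset (Fin n) × Finset (Fin n)) :
    Finset (Fin n) × Finset (Fin n) :=
  (univ.filter (fun x => if G.Reachable v x then x ∈ p.2 else x ∈ p.1),
    univ.filter (fun x => if G.Reachable v x then x ∈ p.1 else x ∈ p.2))

lemma sum_dd (p : Finset (Fin n) × Finset (Fin n)) :
    ∑ u, dd p u = (p.1.card : ℝ) - p.2.card := by
  unfold dd
  rw [sum_sub_distrib]
  simp

lemma sw_mem {Z : Finset (Fin n)} (v : Fin n) (p : Finset (Fin n) × Finset (Fin n))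
    (hp : p ∈ indW G Z ×ˢ indW G Z) : sw G v p ∈ indW G Z ×ˢ indW G Z := by
  rw [mem_product, mem_indW, mem_indW] at hp ⊢
  obtain ⟨⟨hA, hAd⟩, ⟨hB, hBd⟩⟩ := hp
  unfold sw
  refine ⟨⟨?_, ?_⟩, ⟨?_, ?_⟩⟩
  · intro x hx y hy hadj
    simp only [mem_filter, mem_univ, true_and] at hx hy
    by_cases hvx : G.Reachable v x
    · have hvy : G.Reachable v y := hvx.trans hadj.reachable
      rw [if_pos hvx] at hx
      rw [if_pos hvy] at hy
      exact hB x hx y hy hadj
    · have hvy : ¬ G.Reachable v y := fun h => hvx (h.trans hadj.symm.reachable)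
      rw [if_neg hvx] at hx
      rw [if_neg hvy] at hy
      exact hA x hx y hy hadj
  · rw [Finset.disjoint_left]
    intro x hx
    simp only [mem_filter, mem_univ, true_and] at hx
    split_ifs at hx
    · exact Finset.disjoint_left.1 hBd hx
    · exact Finset.disjoint_left.1 hAd hx
  · intro x hx y hy hadj
    simp only [mem_filter, mem_univ, true_and] at hx hy
    by_cases hvx : G.Reachable v x
    · have hvy : G.Reachable v y := hvx.trans hadj.reachable
      rw [if_pos hvx] at hx
      rw [if_pos hvy] at hy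
      exact hA x hx y hy hadj
    · have hvy : ¬ G.Reachable v y := fun h => hvx (h.trans hadj.symm.reachable)
      rw [if_neg hvx] at hx
      rw [if_neg hvy] at hy
      exact hB x hx y hy hadj
  · rw [Finset.disjoint_left]
    intro x hx
    simp only [mem_filter, mem_univ, true_and] at hx
    split_ifs at hx
    · exact Finset.disjoint_left.1 hAd hx
    · exact Finset.disjoint_left.1 hBd hx

lemma sw_sw (v : Fin n) (p : Finset (Fin n) × Finset (Fin n)) : sw G v (sw G v p) = p := by
  unfold sw
  ext x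
  · simp only [mem_filter, mem_univ, true_and]
    split_ifs <;> rfl
  · simp only [mem_filter, mem_univ, true_and]
    split_ifs <;> rfl

lemma dd_sw_self (v : Fin n) (p : Finset (Fin n) × Finset (Fin n)) :
    dd (sw G v p) v = - dd p v := by
  unfold dd sw
  simp

lemma dd_sw_other (u v : Fin n) (huv : ¬ G.Reachable v u)
    (p : Finset (Fin n) × Finset (Fin n)) : dd (sw G v p) u = dd p u := by
  unfold dd sw
  simp [huv]

lemma dd_le (p : Finset (Fin n) × Finset (Fin n)) (u v : Fin n) : dd p u * dd p v ≤ 1 := by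
  unfold dd
  split_ifs <;> norm_num

lemma sum_dd_zero {Z : Finset (Fin n)} (u v : Fin n) (huv : ¬ G.Reachable u v) :
    ∑ p ∈ indW G Z ×ˢ indW G Z, dd p u * dd p v = 0 := by
  have huv' : ¬ G.Reachable v u := fun h => huv h.symm
  refine sum_involution (fun p _ => sw G v p) ?_ ?_ ?_ ?_
  · intro p _
    rw [dd_sw_self, dd_sw_other u v huv']; ring
  · intro p _ hne heq
    have h1 := dd_sw_self (G := G) v p
    rw [heq] at h1
    have : dd p v = 0 := by linarith
    exact hne (by rw [this, mul_zero])
  · intro p hp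
    exact sw_mem v p hp
  · intro p _
    exact sw_sw v p

lemma empty_mem_indW {Z : Finset (Fin n)} : (∅ : Finset (Fin n)) ∈ indW G Z := by
  rw [mem_indW]
  simp

lemma exists_center (Z : Finset (Fin n)) : ∃ ρ : ℝ,
    ∑ A ∈ indW G Z, ((A.card : ℝ) - ρ) ^ 2 ≤ (conn G).card * (indW G Z).card := by
  have h1 : ∑ B ∈ indW G Z, ∑ A ∈ indW G Z, ((A.card : ℝ) - B.card) ^ 2
      ≤ ∑ B ∈ indW G Z, ((conn G).card * (indW G Z).card : ℝ) := by
    have e1 : ∑ B ∈ indW G Z, ∑ A ∈ indW G Z, ((A.card : ℝ) - B.card) ^ 2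
        = ∑ p ∈ indW G Z ×ˢ indW G Z, ((p.1.card : ℝ) - p.2.card) ^ 2 := by
      rw [sum_product_right]
    have e2 : ∑ p ∈ indW G Z ×ˢ indW G Z, ((p.1.card : ℝ) - p.2.card) ^ 2
        = ∑ q : Fin n × Fin n, ∑ p ∈ indW G Z ×ˢ indW G Z, dd p q.1 * dd p q.2 := by
      rw [sum_comm]
      apply sum_congr rfl
      intro p _
      rw [← sum_dd, sq, sum_mul_sum, ← sum_product', univ_product_univ]
    rw [e1, e2]
    calc ∑ q : Fin n × Fin n, ∑ p ∈ indW G Z ×ˢ indW G Z, dd p q.1 * dd p q.2
        ≤ ∑ q : Fin n × Fin n, if G.Reachable q.1 q.2 then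
            ((indW G Z).card * (indW G Z).card : ℝ) else 0 := by
          apply sum_le_sum
          intro q _
          split_ifs with h
          · calc _ ≤ ∑ p ∈ indW G Z ×ˢ indW G Z, (1 : ℝ) :=
                  sum_le_sum fun p _ => dd_le p q.1 q.2
              _ = _ := by rw [sum_const, card_product]; simp
          · rw [sum_dd_zero q.1 q.2 h]
      _ = _ := by
          rw [← sum_filter, sum_const, sum_const]
          unfold conn
          simp only [nsmul_eq_mul]
          ring
  obtain ⟨B, -, hB⟩ := exists_le_of_sum_le ⟨∅, empty_mem_indW⟩ h1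
  exact ⟨B.card, hB⟩

end Pool.Agent.Helper97
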